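import Mathlib

/-!
# Raw ternary structures for the domination counterexample (MP_02e24e_lc)
-/

namespace Pool.Agent.H78.Dom

universe u v

/-- The relation symbols (all ternary): two unary predicates `y`, `z`, the unary levels `p m`,
the binary relations `d`, `l` and the ternary relations `t`, `r m`. -/
inductive Sym : Type
  | y | z | p (m : ℕ) | d | l | t | r (m : ℕ)

/-- A raw structure. -/
abbrev Raw (V : Type u) : Type u := Sym → V → V → V → Prop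

/-- Pull back. -/
def Raw.comap {V : Type u} {W : Type v} (g : V → W) (ρ : Raw W) : Raw V :=
  fun σ a b c => ρ σ (g a) (g b) (g c)

/-- The class `K`. Elements satisfying neither `y` nor `z` are the elements of the sort `X`. -/
structure IsK {V : Type u} (ρ : Raw V) : Prop where
  y_diag : ∀ a b c, ρ .y a b c → a = b ∧ b = c
  z_diag : ∀ a b c, ρ .z a b c → a = b ∧ b = c
  p_diag : ∀ m a b c, ρ (.p m) a b c → a = b ∧ b = c
  yz : ∀ a, ρ .y a a a → ¬ ρ .z a a a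
  py : ∀ m a, ρ (.p m) a a a → ¬ ρ .y a a a
  pz : ∀ m a, ρ (.p m) a a a → ¬ ρ .z a a a
  pp : ∀ m n a, ρ (.p m) a a a → ρ (.p n) a a a → m = n
  d_diag : ∀ a b c, ρ .d a b c → b = c
  d_ne : ∀ a b c, ρ .d a b c → a ≠ b
  d_symm : ∀ a b, ρ .d a b b → ρ .d b a a
  d_y : ∀ a b c, ρ .d a b c → ¬ ρ .y a a a
  d_z : ∀ a b c, ρ .d a b c → ¬ ρ .z a a a
  l_diag : ∀ a b c, ρ .l a b c → b = c
  l_y : ∀ a b c, ρ .l a b c → ρ .y a a a
  l_y2 : ∀ a b c, ρ .l a b c → ¬ ρ .y b b b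
  l_z2 : ∀ a b c, ρ .l a b c → ¬ ρ .z b b b
  t_y : ∀ a b c, ρ .t a b c → ¬ ρ .y a a a
  t_z : ∀ a b c, ρ .t a b c → ¬ ρ .z a a a
  t_z2 : ∀ a b c, ρ .t a b c → ρ .z b b b
  t_z3 : ∀ a b c, ρ .t a b c → ρ .z c c c
  r_y : ∀ m a b c, ρ (.r m) a b c → ρ .y a a a
  r_z2 : ∀ m a b c, ρ (.r m) a b c → ρ .z b b b
  r_z3 : ∀ m a b c, ρ (.r m) a b c → ρ .z c c c
  c1 : ∀ a b c, ρ .l a b b → ρ .l a c c → ¬ ρ .d b c c
  c2 : ∀ m a b c e, ρ .l a b b → ρ (.p m) b b b → ρ (.r m) a c e → ¬ ρ .t b c e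

/-- Small one-point extension property of a raw structure. -/
def SEP {U : Type (u + 1)} (ρ : Raw U) : Prop :=
  ∀ (I : Type (u + 1)) [Small.{u} I] (f : I → U), Function.Injective f →
    ∀ τ : Raw (Option I), IsK τ → τ.comap some = ρ.comap f →
      ∃ b, (∀ i, f i ≠ b) ∧ ρ.comap (fun o : Option I => o.elim b f) = τ

end Pool.Agent.H78.Dom
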