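import Pool.Agent.H78.Dom.Sat

/-!
# Free amalgamation and adding one relation
-/

namespace Pool.Agent.H78.Dom

open Set

section add
variable {V : Type 1} {M : Raw V}

/-- Add one triple to the relation `σ₀`. -/
def addTriple (M : Raw V) (σ₀ : Sym) (x₀ y₀ z₀ : V) : Raw V :=
  fun σ x y z => M σ x y z ∨ (σ = σ₀ ∧ x = x₀ ∧ y = y₀ ∧ z = z₀)

theorem isK_addR (hM : IsK M) (m₀ : ℕ) (x₀ y₀ z₀ : V) (hx : M .y x₀ x₀ x₀) (hy : M .z y₀ y₀ y₀)
    (hz : M .z z₀ z₀ z₀) (h : ∀ b, M .l x₀ b b → M (.p m₀) b b b → ¬ M .t b y₀ z₀) :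
    IsK (addTriple M (.r m₀) x₀ y₀ z₀) := by
  have e : ∀ σ : Sym, σ ≠ .r m₀ → ∀ x y z, addTriple M (.r m₀) x₀ y₀ z₀ σ x y z ↔ M σ x y z := by
    intro σ hσ x y z
    simp [addTriple, hσ]
  have er : ∀ m x y z, addTriple M (.r m₀) x₀ y₀ z₀ (.r m) x y z ↔
      M (.r m) x y z ∨ (m = m₀ ∧ x = x₀ ∧ y = y₀ ∧ z = z₀) := by
    intro m x y z
    simp [addTriple]
  constructor
  · intro a b c; rw [e _ (by simp)]; exact hM.y_diag a b c
  · intro a b c; rw [e _ (by simp)]; exact hM.z_diag a b c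
  · intro m a b c; rw [e _ (by simp)]; exact hM.p_diag m a b c
  · intro a; rw [e _ (by simp), e _ (by simp)]; exact hM.yz a
  · intro m a; rw [e _ (by simp), e _ (by simp)]; exact hM.py m a
  · intro m a; rw [e _ (by simp), e _ (by simp)]; exact hM.pz m a
  · intro m n a; rw [e _ (by simp), e _ (by simp)]; exact hM.pp m n a
  · intro a b c; rw [e _ (by simp)]; exact hM.d_diag a b c
  · intro a b c; rw [e _ (by simp)]; exact hM.d_ne a b c
  · intro a b; rw [e _ (by simp), e _ (by simp)]; exact hM.d_symm a b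
  · intro a b c; rw [e _ (by simp), e _ (by simp)]; exact hM.d_y a b c
  · intro a b c; rw [e _ (by simp), e _ (by simp)]; exact hM.d_z a b c
  · intro a b c; rw [e _ (by simp)]; exact hM.l_diag a b c
  · intro a b c; rw [e _ (by simp), e _ (by simp)]; exact hM.l_y a b c
  · intro a b c; rw [e _ (by simp), e _ (by simp)]; exact hM.l_y2 a b c
  · intro a b c; rw [e _ (by simp), e _ (by simp)]; exact hM.l_z2 a b c
  · intro a b c; rw [e _ (by simp), e _ (by simp)]; exact hM.t_y a b c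
  · intro a b c; rw [e _ (by simp), e _ (by simp)]; exact hM.t_z a b c
  · intro a b c; rw [e _ (by simp), e _ (by simp)]; exact hM.t_z2 a b c
  · intro a b c; rw [e _ (by simp), e _ (by simp)]; exact hM.t_z3 a b c
  · intro m a b c; rw [er, e _ (by simp)]
    rintro (h1 | ⟨-, rfl, -, -⟩)
    · exact hM.r_y m a b c h1
    · exact hx
  · intro m a b c; rw [er, e _ (by simp)]
    rintro (h1 | ⟨-, -, rfl, -⟩)
    · exact hM.r_z2 m a b c h1
    · exact hy
  · intro m a b c; rw [er, e _ (by simp)]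
    rintro (h1 | ⟨-, -, -, rfl⟩)
    · exact hM.r_z3 m a b c h1
    · exact hz
  · intro a b c; rw [e _ (by simp), e _ (by simp), e _ (by simp)]; exact hM.c1 a b c
  · intro m a b c c'
    rw [er, e _ (by simp), e _ (by simp), e _ (by simp)]
    rintro h1 h2 (h3 | ⟨rfl, rfl, rfl, rfl⟩)
    · exact hM.c2 m a b c c' h1 h2 h3
    · exact h b h1 h2

theorem isK_addT (hM : IsK M) (x₀ y₀ z₀ : V) (hx : ¬ M .y x₀ x₀ x₀) (hx' : ¬ M .z x₀ x₀ x₀)
    (hy : M .z y₀ y₀ y₀)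
    (hz : M .z z₀ z₀ z₀) (h : ∀ m a, ¬ M (.r m) a y₀ z₀) :
    IsK (addTriple M .t x₀ y₀ z₀) := by
  have e : ∀ σ : Sym, σ ≠ .t → ∀ x y z, addTriple M .t x₀ y₀ z₀ σ x y z ↔ M σ x y z := by
    intro σ hσ x y z
    simp [addTriple, hσ]
  have er : ∀ x y z, addTriple M .t x₀ y₀ z₀ .t x y z ↔
      M .t x y z ∨ (x = x₀ ∧ y = y₀ ∧ z = z₀) := by
    intro x y z
    simp [addTriple]
  constructor
  · intro a b c; rw [e _ (by simp)]; exact hM.y_diag a b c
  · intro a b c; rw [e _ (by simp)]; exact hM.z_diag a b c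
  · intro m a b c; rw [e _ (by simp)]; exact hM.p_diag m a b c
  · intro a; rw [e _ (by simp), e _ (by simp)]; exact hM.yz a
  · intro m a; rw [e _ (by simp), e _ (by simp)]; exact hM.py m a
  · intro m a; rw [e _ (by simp), e _ (by simp)]; exact hM.pz m a
  · intro m n a; rw [e _ (by simp), e _ (by simp)]; exact hM.pp m n a
  · intro a b c; rw [e _ (by simp)]; exact hM.d_diag a b c
  · intro a b c; rw [e _ (by simp)]; exact hM.d_ne a b c
  · intro a b; rw [e _ (by simp), e _ (by simp)]; exact hM.d_symm a b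
  · intro a b c; rw [e _ (by simp), e _ (by simp)]; exact hM.d_y a b c
  · intro a b c; rw [e _ (by simp), e _ (by simp)]; exact hM.d_z a b c
  · intro a b c; rw [e _ (by simp)]; exact hM.l_diag a b c
  · intro a b c; rw [e _ (by simp), e _ (by simp)]; exact hM.l_y a b c
  · intro a b c; rw [e _ (by simp), e _ (by simp)]; exact hM.l_y2 a b c
  · intro a b c; rw [e _ (by simp), e _ (by simp)]; exact hM.l_z2 a b c
  · intro a b c; rw [er, e _ (by simp)]
    rintro (h1 | ⟨rfl, -, -⟩)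
    · exact hM.t_y a b c h1
    · exact hx
  · intro a b c; rw [er, e _ (by simp)]
    rintro (h1 | ⟨rfl, -, -⟩)
    · exact hM.t_z a b c h1
    · exact hx'
  · intro a b c; rw [er, e _ (by simp)]
    rintro (h1 | ⟨-, rfl, -⟩)
    · exact hM.t_z2 a b c h1
    · exact hy
  · intro a b c; rw [er, e _ (by simp)]
    rintro (h1 | ⟨-, -, rfl⟩)
    · exact hM.t_z3 a b c h1
    · exact hz
  · intro m a b c; rw [e _ (by simp), e _ (by simp)]; exact hM.r_y m a b c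
  · intro m a b c; rw [e _ (by simp), e _ (by simp)]; exact hM.r_z2 m a b c
  · intro m a b c; rw [e _ (by simp), e _ (by simp)]; exact hM.r_z3 m a b c
  · intro a b c; rw [e _ (by simp), e _ (by simp), e _ (by simp)]; exact hM.c1 a b c
  · intro m a b c c'
    rw [er, e _ (by simp), e _ (by simp), e _ (by simp)]
    rintro h1 h2 h3 (h4 | ⟨rfl, rfl, rfl⟩)
    · exact hM.c2 m a b c c' h1 h2 h3 h4
    · exact h m a h3

theorem isK_addD (hM : IsK M) (x₀ y₀ : V) (hne : x₀ ≠ y₀) (hx : ¬ M .y x₀ x₀ x₀)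
    (hx' : ¬ M .z x₀ x₀ x₀) (hy : ¬ M .y y₀ y₀ y₀) (hy' : ¬ M .z y₀ y₀ y₀)
    (h : ∀ a, M .l a x₀ x₀ → ¬ M .l a y₀ y₀) :
    IsK (addTriple (addTriple M .d x₀ y₀ y₀) .d y₀ x₀ x₀) := by
  have e : ∀ σ : Sym, σ ≠ .d → ∀ x y z,
      addTriple (addTriple M .d x₀ y₀ y₀) .d y₀ x₀ x₀ σ x y z ↔ M σ x y z := by
    intro σ hσ x y z
    simp [addTriple, hσ]
  have er : ∀ x y z, addTriple (addTriple M .d x₀ y₀ y₀) .d y₀ x₀ x₀ .d x y z ↔
      M .d x y z ∨ (x = x₀ ∧ y = y₀ ∧ z = y₀) ∨ (x = y₀ ∧ y = x₀ ∧ z = x₀) := by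
    intro x y z
    simp [addTriple, or_assoc]
  constructor
  · intro a b c; rw [e _ (by simp)]; exact hM.y_diag a b c
  · intro a b c; rw [e _ (by simp)]; exact hM.z_diag a b c
  · intro m a b c; rw [e _ (by simp)]; exact hM.p_diag m a b c
  · intro a; rw [e _ (by simp), e _ (by simp)]; exact hM.yz a
  · intro m a; rw [e _ (by simp), e _ (by simp)]; exact hM.py m a
  · intro m a; rw [e _ (by simp), e _ (by simp)]; exact hM.pz m a
  · intro m n a; rw [e _ (by simp), e _ (by simp)]; exact hM.pp m n a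
  · intro a b c; rw [er]
    rintro (h1 | ⟨rfl, rfl, rfl⟩ | ⟨rfl, rfl, rfl⟩)
    · exact hM.d_diag a b c h1
    · rfl
    · rfl
  · intro a b c; rw [er]
    rintro (h1 | ⟨rfl, rfl, rfl⟩ | ⟨rfl, rfl, rfl⟩)
    · exact hM.d_ne a b c h1
    · exact hne
    · exact hne.symm
  · intro a b; rw [er, er]
    rintro (h1 | ⟨rfl, rfl, -⟩ | ⟨rfl, rfl, -⟩)
    · exact Or.inl (hM.d_symm a b h1)
    · exact Or.inr (Or.inr ⟨rfl, rfl, rfl⟩)
    · exact Or.inr (Or.inl ⟨rfl, rfl, rfl⟩)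
  · intro a b c; rw [er, e _ (by simp)]
    rintro (h1 | ⟨rfl, rfl, rfl⟩ | ⟨rfl, rfl, rfl⟩)
    · exact hM.d_y a b c h1
    · exact hx
    · exact hy
  · intro a b c; rw [er, e _ (by simp)]
    rintro (h1 | ⟨rfl, rfl, rfl⟩ | ⟨rfl, rfl, rfl⟩)
    · exact hM.d_z a b c h1
    · exact hx'
    · exact hy'
  · intro a b c; rw [e _ (by simp)]; exact hM.l_diag a b c
  · intro a b c; rw [e _ (by simp), e _ (by simp)]; exact hM.l_y a b c
  · intro a b c; rw [e _ (by simp), e _ (by simp)]; exact hM.l_y2 a b c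
  · intro a b c; rw [e _ (by simp), e _ (by simp)]; exact hM.l_z2 a b c
  · intro a b c; rw [e _ (by simp), e _ (by simp)]; exact hM.t_y a b c
  · intro a b c; rw [e _ (by simp), e _ (by simp)]; exact hM.t_z a b c
  · intro a b c; rw [e _ (by simp), e _ (by simp)]; exact hM.t_z2 a b c
  · intro a b c; rw [e _ (by simp), e _ (by simp)]; exact hM.t_z3 a b c
  · intro m a b c; rw [e _ (by simp), e _ (by simp)]; exact hM.r_y m a b c
  · intro m a b c; rw [e _ (by simp), e _ (by simp)]; exact hM.r_z2 m a b c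
  · intro m a b c; rw [e _ (by simp), e _ (by simp)]; exact hM.r_z3 m a b c
  · intro a b c; rw [e _ (by simp), e _ (by simp), er]
    rintro h1 h2 (h3 | ⟨rfl, rfl, -⟩ | ⟨rfl, rfl, -⟩)
    · exact hM.c1 a b c h1 h2 h3
    · exact h a h1 h2
    · exact h a h2 h1
  · intro m a b c c'
    rw [e _ (by simp), e _ (by simp), e _ (by simp), e _ (by simp)]
    exact hM.c2 m a b c c'

end add

section amalg
variable {U : Type 1} {ρ : Raw U}

/-- The projection of the amalgam. -/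
def proj {C N : Set U} : ↥C ⊕ ↥N → U := Sum.elim (fun c => (c : U)) (fun n => (n : U))

/-- First part of the amalgam. -/
def O1 {C N : Set U} (x : ↥C ⊕ ↥N) : Prop := x.isLeft = true

/-- Second part of the amalgam. -/
def O2 {C N : Set U} (C0 : Set U) (x : ↥C ⊕ ↥N) : Prop := x.isLeft = true → proj x ∈ C0

/-- The free amalgam. -/
def am0 (ρ : Raw U) (C C0 N : Set U) : Raw (↥C ⊕ ↥N) := fun σ x y z =>
  ρ σ (proj x) (proj y) (proj z) ∧ ((O1 x ∧ O1 y ∧ O1 z) ∨ (O2 C0 x ∧ O2 C0 y ∧ O2 C0 z))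

theorem proj_inj1 {C N : Set U} {x y : ↥C ⊕ ↥N} (hx : O1 x) (hy : O1 y) (h : proj x = proj y) :
    x = y := by
  rcases x with x | x
  · rcases y with y | y
    · congr 1
      exact Subtype.ext h
    · simp [O1] at hy
  · simp [O1] at hx

theorem proj_inj2 {C C0 N : Set U} (hN : ∀ n ∈ N, n ∉ C0) {x y : ↥C ⊕ ↥N} (hx : O2 C0 x)
    (hy : O2 C0 y) (h : proj x = proj y) : x = y := by
  rcases x with x | x
  · rcases y with y | y
    · congr 1
      exact Subtype.ext h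
    · have h1 := hx rfl
      rw [h] at h1
      exact absurd h1 (hN _ y.2)
  · rcases y with y | y
    · have h1 := hy rfl
      rw [← h] at h1
      exact absurd h1 (hN _ x.2)
    · congr 1
      exact Subtype.ext h

theorem o12 {C N : Set U} (C0 : Set U) (x : ↥C ⊕ ↥N) (h : ¬ O2 C0 x) : O1 x := by
  unfold O2 at h
  push Not at h
  exact h.1

/-- Two elements lie in a common part. -/
def Adj {C N : Set U} (C0 : Set U) (x y : ↥C ⊕ ↥N) : Prop := (O1 x ∧ O1 y) ∨ (O2 C0 x ∧ O2 C0 y)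

theorem adj3 {C N : Set U} {C0 : Set U} {x y z : ↥C ⊕ ↥N} (hxy : Adj C0 x y) (hxz : Adj C0 x z)
    (hyz : Adj C0 y z) : (O1 x ∧ O1 y ∧ O1 z) ∨ (O2 C0 x ∧ O2 C0 y ∧ O2 C0 z) := by
  unfold Adj at hxy hxz hyz
  tauto

theorem isK_am0 (hK : IsK ρ) (C C0 N : Set U) (hN : ∀ n ∈ N, n ∉ C0) :
    IsK (am0 ρ C C0 N) := by
  have hinj : ∀ {x y : ↥C ⊕ ↥N}, Adj C0 x y → proj x = proj y → x = y := by
    intro x y h1 h2
    rcases h1 with h1 | h1
    · exact proj_inj1 h1.1 h1.2 h2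
    · exact proj_inj2 hN h1.1 h1.2 h2
  have a12 : ∀ {σ x y z}, am0 ρ C C0 N σ x y z → Adj C0 x y := by
    rintro σ x y z ⟨-, h⟩; unfold Adj; tauto
  have a13 : ∀ {σ x y z}, am0 ρ C C0 N σ x y z → Adj C0 x z := by
    rintro σ x y z ⟨-, h⟩; unfold Adj; tauto
  have a23 : ∀ {σ x y z}, am0 ρ C C0 N σ x y z → Adj C0 y z := by
    rintro σ x y z ⟨-, h⟩; unfold Adj; tauto
  have self : ∀ {σ} {x : ↥C ⊕ ↥N}, ρ σ (proj x) (proj x) (proj x) → am0 ρ C C0 N σ x x x := by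
    intro σ x h
    refine ⟨h, ?_⟩
    by_cases h2 : O2 C0 x
    · exact Or.inr ⟨h2, h2, h2⟩
    · exact Or.inl ⟨o12 C0 x h2, o12 C0 x h2, o12 C0 x h2⟩
  constructor
  · intro a b c h
    exact ⟨hinj (a12 h) (hK.y_diag _ _ _ h.1).1, hinj (a23 h) (hK.y_diag _ _ _ h.1).2⟩
  · intro a b c h
    exact ⟨hinj (a12 h) (hK.z_diag _ _ _ h.1).1, hinj (a23 h) (hK.z_diag _ _ _ h.1).2⟩
  · intro m a b c h
    exact ⟨hinj (a12 h) (hK.p_diag _ _ _ _ h.1).1, hinj (a23 h) (hK.p_diag _ _ _ _ h.1).2⟩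
  · exact fun a h h' => hK.yz _ h.1 h'.1
  · exact fun m a h h' => hK.py _ _ h.1 h'.1
  · exact fun m a h h' => hK.pz _ _ h.1 h'.1
  · exact fun m n a h h' => hK.pp _ _ _ h.1 h'.1
  · exact fun a b c h => hinj (a23 h) (hK.d_diag _ _ _ h.1)
  · exact fun a b c h hab => hK.d_ne _ _ _ h.1 (by rw [hab])
  · intro a b h
    exact ⟨hK.d_symm _ _ h.1, by have := h.2; tauto⟩
  · exact fun a b c h h' => hK.d_y _ _ _ h.1 h'.1
  · exact fun a b c h h' => hK.d_z _ _ _ h.1 h'.1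
  · exact fun a b c h => hinj (a23 h) (hK.l_diag _ _ _ h.1)
  · exact fun a b c h => self (hK.l_y _ _ _ h.1)
  · exact fun a b c h h' => hK.l_y2 _ _ _ h.1 h'.1
  · exact fun a b c h h' => hK.l_z2 _ _ _ h.1 h'.1
  · exact fun a b c h h' => hK.t_y _ _ _ h.1 h'.1
  · exact fun a b c h h' => hK.t_z _ _ _ h.1 h'.1
  · exact fun a b c h => self (hK.t_z2 _ _ _ h.1)
  · exact fun a b c h => self (hK.t_z3 _ _ _ h.1)
  · exact fun m a b c h => self (hK.r_y _ _ _ _ h.1)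
  · exact fun m a b c h => self (hK.r_z2 _ _ _ _ h.1)
  · exact fun m a b c h => self (hK.r_z3 _ _ _ _ h.1)
  · intro a b c h1 h2 h3
    exact hK.c1 _ _ _ h1.1 h2.1 h3.1
  · intro m a b c c' h1 h2 h3 h4
    exact hK.c2 _ _ _ _ _ h1.1 h2.1 h3.1 h4.1

/-- The realisation of an amalgam. -/
theorem amalgam (hE : Emb ρ) (hH : Hom ρ) {C C0 N : Set U} (hC : Small.{0} C) (hNs : Small.{0} N)
    (h0 : C0 ⊆ C) (hN : ∀ n ∈ N, n ∉ C0) (M : Raw (↥C ⊕ ↥N)) (hM : IsK M)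
    (h1 : ∀ σ (a b c : ↥C), M σ (.inl a) (.inl b) (.inl c) ↔ ρ σ a b c)
    (h2 : ∀ σ x y z, O2 C0 x → O2 C0 y → O2 C0 z →
      (M σ x y z ↔ ρ σ (proj x) (proj y) (proj z))) :
    ∃ g : ↥C ⊕ ↥N → U, Function.Injective g ∧ (∀ c, g (.inl c) = c) ∧
      (∀ σ x y z, ρ σ (g x) (g y) (g z) ↔ M σ x y z) ∧
      ∃ e : U ≃ U, ρ.comap e = ρ ∧ (∀ c ∈ C0, e c = c) ∧
        ∀ (x : U) (hx : x ∈ N), e x = g (.inr ⟨x, hx⟩) := by
  classical
  by_cases hU : Nonempty U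
  swap
  · have hemp : IsEmpty U := not_nonempty_iff.1 hU
    exact ⟨fun x => proj x, fun x => (hU ⟨proj x⟩).elim, fun c => rfl,
      fun σ x => (hU ⟨proj x⟩).elim, Equiv.refl U, rfl, fun c => (hU ⟨c⟩).elim,
      fun x => (hU ⟨x⟩).elim⟩
  have hsm : Small.{0} (↥C ⊕ ↥N) := small_sum
  obtain ⟨g, hg1, hg2, hg3⟩ := hE (↥C ⊕ ↥N) M hM (Set.range Sum.inl) proj
    (by
      rintro _ ⟨a, rfl⟩ _ ⟨b, rfl⟩ hab
      congr 1
      exact Subtype.ext hab)
    (by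
      rintro σ _ ⟨a, rfl⟩ _ ⟨b, rfl⟩ _ ⟨c, rfl⟩
      exact (h1 σ a b c).symm)
  have hgl : ∀ c, g (.inl c) = c := fun c => hg2 ⟨c, rfl⟩
  have hg4 : ∀ σ x y z, ρ σ (g x) (g y) (g z) ↔ M σ x y z := by
    intro σ x y z
    rw [← hg3]
    rfl
  refine ⟨g, hg1, hgl, hg4, ?_⟩
  -- the automorphism
  let I := {x : ↥C ⊕ ↥N // O2 C0 x}
  have hI : Small.{0} I := small_of_injective Subtype.val_injective
  obtain ⟨e, he1, he2⟩ := hH I (fun x => proj x.1) (fun x => g x.1)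
    (fun x y => ⟨fun h => by rw [Subtype.ext (proj_inj2 hN x.2 y.2 h)],
      fun h => by rw [Subtype.ext (hg1 h)]⟩)
    (by
      funext σ x y z
      apply propext
      show ρ σ (proj x.1) (proj y.1) (proj z.1) ↔ ρ σ (g x.1) (g y.1) (g z.1)
      rw [hg4, h2 σ _ _ _ x.2 y.2 z.2])
  refine ⟨e, he2, fun c hc => ?_, fun x hx => ?_⟩
  · have := he1 ⟨.inl ⟨c, h0 hc⟩, fun _ => hc⟩
    rw [hgl] at this
    exact this
  · exact he1 ⟨.inr ⟨x, hx⟩, fun h => by simp at h⟩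

end amalg

end Pool.Agent.H78.Dom
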