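import Pool.Agent.H78.Dom.Pattern

/-!
# Finitary domination is trivial in the generic structure
-/

namespace Pool.Agent.H78.Dom

open FirstOrder FirstOrder.Language Set

/-- An infinite `d`-clique. -/
def cliqueRaw : Raw ℕ := fun σ i j k => σ = .d ∧ i ≠ j ∧ j = k

theorem isK_clique : IsK cliqueRaw := by
  constructor <;> simp [cliqueRaw] <;> tauto

/-- A set of elements of the sort `Z`. -/
def zRaw (γ : Type) : Raw γ := fun σ i j k => σ = .z ∧ i = j ∧ j = k

theorem isK_z (γ : Type) : IsK (zRaw γ) := by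
  constructor <;> simp [zRaw] <;> tauto

section
variable {U : Type 1} {ρ : Raw U}

theorem am0_inl (C C0 N : Set U) (σ : Sym) (a b c : ↥C) :
    am0 ρ C C0 N σ (.inl a) (.inl b) (.inl c) ↔ ρ σ a b c := by
  unfold am0
  exact ⟨fun h => h.1, fun h => ⟨h, Or.inl ⟨rfl, rfl, rfl⟩⟩⟩

theorem am0_O2 {C C0 N : Set U} {σ : Sym} {x y z : ↥C ⊕ ↥N} (hx : O2 C0 x) (hy : O2 C0 y)
    (hz : O2 C0 z) : am0 ρ C C0 N σ x y z ↔ ρ σ (proj x) (proj y) (proj z) := by
  unfold am0
  exact ⟨fun h => h.1, fun h => ⟨h, Or.inr ⟨hx, hy, hz⟩⟩⟩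

theorem am0_inr {C C0 N : Set U} (σ : Sym) (n : ↥N) :
    am0 ρ C C0 N σ (.inr n) (.inr n) (.inr n) ↔ ρ σ n n n := by
  have h : O2 C0 (Sum.inr n : ↥C ⊕ ↥N) := fun h => by simp at h
  exact am0_O2 h h h

theorem realise_amalg (hG : Generic ρ) {α β : Type} {A B C0 N : Set U} (hB : Small.{0} B)
    (a : α → U) (b1 : β → U) {r : Set (Set (α ⊕ β → U))}
    (hr : letI := str ρ; IsType LD A r) (hab : Realises (Sum.elim a b1) r)
    (hA0 : A ⊆ C0) (haC : ∀ i, a i ∈ C0) (h0 : C0 ⊆ B)
    (hN : ∀ n, n ∈ N ↔ n ∈ range b1 ∧ n ∉ C0) (M : Raw (↥B ⊕ ↥N)) (hM : IsK M)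
    (h1 : ∀ σ (a b c : ↥B), M σ (.inl a) (.inl b) (.inl c) ↔ ρ σ a b c)
    (h2 : ∀ σ x y z, O2 C0 x → O2 C0 y → O2 C0 z →
      (M σ x y z ↔ ρ σ (proj x) (proj y) (proj z))) :
    ∃ (b2 : β → U) (g : ↥B ⊕ ↥N → U), Realises (Sum.elim a b2) r ∧ Function.Injective g ∧
      (∀ c, g (.inl c) = c) ∧
      (∀ σ x y z, ρ σ (g x) (g y) (g z) ↔ M σ x y z) ∧
      (∀ j, b1 j ∈ C0 → b2 j = b1 j) ∧
      ∀ j (hj : b1 j ∈ N), b2 j = g (.inr ⟨b1 j, hj⟩) := by
  letI := str ρ
  have hNs : Small.{0} N := by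
    have h3 : N ⊆ range b1 := fun n hn => ((hN n).1 hn).1
    exact small_subset h3
  obtain ⟨g, hg1, hg2, hg3, e, he1, he2, he3⟩ := amalgam hG.E hG.H hB hNs h0
    (fun n hn => ((hN n).1 hn).2) M hM h1 h2
  refine ⟨fun j => e (b1 j), g, ?_, hg1, hg2, hg3, fun j hj => he2 _ hj, fun j hj => he3 _ hj⟩
  intro s hs
  have h4 := (mem_iff_aut (hr.definable s hs) (autOf e he1) (fun x hx => he2 x (hA0 hx))
    (Sum.elim a b1)).1 (hab s hs)
  convert h4 using 1
  funext i
  rcases i with i | i
  · exact (he2 _ (haC i)).symm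
  · rfl

/-- A definable set avoided by suitable realisations is not in the dominated type. -/
theorem notMem_of_avoid (hG : Generic ρ) {α β : Type} {p : Set (Set (α → U))}
    {q : Set (Set (β → U))} (hp : letI := str ρ; IsType LD univ p)
    {A E : Set U} (hA : Small.{0} A) (hE : Small.{0} E) {r : Set (Set (α ⊕ β → U))}
    (hr : letI := str ρ; IsType LD A r)
    (hpr : letI := str ρ; ∀ s ∈ restr LD p A, {c : α ⊕ β → U | c ∘ Sum.inl ∈ s} ∈ r)
    (hent : ∀ s ∈ q, ∃ s₀ ∈ p, ∃ t ∈ r, ∀ c : α ⊕ β → U, c ∘ Sum.inl ∈ s₀ → c ∈ t →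
      c ∘ Sum.inr ∈ s) (W : Set (β → U))
    (h : letI := str ρ; ∀ B : Set U, Small.{0} B → A ⊆ B → E ⊆ B → ∀ a : α → U,
      Realises a (restr LD p B) → ∀ b1 : β → U, Realises (Sum.elim a b1) r →
      ∃ b2 : β → U, Realises (Sum.elim a b2) r ∧ b2 ∉ W) : W ∉ q := by
  letI := str ρ
  have hM := isMonster hG.K hG.S hG.E hG.H hG.big
  intro hW
  obtain ⟨s₀, hs₀, t, ht, hent⟩ := hent W hW
  obtain ⟨B0, hB0, hs₀B⟩ := exists_small_definable (hp.definable s₀ hs₀)
  have hsm : Small.{0} (A ∪ E ∪ B0 : Set U) := small_union' (small_union' hA hE) hB0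
  obtain ⟨a, ha⟩ := exists_realises hM hp hsm
  obtain ⟨c0, hc0⟩ := exists_realises' hM hr hA
  have hAB : A ⊆ A ∪ E ∪ B0 := subset_union_left.trans subset_union_left
  have h1 : Realises (c0 ∘ Sum.inl) (restr LD p A) := fun s hs => hc0 _ (hpr s hs)
  obtain ⟨e, he1, he2⟩ := exists_aut hM hp hA h1 (ha.mono hAB)
  have h2 : Realises (Sum.elim a (fun j => e (c0 (Sum.inr j)))) r := by
    intro s hs
    have h3 := (mem_iff_aut (hr.definable s hs) e he1 c0).1 (hc0 s hs)
    convert h3 using 1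
    funext i
    rcases i with i | i
    · exact (he2 i).symm
    · rfl
  obtain ⟨b2, hb2, hb2W⟩ := h _ hsm hAB (subset_union_right.trans subset_union_left) a ha _ h2
  apply hb2W
  have h3 := hent (Sum.elim a b2) (by
    have : Sum.elim a b2 ∘ Sum.inl = a := rfl
    rw [this]
    exact ha s₀ ⟨hs₀, hs₀B.mono subset_union_right⟩) (hb2 t ht)
  exact h3

/-- Trivial domination. -/
theorem trivial_dom (hG : Generic ρ) {α β : Type} [Finite α] {p : Set (Set (α → U))}
    {q : Set (Set (β → U))} (hp : letI := str ρ; IsType LD univ p)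
    (hq : letI := str ρ; IsType LD univ q)
    {A : Set U} (hA : Small.{0} A) {r : Set (Set (α ⊕ β → U))}
    (hr : letI := str ρ; IsType LD A r)
    (hpr : letI := str ρ; ∀ s ∈ restr LD p A, {c : α ⊕ β → U | c ∘ Sum.inl ∈ s} ∈ r)
    (hent : ∀ s ∈ q, ∃ s₀ ∈ p, ∃ t ∈ r, ∀ c : α ⊕ β → U, c ∘ Sum.inl ∈ s₀ → c ∈ t →
      c ∘ Sum.inr ∈ s) (j : β) :
    (∃ i : α, {c : α ⊕ β → U | c (.inr j) = c (.inl i)} ∈ r) ∨
      ∃ a ∈ A, {c : α ⊕ β → U | c (.inr j) = a} ∈ r := by
  classical
  letI := str ρ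
  by_contra hcon
  push Not at hcon
  obtain ⟨hc1, hc2⟩ := hcon
  have hd1 : ∀ i : α, A.Definable LD {c : α ⊕ β → U | c (.inr j) = c (.inl i)} := fun i =>
    definable_eq (ρ := ρ) A (Sum.inr (Sum.inr j)) (Sum.inr (Sum.inl i))
  have hd2 : ∀ a ∈ A, A.Definable LD {c : α ⊕ β → U | c (.inr j) = a} := fun a ha =>
    definable_eq (ρ := ρ) A (Sum.inr (Sum.inr j)) (Sum.inl ⟨a, ha⟩)
  -- the set of realised coordinates of `p`
  let P0 : Set U := {u | ∃ i : α, {c : α → U | c i = u} ∈ p}
  have hP0 : Small.{0} P0 := by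
    by_cases hU : Nonempty U
    swap
    · have : IsEmpty U := not_nonempty_iff.1 hU
      infer_instance
    let f : α → U := fun i => if h : ∃ u, {c : α → U | c i = u} ∈ p then h.choose
      else Classical.choice hU
    have h1 : P0 ⊆ range f := by
      rintro u ⟨i, hi⟩
      refine ⟨i, ?_⟩
      have hex : ∃ u, {c : α → U | c i = u} ∈ p := ⟨u, hi⟩
      have h2 : f i = hex.choose := dif_pos hex
      rw [h2]
      obtain ⟨c, hc⟩ := hp.consistent {{c : α → U | c i = u}, {c : α → U | c i = hex.choose}} (by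
        intro s hs
        rcases Finset.mem_insert.1 hs with rfl | hs
        · exact hi
        · rw [Finset.mem_singleton.1 hs]; exact hex.choose_spec)
      have h3 : c i = u := hc {c : α → U | c i = u} (by simp)
      have h4 : c i = hex.choose := hc {c : α → U | c i = hex.choose} (by simp)
      rw [← h3, h4]
    exact small_subset h1
  let A' : Set U := A ∪ P0
  have hA' : Small.{0} A' := small_union' hA hP0
  -- realisations of `p` avoid the elements outside `A'`
  have havoid : ∀ (B : Set U) (a : α → U), Realises a (restr LD p B) → ∀ u ∈ B, u ∉ A' →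
      u ∉ A ∪ range a := by
    intro B a ha u hu hu'
    rintro (h1 | ⟨i, rfl⟩)
    · exact hu' (Or.inl h1)
    · apply hu'
      refine Or.inr ⟨i, ?_⟩
      have h1 : B.Definable LD {c : α → U | c i = a i} :=
        definable_eq (ρ := ρ) B (Sum.inr i) (Sum.inl ⟨a i, hu⟩)
      exact (hp.mem_iff ha h1).2 rfl
  -- facts on realisations of `r`
  have hfact : ∀ (a : α → U) (b1 : β → U), Realises (Sum.elim a b1) r →
      b1 j ∉ A ∪ range a := by
    intro a b1 h
    rintro (h1 | ⟨i, hi⟩)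
    · have h2 := (hr.compl_iff (hd2 _ h1)).2 (hc2 _ h1)
      exact h _ h2 rfl
    · have h2 := (hr.compl_iff (hd1 i)).2 (hc1 i)
      exact h _ h2 hi.symm
  -- sorts
  have hdy : A.Definable LD {c : α ⊕ β → U | ρ .y (c (.inr j)) (c (.inr j)) (c (.inr j))} :=
    definable_rel (ρ := ρ) A .y (fun _ => Sum.inr (Sum.inr j))
  have hdz : A.Definable LD {c : α ⊕ β → U | ρ .z (c (.inr j)) (c (.inr j)) (c (.inr j))} :=
    definable_rel (ρ := ρ) A .z (fun _ => Sum.inr (Sum.inr j))
  -- generic elements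
  obtain ⟨x, hx⟩ := exists_pat hG (isScheme_sum hG.K isK_clique) hA'
  have hxrel : ∀ σ k, ρ σ (x k) (x k) (x k) ↔ cliqueRaw σ k k k := fun σ k =>
    hx.2 σ (.inr k) (.inr k) (.inr k)
  have hxy : ∀ k, ¬ ρ .y (x k) (x k) (x k) := fun k h => by
    have := (hxrel _ k).1 h
    simp [cliqueRaw] at this
  have hxz : ∀ k, ¬ ρ .z (x k) (x k) (x k) := fun k h => by
    have := (hxrel _ k).1 h
    simp [cliqueRaw] at this
  have hxd : ∀ k l, k ≠ l → ρ .d (x k) (x l) (x l) := fun k l hkl =>
    (hx.2 .d (.inr k) (.inr l) (.inr l)).2 ⟨rfl, hkl, rfl⟩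
  have hxl : ∀ a ∈ A', ∀ k, ¬ ρ .l a (x k) (x k) := by
    intro a ha k h
    exact (hx.2 .l (.inl ⟨a, ha⟩) (.inr k) (.inr k)).1 h
  have hxm : ∀ k, x k ∉ A' := hx.notMem
  obtain ⟨z, hz⟩ := exists_pat hG (isScheme_sum hG.K (isK_z Bool)) hA'
  have hzz : ∀ k, ρ .z (z k) (z k) (z k) := fun k =>
    (hz.2 .z (.inr k) (.inr k) (.inr k)).2 ⟨rfl, rfl, rfl⟩
  have hzm : ∀ k, z k ∉ A' := hz.notMem
  have hzt : ∀ a ∈ A', ∀ k l, ¬ ρ .t a (z k) (z l) := by
    intro a ha k l h
    exact (hz.2 .t (.inl ⟨a, ha⟩) (.inr k) (.inr l)).1 h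
  -- the three cases
  rcases hr.complete _ hdy with hY | hY
  · -- sort `Y`
    obtain ⟨m, hm⟩ : ∃ m : ℕ, ∀ i : α, {c : α → U | ρ (.p m) (c i) (c i) (c i)} ∉ p := by
      by_contra hcon
      push Not at hcon
      choose f hf using hcon
      obtain ⟨m, n, hmn, hfmn⟩ := Finite.exists_ne_map_eq_of_infinite f
      obtain ⟨c, hc⟩ := hp.consistent {{c : α → U | ρ (.p m) (c (f m)) (c (f m)) (c (f m))},
        {c : α → U | ρ (.p n) (c (f n)) (c (f n)) (c (f n))}} (by
        intro s hs
        rcases Finset.mem_insert.1 hs with rfl | hs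
        · exact hf m
        · rw [Finset.mem_singleton.1 hs]; exact hf n)
      have h3 : ρ (.p m) (c (f m)) (c (f m)) (c (f m)) :=
        hc {c : α → U | ρ (.p m) (c (f m)) (c (f m)) (c (f m))} (by simp)
      have h4 : ρ (.p n) (c (f n)) (c (f n)) (c (f n)) :=
        hc {c : α → U | ρ (.p n) (c (f n)) (c (f n)) (c (f n))} (by simp)
      rw [← hfmn] at h4
      exact hmn (hG.K.pp _ _ _ h3 h4)
    let W : Set (β → U) := {b | ρ (.r m) (b j) (z true) (z false)}
    have hWd : (univ : Set U).Definable LD W :=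
      definable_rel (ρ := ρ) univ (.r m) ![Sum.inr j, Sum.inl ⟨z true, mem_univ _⟩,
        Sum.inl ⟨z false, mem_univ _⟩]
    have hE : Small.{0} ({z true, z false} : Set U) := by infer_instance
    rcases hq.complete W hWd with hW | hW
    · refine notMem_of_avoid hG hp hA hE hr hpr hent W ?_ hW
      intro B hB hAB hEB a ha b1 hab
      have hz1 := havoid B a ha (z true) (hEB (by simp)) (hzm true)
      have hBs : Small.{0} (B ∪ range a : Set U) := small_union' hB (small_range a)
      obtain ⟨b2, g, h1, h2, h3, h4, h5, h6⟩ := realise_amalg hG hBs a b1 hr hab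
        (C0 := A ∪ range a) (N := {x | x ∈ range b1 ∧ x ∉ A ∪ range a})
        subset_union_left (fun i => Or.inr ⟨i, rfl⟩) (union_subset_union_left _ hAB)
        (fun n => Iff.rfl) (am0 ρ (B ∪ range a) (A ∪ range a) _)
        (isK_am0 hG.K _ _ _ fun n hn => hn.2) (am0_inl _ _ _) (fun σ x y z => am0_O2)
      refine ⟨b2, h1, ?_⟩
      intro (hW' : ρ (.r m) (b2 j) (z true) (z false))
      have hjN : b1 j ∈ {x | x ∈ range b1 ∧ x ∉ A ∪ range a} := ⟨⟨j, rfl⟩, hfact a b1 hab⟩
      have e1 := h3 ⟨z true, Or.inl (hEB (by simp))⟩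
      have e2 := h3 ⟨z false, Or.inl (hEB (by simp))⟩
      simp only at e1 e2
      have hW'' : ρ (.r m) (g (.inr ⟨b1 j, hjN⟩)) (g (.inl ⟨z true, Or.inl (hEB (by simp))⟩))
          (g (.inl ⟨z false, Or.inl (hEB (by simp))⟩)) := by
        rw [e1, e2, ← h6 j hjN]
        exact hW'
      rw [h4] at hW''
      rcases hW''.2 with ⟨h7, -⟩ | ⟨-, h7, -⟩
      · simp [O1] at h7
      · exact hz1 (h7 rfl)
    · refine notMem_of_avoid hG hp hA hE hr hpr hent Wᶜ ?_ hW
      intro B hB hAB hEB a ha b1 hab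
      have hz1 := havoid B a ha (z true) (hEB (by simp)) (hzm true)
      have hz2 := havoid B a ha (z false) (hEB (by simp)) (hzm false)
      have hBs : Small.{0} (B ∪ range a : Set U) := small_union' hB (small_range a)
      have hjN : b1 j ∈ {x | x ∈ range b1 ∧ x ∉ A ∪ range a} := ⟨⟨j, rfl⟩, hfact a b1 hab⟩
      have hKam := isK_am0 hG.K (B ∪ range a) (A ∪ range a)
        {x | x ∈ range b1 ∧ x ∉ A ∪ range a} fun n hn => hn.2
      have hyb : ρ .y (b1 j) (b1 j) (b1 j) := hab _ hY
      obtain ⟨b2, g, h1, h2, h3, h4, h5, h6⟩ := realise_amalg hG hBs a b1 hr hab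
        (C0 := A ∪ range a) (N := {x | x ∈ range b1 ∧ x ∉ A ∪ range a})
        subset_union_left (fun i => Or.inr ⟨i, rfl⟩) (union_subset_union_left _ hAB)
        (fun n => Iff.rfl)
        (addTriple (am0 ρ (B ∪ range a) (A ∪ range a) _) (.r m) (.inr ⟨b1 j, hjN⟩)
          (.inl ⟨z true, Or.inl (hEB (by simp))⟩) (.inl ⟨z false, Or.inl (hEB (by simp))⟩))
        (by
          refine isK_addR hKam _ _ _ _ ?_ ?_ ?_ ?_
          · exact (am0_inr _ _).2 hyb
          · exact (am0_inl _ _ _ _ _ _ _).2 (hzz true)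
          · exact (am0_inl _ _ _ _ _ _ _).2 (hzz false)
          · intro b h7 h8 h9
            have hb1 : O1 b := by
              rcases h9.2 with ⟨h10, -⟩ | ⟨-, h10, -⟩
              · exact h10
              · exact absurd (h10 rfl) hz1
            have hb2 : O2 (A ∪ range a) b := by
              rcases h7.2 with ⟨h10, -⟩ | ⟨-, h10, -⟩
              · simp [O1] at h10
              · exact h10
            have hb3 : proj b ∈ A ∪ range a := hb2 hb1
            rcases hb3 with hb3 | ⟨i, hi⟩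
            · exact hzt _ (Or.inl hb3) true false h9.1
            · apply hm i
              have hd : B.Definable LD {c : α → U | ρ (.p m) (c i) (c i) (c i)} :=
                definable_rel (ρ := ρ) B (.p m) (fun _ => Sum.inr i)
              have h11 : ρ (.p m) (a i) (a i) (a i) := by
                have := h8.1
                rw [← hi] at this
                exact this
              exact (hp.mem_iff ha hd).2 h11)
        (by
          intro σ a b c
          simp [addTriple, am0_inl])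
        (by
          intro σ x y w hx hy hw
          simp only [addTriple]
          rw [am0_O2 hx hy hw]
          constructor
          · rintro (h7 | ⟨-, -, rfl, -⟩)
            · exact h7
            · exact absurd (hy rfl) hz1
          · exact Or.inl)
      refine ⟨b2, h1, ?_⟩
      intro (hW' : ¬ ρ (.r m) (b2 j) (z true) (z false))
      apply hW'
      have e1 := h3 ⟨z true, Or.inl (hEB (by simp))⟩
      have e2 := h3 ⟨z false, Or.inl (hEB (by simp))⟩
      simp only at e1 e2
      have hW'' : ρ (.r m) (g (.inr ⟨b1 j, hjN⟩)) (g (.inl ⟨z true, Or.inl (hEB (by simp))⟩))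
          (g (.inl ⟨z false, Or.inl (hEB (by simp))⟩)) :=
        (h4 _ _ _ _).2 (Or.inr ⟨rfl, rfl, rfl, rfl⟩)
      rw [e1, e2, ← h6 j hjN] at hW''
      exact hW''
  rcases hr.complete _ hdz with hZ | hZ
  · -- sort `Z`
    let W : Set (β → U) := {b | ρ .t (x 0) (b j) (z false)}
    have hWd : (univ : Set U).Definable LD W :=
      definable_rel (ρ := ρ) univ .t ![Sum.inl ⟨x 0, mem_univ _⟩, Sum.inr j,
        Sum.inl ⟨z false, mem_univ _⟩]
    have hE : Small.{0} ({x 0, z false} : Set U) := by infer_instance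
    rcases hq.complete W hWd with hW | hW
    · refine notMem_of_avoid hG hp hA hE hr hpr hent W ?_ hW
      intro B hB hAB hEB a ha b1 hab
      have hz1 := havoid B a ha (z false) (hEB (by simp)) (hzm false)
      have hBs : Small.{0} (B ∪ range a : Set U) := small_union' hB (small_range a)
      obtain ⟨b2, g, h1, h2, h3, h4, h5, h6⟩ := realise_amalg hG hBs a b1 hr hab
        (C0 := A ∪ range a) (N := {x | x ∈ range b1 ∧ x ∉ A ∪ range a})
        subset_union_left (fun i => Or.inr ⟨i, rfl⟩) (union_subset_union_left _ hAB)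
        (fun n => Iff.rfl) (am0 ρ (B ∪ range a) (A ∪ range a) _)
        (isK_am0 hG.K _ _ _ fun n hn => hn.2) (am0_inl _ _ _) (fun σ x y z => am0_O2)
      refine ⟨b2, h1, ?_⟩
      intro (hW' : ρ .t (x 0) (b2 j) (z false))
      have hjN : b1 j ∈ {x | x ∈ range b1 ∧ x ∉ A ∪ range a} := ⟨⟨j, rfl⟩, hfact a b1 hab⟩
      have e1 := h3 ⟨x 0, Or.inl (hEB (by simp))⟩
      have e2 := h3 ⟨z false, Or.inl (hEB (by simp))⟩
      simp only at e1 e2
      have hW'' : ρ .t (g (.inl ⟨x 0, Or.inl (hEB (by simp))⟩)) (g (.inr ⟨b1 j, hjN⟩))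
          (g (.inl ⟨z false, Or.inl (hEB (by simp))⟩)) := by
        rw [e1, e2, ← h6 j hjN]
        exact hW'
      rw [h4] at hW''
      rcases hW''.2 with ⟨-, h7, -⟩ | ⟨-, -, h7⟩
      · simp [O1] at h7
      · exact hz1 (h7 rfl)
    · refine notMem_of_avoid hG hp hA hE hr hpr hent Wᶜ ?_ hW
      intro B hB hAB hEB a ha b1 hab
      have hx1 := havoid B a ha (x 0) (hEB (by simp)) (hxm 0)
      have hz2 := havoid B a ha (z false) (hEB (by simp)) (hzm false)
      have hBs : Small.{0} (B ∪ range a : Set U) := small_union' hB (small_range a)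
      have hjN : b1 j ∈ {x | x ∈ range b1 ∧ x ∉ A ∪ range a} := ⟨⟨j, rfl⟩, hfact a b1 hab⟩
      have hKam := isK_am0 hG.K (B ∪ range a) (A ∪ range a)
        {x | x ∈ range b1 ∧ x ∉ A ∪ range a} fun n hn => hn.2
      have hzb : ρ .z (b1 j) (b1 j) (b1 j) := hab _ hZ
      obtain ⟨b2, g, h1, h2, h3, h4, h5, h6⟩ := realise_amalg hG hBs a b1 hr hab
        (C0 := A ∪ range a) (N := {x | x ∈ range b1 ∧ x ∉ A ∪ range a})
        subset_union_left (fun i => Or.inr ⟨i, rfl⟩) (union_subset_union_left _ hAB)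
        (fun n => Iff.rfl)
        (addTriple (am0 ρ (B ∪ range a) (A ∪ range a) _) .t
          (.inl ⟨x 0, Or.inl (hEB (by simp))⟩) (.inr ⟨b1 j, hjN⟩)
          (.inl ⟨z false, Or.inl (hEB (by simp))⟩))
        (by
          refine isK_addT hKam _ _ _ ?_ ?_ ?_ ?_ ?_
          · rw [am0_inl]
            exact hxy 0
          · rw [am0_inl]
            exact hxz 0
          · exact (am0_inr _ _).2 hzb
          · exact (am0_inl _ _ _ _ _ _ _).2 (hzz false)
          · intro m b h9
            rcases h9.2 with ⟨-, h10, -⟩ | ⟨-, -, h10⟩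
            · simp [O1] at h10
            · exact hz2 (h10 rfl))
        (by
          intro σ a b c
          simp [addTriple, am0_inl])
        (by
          intro σ x y w hx hy hw
          simp only [addTriple]
          rw [am0_O2 hx hy hw]
          constructor
          · rintro (h7 | ⟨-, rfl, -, -⟩)
            · exact h7
            · exact absurd (hx rfl) hx1
          · exact Or.inl)
      refine ⟨b2, h1, ?_⟩
      intro (hW' : ¬ ρ .t (x 0) (b2 j) (z false))
      apply hW'
      have e1 := h3 ⟨x 0, Or.inl (hEB (by simp))⟩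
      have e2 := h3 ⟨z false, Or.inl (hEB (by simp))⟩
      simp only at e1 e2
      have hW'' : ρ .t (g (.inl ⟨x 0, Or.inl (hEB (by simp))⟩)) (g (.inr ⟨b1 j, hjN⟩))
          (g (.inl ⟨z false, Or.inl (hEB (by simp))⟩)) :=
        (h4 _ _ _ _).2 (Or.inr ⟨rfl, rfl, rfl, rfl⟩)
      rw [e1, e2, ← h6 j hjN] at hW''
      exact hW''
  · -- sort `X`
    obtain ⟨k, hk⟩ : ∃ k : ℕ, ∀ i : α, {c : α → U | ρ .l (c i) (x k) (x k)} ∉ p := by
      by_contra hcon
      push Not at hcon
      choose f hf using hcon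
      obtain ⟨m, n, hmn, hfmn⟩ := Finite.exists_ne_map_eq_of_infinite f
      obtain ⟨c, hc⟩ := hp.consistent {{c : α → U | ρ .l (c (f m)) (x m) (x m)},
        {c : α → U | ρ .l (c (f n)) (x n) (x n)}} (by
        intro s hs
        rcases Finset.mem_insert.1 hs with rfl | hs
        · exact hf m
        · rw [Finset.mem_singleton.1 hs]; exact hf n)
      have h3 : ρ .l (c (f m)) (x m) (x m) :=
        hc {c : α → U | ρ .l (c (f m)) (x m) (x m)} (by simp)
      have h4 : ρ .l (c (f n)) (x n) (x n) :=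
        hc {c : α → U | ρ .l (c (f n)) (x n) (x n)} (by simp)
      rw [← hfmn] at h4
      exact hG.K.c1 _ _ _ h3 h4 (hxd m n hmn)
    let W : Set (β → U) := {b | ρ .d (b j) (x k) (x k)}
    have hWd : (univ : Set U).Definable LD W :=
      definable_rel (ρ := ρ) univ .d ![Sum.inr j, Sum.inl ⟨x k, mem_univ _⟩,
        Sum.inl ⟨x k, mem_univ _⟩]
    have hE : Small.{0} ({x k} : Set U) := by infer_instance
    rcases hq.complete W hWd with hW | hW
    · refine notMem_of_avoid hG hp hA hE hr hpr hent W ?_ hW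
      intro B hB hAB hEB a ha b1 hab
      have hx1 := havoid B a ha (x k) (hEB (by simp)) (hxm k)
      have hBs : Small.{0} (B ∪ range a : Set U) := small_union' hB (small_range a)
      obtain ⟨b2, g, h1, h2, h3, h4, h5, h6⟩ := realise_amalg hG hBs a b1 hr hab
        (C0 := A ∪ range a) (N := {x | x ∈ range b1 ∧ x ∉ A ∪ range a})
        subset_union_left (fun i => Or.inr ⟨i, rfl⟩) (union_subset_union_left _ hAB)
        (fun n => Iff.rfl) (am0 ρ (B ∪ range a) (A ∪ range a) _)
        (isK_am0 hG.K _ _ _ fun n hn => hn.2) (am0_inl _ _ _) (fun σ x y z => am0_O2)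
      refine ⟨b2, h1, ?_⟩
      intro (hW' : ρ .d (b2 j) (x k) (x k))
      have hjN : b1 j ∈ {x | x ∈ range b1 ∧ x ∉ A ∪ range a} := ⟨⟨j, rfl⟩, hfact a b1 hab⟩
      have e1 := h3 ⟨x k, Or.inl (hEB (by simp))⟩
      simp only at e1
      rw [h6 j hjN, ← e1, h4] at hW'
      rcases hW'.2 with ⟨h7, -⟩ | ⟨-, h7, -⟩
      · simp [O1] at h7
      · exact hx1 (h7 rfl)
    · refine notMem_of_avoid hG hp hA hE hr hpr hent Wᶜ ?_ hW
      intro B hB hAB hEB a ha b1 hab
      have hx1 := havoid B a ha (x k) (hEB (by simp)) (hxm k)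
      have hBs : Small.{0} (B ∪ range a : Set U) := small_union' hB (small_range a)
      have hjN : b1 j ∈ {x | x ∈ range b1 ∧ x ∉ A ∪ range a} := ⟨⟨j, rfl⟩, hfact a b1 hab⟩
      have hKam := isK_am0 hG.K (B ∪ range a) (A ∪ range a)
        {x | x ∈ range b1 ∧ x ∉ A ∪ range a} fun n hn => hn.2
      have hyb : ¬ ρ .y (b1 j) (b1 j) (b1 j) := hab _ hY
      have hzb : ¬ ρ .z (b1 j) (b1 j) (b1 j) := hab _ hZ
      obtain ⟨b2, g, h1, h2, h3, h4, h5, h6⟩ := realise_amalg hG hBs a b1 hr hab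
        (C0 := A ∪ range a) (N := {x | x ∈ range b1 ∧ x ∉ A ∪ range a})
        subset_union_left (fun i => Or.inr ⟨i, rfl⟩) (union_subset_union_left _ hAB)
        (fun n => Iff.rfl)
        (addTriple (addTriple (am0 ρ (B ∪ range a) (A ∪ range a) _) .d (.inr ⟨b1 j, hjN⟩)
          (.inl ⟨x k, Or.inl (hEB (by simp))⟩) (.inl ⟨x k, Or.inl (hEB (by simp))⟩)) .d
          (.inl ⟨x k, Or.inl (hEB (by simp))⟩) (.inr ⟨b1 j, hjN⟩) (.inr ⟨b1 j, hjN⟩))
        (by
          refine isK_addD hKam _ _ (by simp) ?_ ?_ ?_ ?_ ?_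
          · rw [am0_inr]; exact hyb
          · rw [am0_inr]; exact hzb
          · rw [am0_inl]; exact hxy k
          · rw [am0_inl]; exact hxz k
          · intro b h7 h9
            have hb1 : O1 b := by
              rcases h9.2 with ⟨h10, -⟩ | ⟨-, h10, -⟩
              · exact h10
              · exact absurd (h10 rfl) hx1
            have hb2 : O2 (A ∪ range a) b := by
              rcases h7.2 with ⟨-, h10, -⟩ | ⟨h10, -⟩
              · simp [O1] at h10
              · exact h10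
            have hb3 : proj b ∈ A ∪ range a := hb2 hb1
            rcases hb3 with hb3 | ⟨i, hi⟩
            · exact hxl _ (Or.inl hb3) k h9.1
            · apply hk i
              have hd : B.Definable LD {c : α → U | ρ .l (c i) (x k) (x k)} :=
                definable_rel (ρ := ρ) B .l ![Sum.inr i, Sum.inl ⟨x k, hEB (by simp)⟩,
                  Sum.inl ⟨x k, hEB (by simp)⟩]
              have h11 : ρ .l (a i) (x k) (x k) := by
                have := h9.1
                rw [← hi] at this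
                exact this
              exact (hp.mem_iff ha hd).2 h11)
        (by
          intro σ a b c
          simp [addTriple, am0_inl])
        (by
          intro σ x y w hx hy hw
          simp only [addTriple]
          rw [am0_O2 hx hy hw]
          constructor
          · rintro ((h7 | ⟨-, -, rfl, -⟩) | ⟨-, rfl, -, -⟩)
            · exact h7
            · exact absurd (hy rfl) hx1
            · exact absurd (hx rfl) hx1
          · exact fun h => Or.inl (Or.inl h))
      refine ⟨b2, h1, ?_⟩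
      intro (hW' : ¬ ρ .d (b2 j) (x k) (x k))
      apply hW'
      have e1 := h3 ⟨x k, Or.inl (hEB (by simp))⟩
      simp only at e1
      rw [h6 j hjN, ← e1, h4]
      exact Or.inl (Or.inr ⟨rfl, rfl, rfl, rfl⟩)

/-- The product respects domination on finitary types. -/
theorem respects_finitary (hG : Generic ρ) :
    letI := str ρ; Respects LD U (fun α => Finite α) := by
  classical
  letI := str ρ
  have hM := isMonster hG.K hG.S hG.E hG.H hG.big
  refine respects_of_push hM _ (fun α h => h) ?_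
  intro α β hα hβ p q hp hq ⟨A, hA, hpA, hqA, r, hr, hpr, hqr, hent⟩
  refine ⟨A, hA, hpA, hqA, ?_⟩
  have htriv : ∀ j : β, ∃ x : ↥A ⊕ α,
      {c : α ⊕ β → U | c (.inr j) = Sum.elim (fun a : ↥A => (a : U)) (c ∘ Sum.inl) x} ∈ r := by
    intro j
    rcases trivial_dom hG hp.1 hq.1 hA hr hpr hent j with ⟨i, hi⟩ | ⟨a, ha, hi⟩
    · exact ⟨.inr i, hi⟩
    · exact ⟨.inl ⟨a, ha⟩, hi⟩
  choose g hg using htriv
  have hfwd : ∀ s : Set (β → U), s ∈ q →
      {c : α → U | (fun j => Sum.elim (fun a : ↥A => (a : U)) c (g j)) ∈ s} ∈ p := by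
    intro s hs
    have hsd := hq.1.definable s hs
    have hSd : (univ : Set U).Definable LD
        {c : α → U | (fun j => Sum.elim (fun a : ↥A => (a : U)) c (g j)) ∈ s} := by
      have h1 := definable_push (A := univ) hsd (subset_univ _)
        (fun j => Sum.map (fun a : ↥A => (⟨a, mem_univ _⟩ : ↥(univ : Set U))) id (g j))
      convert h1 using 1
      ext c
      simp only [mem_ofPred_eq]
      apply iff_of_eq
      congr 1
      funext j
      rcases g j with a | i <;> rfl
    by_contra hcon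
    have hcomp := (hp.1.compl_iff hSd).2 hcon
    obtain ⟨s₀, hs₀, t, ht, hent'⟩ := hent s hs
    obtain ⟨B0, hB0, hs₀B⟩ := exists_small_definable (hp.1.definable s₀ hs₀)
    obtain ⟨B1, hB1, hSB⟩ := exists_small_definable hSd
    have hsm : Small.{0} (A ∪ B0 ∪ B1 : Set U) := small_union' (small_union' hA hB0) hB1
    obtain ⟨a, ha⟩ := exists_realises hM hp.1 hsm
    obtain ⟨c0, hc0⟩ := exists_realises' hM hr hA
    have hAB : A ⊆ A ∪ B0 ∪ B1 := subset_union_left.trans subset_union_left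
    have h1 : Realises (c0 ∘ Sum.inl) (restr LD p A) := fun s hs => hc0 _ (hpr s hs)
    obtain ⟨e, he1, he2⟩ := exists_aut hM hp.1 hA h1 (ha.mono hAB)
    have h2 : Realises (Sum.elim a (fun j => e (c0 (Sum.inr j)))) r := by
      intro s hs
      have h3 := (mem_iff_aut (hr.definable s hs) e he1 c0).1 (hc0 s hs)
      convert h3 using 1
      funext i
      rcases i with i | i
      · exact (he2 i).symm
      · rfl
    have h3 := hent' (Sum.elim a (fun j => e (c0 (Sum.inr j))))
      (ha s₀ ⟨hs₀, hs₀B.mono (subset_union_right.trans subset_union_left)⟩) (h2 t ht)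
    have h4 := ha _ ⟨hcomp, (hSB.mono subset_union_right).compl⟩
    apply h4
    have h5 : (fun j => Sum.elim (fun a : ↥A => (a : U)) a (g j)) =
        (Sum.elim a (fun j => e (c0 (Sum.inr j)))) ∘ Sum.inr := by
      funext j
      have h6 := h2 _ (hg j)
      exact h6.symm
    show (fun j => Sum.elim (fun a : ↥A => (a : U)) a (g j)) ∈ s
    rw [h5]
    exact h3
  refine ⟨g, fun s => ⟨fun hs => ⟨hq.1.definable s hs, hfwd s hs⟩, ?_⟩⟩
  rintro ⟨hsd, hs⟩
  by_contra hcon
  have h1 := (hq.1.compl_iff hsd).2 hcon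
  have h2 := hfwd _ h1
  obtain ⟨c, hc⟩ := hp.1.consistent
    {{c : α → U | (fun j => Sum.elim (fun a : ↥A => (a : U)) c (g j)) ∈ s},
      {c : α → U | (fun j => Sum.elim (fun a : ↥A => (a : U)) c (g j)) ∈ sᶜ}} (by
    intro t ht
    rcases Finset.mem_insert.1 ht with rfl | ht
    · exact hs
    · rw [Finset.mem_singleton.1 ht]; exact h2)
  have h3 := hc {c : α → U | (fun j => Sum.elim (fun a : ↥A => (a : U)) c (g j)) ∈ s} (by simp)
  have h4 := hc {c : α → U | (fun j => Sum.elim (fun a : ↥A => (a : U)) c (g j)) ∈ sᶜ} (by simp)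
  exact h4 h3

end

end Pool.Agent.H78.Dom
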