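import Pool.Agent.H78.Dom.Types

/-!
# General facts on invariant types in a monster model
-/

namespace Pool.Agent.H78.Dom

open FirstOrder FirstOrder.Language Set

section
variable {L : FirstOrder.Language.{0, 0}} {U : Type 1} [L.Structure U] {α β γ : Type}

theorem mem_iff_aut {A : Set U} {s : Set (α → U)} (hs : A.Definable L s) (e : U ≃[L] U)
    (he : ∀ a ∈ A, e a = a) (c : α → U) : c ∈ s ↔ (fun i => e (c i)) ∈ s := by
  rw [definable_iff_exists_formula_sum] at hs
  obtain ⟨φ, rfl⟩ := hs
  simp only [mem_ofPred_eq]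
  rw [← StrongHomClass.realize_formula e φ]
  apply iff_of_eq
  congr 1
  funext i
  rcases i with a | i
  · exact (he a a.2)
  · rfl

theorem symm_fix {A : Set U} (e : U ≃[L] U) (he : ∀ a ∈ A, e a = a) : ∀ a ∈ A, e.symm a = a := by
  intro a ha
  have := congrArg e.symm (he a ha)
  rw [e.symm_apply_apply] at this
  exact this.symm

theorem definable_subst {A B : Set U} {s : Set (γ ⊕ β → U)} (hs : B.Definable L s) (hBA : B ⊆ A)
    (a : γ → U) (ha : ∀ i, a i ∈ A) : A.Definable L {c : β → U | Sum.elim a c ∈ s} := by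
  rw [definable_iff_exists_formula_sum] at hs ⊢
  obtain ⟨φ, rfl⟩ := hs
  refine ⟨φ.relabel (Sum.elim (fun b : ↥B => Sum.inl ⟨b, hBA b.2⟩)
    (Sum.elim (fun i => Sum.inl ⟨a i, ha i⟩) Sum.inr)), ?_⟩
  ext c
  simp only [mem_ofPred_eq, Formula.realize_relabel]
  apply iff_of_eq
  congr 1
  funext i
  rcases i with b | i | i <;> rfl

/-- Substituting variables and parameters for variables. -/
theorem definable_push {A B : Set U} {s : Set (β → U)} (hs : B.Definable L s) (hBA : B ⊆ A)
    (g : β → ↥A ⊕ α) :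
    A.Definable L {c : α → U | (fun j => Sum.elim (fun a : ↥A => (a : U)) c (g j)) ∈ s} := by
  rw [definable_iff_exists_formula_sum] at hs ⊢
  obtain ⟨φ, rfl⟩ := hs
  refine ⟨φ.relabel (Sum.elim (fun b : ↥B => Sum.inl ⟨b, hBA b.2⟩) g), ?_⟩
  ext c
  simp only [mem_ofPred_eq, Formula.realize_relabel]
  apply iff_of_eq
  congr 1
  funext i
  rcases i with b | i <;> rfl

theorem definable_image_aut {A : Set U} {s : Set (α → U)} (hs : A.Definable L s) (e : U ≃[L] U) :
    (e '' A).Definable L {c : α → U | (fun i => e.symm (c i)) ∈ s} := by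
  rw [definable_iff_exists_formula_sum] at hs ⊢
  obtain ⟨φ, rfl⟩ := hs
  refine ⟨φ.relabel (Sum.map (fun b : ↥A => ⟨e b, mem_image_of_mem _ b.2⟩) id), ?_⟩
  ext c
  simp only [mem_ofPred_eq, Formula.realize_relabel]
  rw [← StrongHomClass.realize_formula e φ]
  apply iff_of_eq
  congr 1
  funext i
  rcases i with b | i
  · rfl
  · simp

theorem exists_small_definable {s : Set (α → U)} (hs : (univ : Set U).Definable L s) :
    ∃ A : Set U, Small.{0} A ∧ A.Definable L s := by
  rw [definable_iff_finitely_definable] at hs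
  obtain ⟨A0, -, h⟩ := hs
  exact ⟨A0, inferInstance, h⟩

theorem small_union' {A B : Set U} (hA : Small.{0} A) (hB : Small.{0} B) :
    Small.{0} (A ∪ B : Set U) := by
  have := hA
  have := hB
  infer_instance

theorem InvariantOver.mono {A B : Set U} {p : Set (Set (α → U))} (h : InvariantOver L A p)
    (hAB : A ⊆ B) : InvariantOver L B p :=
  fun e he s hs => h e (fun a ha => he a (hAB ha)) s hs

theorem IsType.compl_iff {A : Set U} {p : Set (Set (α → U))} (hp : IsType L A p)
    {s : Set (α → U)} (hs : A.Definable L s) : sᶜ ∈ p ↔ s ∉ p := by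
  constructor
  · intro h1 h2
    classical
    obtain ⟨c, hc⟩ := hp.consistent {s, sᶜ} (by
      intro t ht
      rcases Finset.mem_insert.1 ht with rfl | ht
      · exact h2
      · rw [Finset.mem_singleton.1 ht]; exact h1)
    exact hc sᶜ (by simp) (hc s (by simp))
  · intro h
    rcases hp.complete s hs with h1 | h1
    · exact absurd h1 h
    · exact h1

theorem IsType.mono_mem {A : Set U} {p : Set (Set (α → U))} (hp : IsType L A p)
    {s t : Set (α → U)} (hs : s ∈ p) (ht : A.Definable L t) (hst : s ⊆ t) : t ∈ p := by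
  classical
  by_contra h
  have h1 : tᶜ ∈ p := (hp.compl_iff ht).2 h
  obtain ⟨c, hc⟩ := hp.consistent {s, tᶜ} (by
    intro t' ht'
    rcases Finset.mem_insert.1 ht' with rfl | ht'
    · exact hs
    · rw [Finset.mem_singleton.1 ht']; exact h1)
  exact hc tᶜ (by simp) (hst (hc s (by simp)))

theorem IsType.inter_mem {A : Set U} {p : Set (Set (α → U))} (hp : IsType L A p)
    {s t : Set (α → U)} (hs : s ∈ p) (ht : t ∈ p) : s ∩ t ∈ p := by
  classical
  by_contra h
  have h1 : (s ∩ t)ᶜ ∈ p :=
    (hp.compl_iff ((hp.definable s hs).inter (hp.definable t ht))).2 h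
  obtain ⟨c, hc⟩ := hp.consistent {s, t, (s ∩ t)ᶜ} (by
    intro t' ht'
    simp only [Finset.mem_insert, Finset.mem_singleton] at ht'
    rcases ht' with rfl | rfl | rfl
    · exact hs
    · exact ht
    · exact h1)
  exact hc (s ∩ t)ᶜ (by simp) ⟨hc s (by simp), hc t (by simp)⟩

theorem IsType.univ_mem {A : Set U} {p : Set (Set (α → U))} (hp : IsType L A p) :
    (univ : Set (α → U)) ∈ p := by
  rcases hp.complete univ definable_univ with h | h
  · exact h
  · obtain ⟨c, hc⟩ := hp.consistent {univᶜ} (by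
      intro s hs
      rw [Finset.mem_singleton.1 hs]
      exact h)
    exact absurd (mem_univ c) (hc univᶜ (Finset.mem_singleton_self _))

/-- membership of realisations -/
theorem IsType.mem_iff {p : Set (Set (α → U))} (hp : IsType L univ p) {A : Set U}
    {c : α → U} (hc : Realises c (restr L p A)) {s : Set (α → U)} (hs : A.Definable L s) :
    s ∈ p ↔ c ∈ s := by
  constructor
  · intro h
    exact hc s ⟨h, hs⟩
  · intro h
    by_contra h1
    have h2 := (hp.compl_iff (hs.mono (subset_univ A))).2 h1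
    exact hc _ ⟨h2, hs.compl⟩ h

theorem Realises.mono {p : Set (Set (α → U))} {A B : Set U} {c : α → U}
    (hc : Realises c (restr L p B)) (h : A ⊆ B) : Realises c (restr L p A) :=
  fun s hs => hc s ⟨hs.1, hs.2.mono h⟩

variable (hM : IsMonster L U)
include hM

theorem exists_realises {p : Set (Set (α → U))} (hp : IsType L univ p) {A : Set U}
    (hA : Small.{0} A) : ∃ c : α → U, Realises c (restr L p A) := by
  obtain ⟨c, hc⟩ := hM.saturated A hA α (restr L p A) (fun s hs => hs.2)
    (fun F hF => hp.consistent F fun s hs => (hF s hs).1)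
  exact ⟨c, hc⟩

theorem exists_realises' {A : Set U} {p : Set (Set (α → U))} (hp : IsType L A p)
    (hA : Small.{0} A) : ∃ c : α → U, Realises c p := by
  obtain ⟨c, hc⟩ := hM.saturated A hA α p hp.definable hp.consistent
  exact ⟨c, hc⟩

theorem exists_aut {p : Set (Set (α → U))} (hp : IsType L univ p) {A : Set U}
    (hA : Small.{0} A) {c c' : α → U} (hc : Realises c (restr L p A))
    (hc' : Realises c' (restr L p A)) :
    ∃ e : U ≃[L] U, (∀ a ∈ A, e a = a) ∧ ∀ i, e (c i) = c' i := by
  have := hA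
  let a : Shrink.{0} ↥A → U := fun x => ((equivShrink ↥A).symm x : U)
  obtain ⟨e, he⟩ := hM.homogeneous (Shrink.{0} ↥A ⊕ α) (Sum.elim a c) (Sum.elim a c') (by
    intro s hs
    have h1 : A.Definable L {d : α → U | Sum.elim a d ∈ s} :=
      definable_subst hs (empty_subset A) a (fun i => ((equivShrink ↥A).symm i).2)
    have h2 := hp.mem_iff hc h1
    have h3 := hp.mem_iff hc' h1
    exact h2.symm.trans h3)
  refine ⟨e, fun x hx => ?_, fun i => he (Sum.inr i)⟩
  have := he (Sum.inl (equivShrink ↥A ⟨x, hx⟩))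
  simpa [a] using this

/-- The product can be computed with any admissible base and realisation. -/
theorem mem_prod_iff {p : Set (Set (α → U))} {q : Set (Set (β → U))}
    (hq : IsType L univ q) {A : Set U} (hA : Small.{0} A) (hpA : InvariantOver L A p)
    {s : Set (α ⊕ β → U)} (hs : A.Definable L s) {b : β → U} (hb : Realises b (restr L q A)) :
    s ∈ prod L p q ↔ {a | Sum.elim a b ∈ s} ∈ p := by
  constructor
  · intro h
    exact h.2 A hA hpA hs b hb
  · intro h
    refine ⟨hs.mono (subset_univ A), ?_⟩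
    -- transfer along automorphisms
    have key : ∀ (A : Set U), InvariantOver L A p → A.Definable L s → Small.{0} A →
        ∀ b b' : β → U, Realises b (restr L q A) → Realises b' (restr L q A) →
        {a | Sum.elim a b ∈ s} ∈ p → {a | Sum.elim a b' ∈ s} ∈ p := by
      intro A hpA hs hA b b' hb hb' h
      obtain ⟨e, he1, he2⟩ := exists_aut hM hq hA hb hb'
      have h1 := hpA e he1 _ h
      convert h1 using 1
      ext c
      simp only [mem_ofPred_eq]
      refine Iff.trans ?_ (mem_iff_aut hs e he1 _).symm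
      apply iff_of_eq
      congr 1
      funext i
      rcases i with i | i
      · simp
      · exact (he2 i).symm
    intro A' hA' hpA' hs' b' hb'
    obtain ⟨b'', hb''⟩ := exists_realises hM hq (small_union' hA hA')
    have h1 := key A hpA hs hA b b'' hb (hb''.mono subset_union_left) h
    exact key A' hpA' hs' hA' b'' b' (hb''.mono subset_union_right) hb' h1

theorem prod_isType {p : Set (Set (α → U))} {q : Set (Set (β → U))}
    (hp : IsType L univ p) (hq : IsType L univ q) {A : Set U} (hA : Small.{0} A)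
    (hpA : InvariantOver L A p) : IsType L univ (prod L p q) := by
  classical
  refine ⟨fun s hs => hs.1, ?_, ?_⟩
  · intro F hF
    choose! B hB1 hB2 using fun (s : Set (α ⊕ β → U)) (hs : s ∈ F) =>
      exists_small_definable (hF s hs).1
    let A' : Set U := A ∪ ⋃ s : ↥F, B s
    have hsm : Small.{0} A' := by
      have h1 : Small.{0} (⋃ s : ↥F, B s : Set U) := by
        have : ∀ s : ↥F, Small.{0} (B s) := fun s => hB1 s s.2
        exact small_iUnion _
      exact small_union' hA h1
    obtain ⟨b, hb⟩ := exists_realises hM hq hsm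
    have hmem : ∀ s ∈ F, {a | Sum.elim a b ∈ s} ∈ p := by
      intro s hs
      have hdef : A'.Definable L s := (hB2 s hs).mono fun x hx =>
        Or.inr (mem_iUnion.2 ⟨⟨s, hs⟩, hx⟩)
      exact (hF s hs).2 A' hsm (hpA.mono subset_union_left) hdef b hb
    obtain ⟨a, ha⟩ := hp.consistent (F.image fun s => {a | Sum.elim a b ∈ s}) (by
      intro t ht
      obtain ⟨s, hs, rfl⟩ := Finset.mem_image.1 ht
      exact hmem s hs)
    exact ⟨Sum.elim a b, fun s hs => ha _ (Finset.mem_image_of_mem _ hs)⟩
  · intro s hs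
    obtain ⟨B, hB1, hB2⟩ := exists_small_definable hs
    obtain ⟨b, hb⟩ := exists_realises hM hq (small_union' hA hB1)
    have hdef : (A ∪ B).Definable L s := hB2.mono subset_union_right
    have h1 := mem_prod_iff hM hq (small_union' hA hB1) (hpA.mono subset_union_left) hdef hb
      (p := p)
    have h2 := mem_prod_iff hM hq (small_union' hA hB1) (hpA.mono subset_union_left)
      hdef.compl hb (p := p)
    rw [h1, h2]
    have hdef2 : (univ : Set U).Definable L {a | Sum.elim a b ∈ s} := by
      have h3 := definable_push (A := univ) hs (subset_univ _)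
        (fun i : α ⊕ β => Sum.elim (fun x => Sum.inr x) (fun y => Sum.inl ⟨b y, mem_univ _⟩) i :
          α ⊕ β → ↥(univ : Set U) ⊕ α)
      convert h3 using 1
      ext a
      simp only [mem_ofPred_eq]
      apply iff_of_eq
      congr 1
      funext i
      rcases i with i | i <;> rfl
    exact hp.complete _ hdef2

theorem prod_invariant {p : Set (Set (α → U))} {q : Set (Set (β → U))}
    (hq : IsType L univ q) {A : Set U} (hA : Small.{0} A)
    (hpA : InvariantOver L A p) (hqA : InvariantOver L A q) : InvariantOver L A (prod L p q) := by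
  intro e he s hs
  obtain ⟨B, hB1, hB2⟩ := exists_small_definable hs.1
  have hsm := small_union' hA hB1
  obtain ⟨b, hb⟩ := exists_realises hM hq hsm
  have hdef : (A ∪ B).Definable L s := hB2.mono subset_union_right
  have h1 := (mem_prod_iff hM hq hsm (hpA.mono subset_union_left) hdef hb (p := p)).1 hs
  have hdef' := definable_image_aut hdef e
  have hAe : A ⊆ e '' (A ∪ B) := fun a ha => ⟨a, Or.inl ha, he a ha⟩
  have hb' : Realises (fun j => e (b j)) (restr L q (e '' (A ∪ B))) := by
    intro t ht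
    have h2 := hqA e.symm (symm_fix e he) t ht.1
    have h3 := definable_image_aut ht.2 e.symm
    have h4 : (e.symm '' (e '' (A ∪ B)) : Set U) = A ∪ B := by
      rw [← image_comp]
      convert image_id _
      funext x
      simp
    rw [h4] at h3
    exact hb _ ⟨h2, h3⟩
  have hsm' : Small.{0} (e '' (A ∪ B) : Set U) := by
    have := hsm
    exact small_image _ _
  rw [mem_prod_iff hM hq hsm' (hpA.mono hAe) hdef' hb' (p := p)]
  have h5 := hpA e he _ h1
  convert h5 using 1
  ext c
  simp only [mem_ofPred_eq]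
  apply iff_of_eq
  congr 1
  funext i
  rcases i with i | i <;> simp

omit hM in
/-- A type which is a push-forward is dominated. -/
theorem dominates_of_push [Finite β] {p : Set (Set (α → U))} {q : Set (Set (β → U))}
    (hp : IsType L univ p) {A : Set U} (hA : Small.{0} A)
    (hpA : InvariantOver L A p) (hqA : InvariantOver L A q) (g : β → ↥A ⊕ α)
    (hg : ∀ s : Set (β → U), s ∈ q ↔ (univ : Set U).Definable L s ∧
      {c : α → U | (fun j => Sum.elim (fun a : ↥A => (a : U)) c (g j)) ∈ s} ∈ p) :
    Dominates L p q := by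
  classical
  let G : (α → U) → (β → U) := fun c j => Sum.elim (fun a : ↥A => (a : U)) c (g j)
  refine ⟨A, hA, hpA, hqA, {s | A.Definable L s ∧ {c : α → U | Sum.elim c (G c) ∈ s} ∈ p},
    ⟨fun s hs => hs.1, ?_, ?_⟩, ?_, ?_, ?_⟩
  · intro F hF
    obtain ⟨c, hc⟩ := hp.consistent (F.image fun s => {c : α → U | Sum.elim c (G c) ∈ s}) (by
      intro t ht
      obtain ⟨s, hs, rfl⟩ := Finset.mem_image.1 ht
      exact (hF s hs).2)
    exact ⟨_, fun s hs => hc _ (Finset.mem_image_of_mem _ hs)⟩
  · intro s hs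
    have hdef : A.Definable L {c : α → U | Sum.elim c (G c) ∈ s} := by
      have h1 := definable_push hs Subset.rfl
        (fun i : α ⊕ β => Sum.elim (fun x => Sum.inr x) g i : α ⊕ β → ↥A ⊕ α)
      convert h1 using 1
      ext c
      simp only [mem_ofPred_eq]
      apply iff_of_eq
      congr 1
      funext i
      rcases i with i | i <;> rfl
    rcases hp.complete _ (hdef.mono (subset_univ _)) with h | h
    · exact Or.inl ⟨hs, h⟩
    · exact Or.inr ⟨hs.compl, h⟩
  · intro s hs
    exact ⟨hs.2.preimage_comp Sum.inl, hs.1⟩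
  · intro s hs
    exact ⟨hs.2.preimage_comp Sum.inr, ((hg s).1 hs.1).2⟩
  · intro s hs
    refine ⟨_, ((hg s).1 hs).2, {c : α ⊕ β → U | ∀ j, c (Sum.inr j) = G (c ∘ Sum.inl) j},
      ⟨?_, ?_⟩, ?_⟩
    · have h1 : {c : α ⊕ β → U | ∀ j, c (Sum.inr j) = G (c ∘ Sum.inl) j} =
          ⋂ j, {c : α ⊕ β → U | c (Sum.inr j) = G (c ∘ Sum.inl) j} := by
        ext c; simp
      rw [h1]
      refine definable_iInter_of_finite fun j => ?_
      rw [definable_iff_exists_formula_sum]
      refine ⟨(Term.var (Sum.inr (Sum.inr j))).equal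
        (Term.var (Sum.map id Sum.inl (g j))), ?_⟩
      ext c
      rw [mem_ofPred_eq, mem_ofPred_eq, Formula.realize_equal]
      simp only [Term.realize_var, Sum.elim_inr, G]
      rcases g j with a | i <;> rfl
    · convert hp.univ_mem using 1
      ext c
      simp
    · intro c h1 h2
      have h3 : c ∘ Sum.inr = G (c ∘ Sum.inl) := funext h2
      rw [h3]
      exact h1

/-- If domination between the types of a class is always given by push-forwards then the product
respects domination on the class. -/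
theorem respects_of_push (C : Type → Prop) (hC : ∀ α, C α → Finite α)
    (h : ∀ (α β : Type), C α → C β → ∀ (p : Set (Set (α → U))) (q : Set (Set (β → U))),
      IsInvariantType L p → IsInvariantType L q → Dominates L p q →
      ∃ A : Set U, Small.{0} A ∧ InvariantOver L A p ∧ InvariantOver L A q ∧ ∃ g : β → ↥A ⊕ α,
        ∀ s : Set (β → U), s ∈ q ↔ (univ : Set U).Definable L s ∧
          {c : α → U | (fun j => Sum.elim (fun a : ↥A => (a : U)) c (g j)) ∈ s} ∈ p) :
    Respects L U C := by
  intro α₁ α₂ β₁ β₂ hα₁ hα₂ hβ₁ hβ₂ p₁ p₂ q₁ q₂ hp₁ hp₂ hq₁ hq₂ hd₁ hd₂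
  obtain ⟨A₁, hA₁, hpA₁, hqA₁, g₁, hg₁⟩ := h α₁ β₁ hα₁ hβ₁ p₁ q₁ hp₁ hq₁ hd₁
  obtain ⟨A₂, hA₂, hpA₂, hqA₂, g₂, hg₂⟩ := h α₂ β₂ hα₂ hβ₂ p₂ q₂ hp₂ hq₂ hd₂
  have := hC β₁ hβ₁
  have := hC β₂ hβ₂
  let A : Set U := A₁ ∪ A₂
  have hA : Small.{0} A := small_union' hA₁ hA₂
  let g : β₁ ⊕ β₂ → ↥A ⊕ (α₁ ⊕ α₂) := Sum.elim
    (fun j => Sum.map (fun a : ↥A₁ => (⟨a, Or.inl a.2⟩ : ↥A)) Sum.inl (g₁ j))
    (fun j => Sum.map (fun a : ↥A₂ => (⟨a, Or.inr a.2⟩ : ↥A)) Sum.inr (g₂ j))
  have hpt := prod_isType hM hp₁.1 hp₂.1 hA (hpA₁.mono subset_union_left)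
  have hqt := prod_isType hM hq₁.1 hq₂.1 hA (hqA₁.mono subset_union_left)
  refine dominates_of_push hpt hA
    (prod_invariant hM hp₂.1 hA (hpA₁.mono subset_union_left) (hpA₂.mono subset_union_right))
    (prod_invariant hM hq₂.1 hA (hqA₁.mono subset_union_left) (hqA₂.mono subset_union_right))
    g ?_
  intro s
  by_cases hs : (univ : Set U).Definable L s
  swap
  · exact ⟨fun h => absurd (hqt.definable s h) hs, fun h => absurd h.1 hs⟩
  obtain ⟨B, hB1, hB2⟩ := exists_small_definable hs
  have hsm : Small.{0} (A ∪ B : Set U) := small_union' hA hB1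
  obtain ⟨c₂, hc₂⟩ := exists_realises hM hp₂.1 hsm
  let b₂ : β₂ → U := fun j => Sum.elim (fun a : ↥A₂ => (a : U)) c₂ (g₂ j)
  have hb₂ : Realises b₂ (restr L q₂ (A ∪ B)) := by
    intro t ht
    have h1 := ((hg₂ t).1 ht.1).2
    have h2 := definable_push (A := A ∪ B) (B := A ∪ B) ht.2 Subset.rfl
      (fun j => Sum.map (fun a : ↥A₂ => (⟨a, Or.inl (Or.inr a.2)⟩ : ↥(A ∪ B))) id (g₂ j))
    have h3 : (A ∪ B).Definable L {c : α₂ → U |
        (fun j => Sum.elim (fun a : ↥A₂ => (a : U)) c (g₂ j)) ∈ t} := by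
      convert h2 using 1
      ext c
      simp only [mem_ofPred_eq]
      apply iff_of_eq
      congr 1
      funext j
      rcases g₂ j with a | i <;> rfl
    exact hc₂ _ ⟨h1, h3⟩
  have hdef : (A ∪ B).Definable L s := hB2.mono subset_union_right
  rw [mem_prod_iff hM hq₂.1 hsm
    (hqA₁.mono (subset_union_left.trans subset_union_left)) hdef hb₂ (p := q₁), hg₁]
  have hdef' : (A ∪ B).Definable L {c : α₁ ⊕ α₂ → U |
      (fun j => Sum.elim (fun a : ↥A => (a : U)) c (g j)) ∈ s} := by
    have h2 := definable_push (A := A ∪ B) (B := A ∪ B) hdef Subset.rfl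
      (fun j => Sum.map (fun a : ↥A => (⟨a, Or.inl a.2⟩ : ↥(A ∪ B))) id (g j))
    convert h2 using 1
    ext c
    simp only [mem_ofPred_eq]
    apply iff_of_eq
    congr 1
    funext j
    rcases g j with a | i <;> rfl
  have h4 := mem_prod_iff hM hp₂.1 hsm
    (hpA₁.mono (subset_union_left.trans subset_union_left)) hdef' hc₂ (p := p₁)
  rw [h4]
  have h5 : (univ : Set U).Definable L {a : β₁ → U | Sum.elim a b₂ ∈ s} := by
    have h3 := definable_push (A := univ) hs (subset_univ _)
        (fun i : β₁ ⊕ β₂ => Sum.elim (fun x => Sum.inr x)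
          (fun y => Sum.inl ⟨b₂ y, mem_univ _⟩) i : β₁ ⊕ β₂ → ↥(univ : Set U) ⊕ β₁)
    convert h3 using 1
    ext a
    simp only [mem_ofPred_eq]
    apply iff_of_eq
    congr 1
    funext i
    rcases i with i | i <;> rfl
  simp only [h5, hs, true_and]
  apply iff_of_eq
  congr 1
  ext c
  simp only [mem_ofPred_eq]
  apply iff_of_eq
  congr 1
  funext j
  rcases j with j | j
  · simp only [g, Sum.elim_inl]
    rcases g₁ j with a | i <;> rfl
  · simp only [g, Sum.elim_inr, b₂]
    rcases g₂ j with a | i <;> rfl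

end

end Pool.Agent.H78.Dom
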