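import Pool.Agent.H78.Dom.Raw

/-!
# Quantifier elimination and saturation for the generic structure
-/

namespace Pool.Agent.H78.Dom

open FirstOrder FirstOrder.Language Set

/-- Relation symbols of the language. -/
inductive RelSym : ℕ → Type
  | mk (σ : Sym) : RelSym 3

/-- The language. -/
def LD : FirstOrder.Language.{0, 0} := ⟨fun _ => Empty, RelSym⟩

/-- The structure given by a raw structure. -/
@[reducible] def str {U : Type 1} (ρ : Raw U) : LD.Structure U where
  funMap := fun f => Empty.elim f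
  RelMap := fun {_} R v => match R, v with
    | .mk σ, v => ρ σ (v 0) (v 1) (v 2)

/-- Index of a symbol. -/
def idx : Sym → ℕ
  | .y => 0
  | .z => 0
  | .p m => m + 1
  | .d => 0
  | .l => 0
  | .t => 0
  | .r m => m + 1

section
variable {U : Type 1} {ρ : Raw U}

/-- `f` and `g` have the same atomic type with respect to the symbols of index at most `n`. -/
structure Close (ρ : Raw U) (n : ℕ) {J : Type 1} (f g : J → U) : Prop where
  eq : ∀ i j, f i = f j ↔ g i = g j
  rel : ∀ σ, idx σ ≤ n → ∀ i j k, ρ σ (f i) (f j) (f k) ↔ ρ σ (g i) (g j) (g k)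

theorem Close.symm {n : ℕ} {J : Type 1} {f g : J → U} (h : Close ρ n f g) : Close ρ n g f :=
  ⟨fun i j => (h.eq i j).symm, fun σ hσ i j k => (h.rel σ hσ i j k).symm⟩

theorem Close.mono {n m : ℕ} {J J' : Type 1} {f g : J → U} (h : Close ρ n f g) (hm : m ≤ n)
    (e : J' → J) : Close ρ m (f ∘ e) (g ∘ e) :=
  ⟨fun i j => h.eq _ _, fun σ hσ i j k => h.rel σ (hσ.trans hm) _ _ _⟩

/-- The raw structure used in the one-point extension of reducts. -/
def ext1 (ρ : Raw U) (n : ℕ) {J : Type 1} (f g : J → U) (c : U) : Raw (Option J) :=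
  fun σ a b e =>
    match a, b, e with
    | some a, some b, some e => ρ σ (g a) (g b) (g e)
    | a, b, e => idx σ ≤ n ∧
        ρ σ (a.elim c f) (b.elim c f) (e.elim c f)

theorem ext1_of_le {n : ℕ} {J : Type 1} {f g : J → U} {c : U} (h : Close ρ n f g) {σ : Sym}
    (hσ : idx σ ≤ n) (a b e : Option J) :
    ext1 ρ n f g c σ a b e ↔ ρ σ (a.elim c f) (b.elim c f) (e.elim c f) := by
  rcases a with _ | a <;> rcases b with _ | b <;> rcases e with _ | e <;>
    simp only [ext1, Option.elim, hσ, true_and]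
  exact (h.rel σ hσ a b e).symm

theorem ext1_some {n : ℕ} {J : Type 1} {f g : J → U} {c : U} {σ : Sym} (a b e : J) :
    ext1 ρ n f g c σ (some a) (some b) (some e) ↔ ρ σ (g a) (g b) (g e) := Iff.rfl

theorem ext1_gt {n : ℕ} {J : Type 1} {f g : J → U} {c : U} {σ : Sym} (hσ : ¬ idx σ ≤ n)
    {a b e : Option J} (h : ext1 ρ n f g c σ a b e) :
    ∃ a' b' e', a = some a' ∧ b = some b' ∧ e = some e' ∧ ρ σ (g a') (g b') (g e') := by
  rcases a with _ | a <;> rcases b with _ | b <;> rcases e with _ | e <;>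
    simp only [ext1, hσ, false_and] at h
  exact ⟨a, b, e, rfl, rfl, rfl, h⟩

theorem isK_ext1 (hK : IsK ρ) {n : ℕ} {J : Type 1} {f g : J → U} {c : U}
    (hf : Function.Injective f) (hg : Function.Injective g)
    (hc : ∀ i, f i ≠ c) (h : Close ρ n f g) : IsK (ext1 ρ n f g c) := by
  have hinj : ∀ a b : Option J, a.elim c f = b.elim c f → a = b := by
    intro a b hab
    rcases a with _ | a <;> rcases b with _ | b <;> simp only [Option.elim] at hab
    · rfl
    · exact absurd hab.symm (hc b)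
    · exact absurd hab (hc a)
    · rw [hf hab]
  have e0 : ∀ {σ : Sym}, idx σ = 0 → ∀ a b e : Option J, ext1 ρ n f g c σ a b e ↔
      ρ σ (a.elim c f) (b.elim c f) (e.elim c f) :=
    fun hσ a b e => ext1_of_le h (by omega) a b e
  have em : ∀ m : ℕ, ∀ σ : Sym, idx σ = m + 1 → ∀ a b e : Option J,
      ext1 ρ n f g c σ a b e → (m + 1 ≤ n ∧ ρ σ (a.elim c f) (b.elim c f) (e.elim c f)) ∨
        ∃ a' b' e', a = some a' ∧ b = some b' ∧ e = some e' ∧ ρ σ (g a') (g b') (g e') := by
    intro m σ hσ a b e hh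
    by_cases hle : idx σ ≤ n
    · exact Or.inl ⟨by omega, (ext1_of_le h hle a b e).1 hh⟩
    · exact Or.inr (ext1_gt hle hh)
  have hy : ∀ a : J, ρ .y (f a) (f a) (f a) ↔ ρ .y (g a) (g a) (g a) :=
    fun a => h.rel .y (Nat.zero_le _) a a a
  have hz : ∀ a : J, ρ .z (f a) (f a) (f a) ↔ ρ .z (g a) (g a) (g a) :=
    fun a => h.rel .z (Nat.zero_le _) a a a
  refine
    { y_diag := ?_, z_diag := ?_, p_diag := ?_, yz := ?_, py := ?_, pz := ?_, pp := ?_,
      d_diag := ?_, d_ne := ?_, d_symm := ?_, d_y := ?_, d_z := ?_, l_diag := ?_, l_y := ?_,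
      l_y2 := ?_, l_z2 := ?_, t_y := ?_, t_z := ?_, t_z2 := ?_, t_z3 := ?_, r_y := ?_,
      r_z2 := ?_, r_z3 := ?_, c1 := ?_, c2 := ?_ }
  · intro a b e hh
    rw [e0 rfl] at hh
    obtain ⟨h1, h2⟩ := hK.y_diag _ _ _ hh
    exact ⟨hinj _ _ h1, hinj _ _ h2⟩
  · intro a b e hh
    rw [e0 rfl] at hh
    obtain ⟨h1, h2⟩ := hK.z_diag _ _ _ hh
    exact ⟨hinj _ _ h1, hinj _ _ h2⟩
  · intro m a b e hh
    rcases em m _ rfl a b e hh with ⟨-, h1⟩ | ⟨a', b', e', rfl, rfl, rfl, h1⟩
    · obtain ⟨h1, h2⟩ := hK.p_diag _ _ _ _ h1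
      exact ⟨hinj _ _ h1, hinj _ _ h2⟩
    · obtain ⟨h1, h2⟩ := hK.p_diag _ _ _ _ h1
      rw [hg h1, hg h2]
      exact ⟨rfl, rfl⟩
  · intro a
    rw [e0 rfl, e0 rfl]
    exact hK.yz _
  · intro m a hh
    rw [e0 rfl]
    rcases em m _ rfl a a a hh with ⟨-, h1⟩ | ⟨a', b', e', rfl, h2, h3, h1⟩
    · exact hK.py _ _ h1
    · obtain rfl : a' = b' := Option.some_inj.1 h2
      obtain rfl : a' = e' := Option.some_inj.1 h3
      have := hK.py _ _ h1
      rwa [← hy] at this
  · intro m a hh
    rw [e0 rfl]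
    rcases em m _ rfl a a a hh with ⟨-, h1⟩ | ⟨a', b', e', rfl, h2, h3, h1⟩
    · exact hK.pz _ _ h1
    · obtain rfl : a' = b' := Option.some_inj.1 h2
      obtain rfl : a' = e' := Option.some_inj.1 h3
      have := hK.pz _ _ h1
      rwa [← hz] at this
  · intro m k a h1 h2
    rcases em m _ rfl a a a h1 with ⟨hm, h1⟩ | ⟨a', b', e', rfl, h3, h4, h1⟩
    · rcases em k _ rfl a a a h2 with ⟨hk, h2⟩ | ⟨a', b', e', rfl, h3, h4, h2⟩
      · exact hK.pp _ _ _ h1 h2
      · obtain rfl : a' = b' := Option.some_inj.1 h3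
        obtain rfl : a' = e' := Option.some_inj.1 h4
        have h5 : ρ (.p m) (g a') (g a') (g a') := (h.rel (.p m) hm a' a' a').1 h1
        exact hK.pp _ _ _ h5 h2
    · obtain rfl : a' = b' := Option.some_inj.1 h3
      obtain rfl : a' = e' := Option.some_inj.1 h4
      rcases em k _ rfl _ _ _ h2 with ⟨hk, h2⟩ | ⟨a'', b'', e'', h5, h6, h7, h2⟩
      · have h5 : ρ (.p k) (g a') (g a') (g a') := (h.rel (.p k) hk a' a' a').1 h2
        exact hK.pp _ _ _ h1 h5
      · obtain rfl : a' = a'' := Option.some_inj.1 h5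
        obtain rfl : a' = b'' := Option.some_inj.1 h6
        obtain rfl : a' = e'' := Option.some_inj.1 h7
        exact hK.pp _ _ _ h1 h2
  · intro a b e hh
    rw [e0 rfl] at hh
    exact hinj _ _ (hK.d_diag _ _ _ hh)
  · intro a b e hh hab
    rw [e0 rfl] at hh
    exact hK.d_ne _ _ _ hh (by rw [hab])
  · intro a b hh
    rw [e0 rfl] at hh ⊢
    exact hK.d_symm _ _ hh
  · intro a b e hh
    rw [e0 rfl] at hh ⊢
    exact hK.d_y _ _ _ hh
  · intro a b e hh
    rw [e0 rfl] at hh ⊢
    exact hK.d_z _ _ _ hh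
  · intro a b e hh
    rw [e0 rfl] at hh
    exact hinj _ _ (hK.l_diag _ _ _ hh)
  · intro a b e hh
    rw [e0 rfl] at hh ⊢
    exact hK.l_y _ _ _ hh
  · intro a b e hh
    rw [e0 rfl] at hh ⊢
    exact hK.l_y2 _ _ _ hh
  · intro a b e hh
    rw [e0 rfl] at hh ⊢
    exact hK.l_z2 _ _ _ hh
  · intro a b e hh
    rw [e0 rfl] at hh ⊢
    exact hK.t_y _ _ _ hh
  · intro a b e hh
    rw [e0 rfl] at hh ⊢
    exact hK.t_z _ _ _ hh
  · intro a b e hh
    rw [e0 rfl] at hh ⊢
    exact hK.t_z2 _ _ _ hh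
  · intro a b e hh
    rw [e0 rfl] at hh ⊢
    exact hK.t_z3 _ _ _ hh
  · intro m a b e hh
    rw [e0 rfl]
    rcases em m _ rfl a b e hh with ⟨-, h1⟩ | ⟨a', b', e', rfl, rfl, rfl, h1⟩
    · exact hK.r_y _ _ _ _ h1
    · exact (hy a').2 (hK.r_y _ _ _ _ h1)
  · intro m a b e hh
    rw [e0 rfl]
    rcases em m _ rfl a b e hh with ⟨-, h1⟩ | ⟨a', b', e', rfl, rfl, rfl, h1⟩
    · exact hK.r_z2 _ _ _ _ h1
    · exact (hz b').2 (hK.r_z2 _ _ _ _ h1)
  · intro m a b e hh
    rw [e0 rfl]
    rcases em m _ rfl a b e hh with ⟨-, h1⟩ | ⟨a', b', e', rfl, rfl, rfl, h1⟩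
    · exact hK.r_z3 _ _ _ _ h1
    · exact (hz e').2 (hK.r_z3 _ _ _ _ h1)
  · intro a b e h1 h2 h3
    rw [e0 rfl] at h1 h2 h3
    exact hK.c1 _ _ _ h1 h2 h3
  · intro m a b e e' h1 h2 h3 h4
    by_cases hle : m + 1 ≤ n
    · have h2' := (ext1_of_le h (σ := .p m) hle _ _ _).1 h2
      have h3' := (ext1_of_le h (σ := .r m) hle _ _ _).1 h3
      rw [e0 rfl] at h1 h4
      exact hK.c2 _ _ _ _ _ h1 h2' h3' h4
    · obtain ⟨b1, b2, b3, rfl, h5, h6, h7⟩ := ext1_gt (σ := .p m) hle h2
      obtain ⟨a1, a2, a3, rfl, rfl, rfl, h8⟩ := ext1_gt (σ := .r m) hle h3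
      obtain rfl : b1 = b2 := Option.some_inj.1 h5
      obtain rfl : b1 = b3 := Option.some_inj.1 h6
      exact hK.c2 _ _ _ _ _ h1 h7 h8 h4

/-- Extension of closeness by one point. -/
theorem Close.extend (hK : IsK ρ) (hS : SEP.{0} ρ) {n : ℕ} {J : Type 1} [Small.{0} J]
    {f g : J → U} (h : Close ρ n f g) (c : U) :
    ∃ d : U, Close ρ n (fun o : Option J => o.elim c f) (fun o : Option J => o.elim d g) := by
  classical
  by_cases hc : ∃ i, f i = c
  · obtain ⟨i, rfl⟩ := hc
    refine ⟨g i, ?_⟩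
    have h2 := h.mono le_rfl (fun o : Option J => o.elim i id)
    convert h2 using 1 <;> funext o <;> rcases o with _ | o <;> rfl
  · push Not at hc
    -- choose representatives
    let E : Setoid J := ⟨fun i j => f i = f j, ⟨fun _ => rfl, fun h => h.symm, fun h h' => h.trans h'⟩⟩
    let J' := Quotient E
    let f' : J' → U := Quotient.lift f (fun _ _ h => h)
    let g' : J' → U := Quotient.lift g (fun i j hij => (h.eq i j).1 hij)
    have hf' : Function.Injective f' := by
      intro x y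
      induction x using Quotient.inductionOn
      induction y using Quotient.inductionOn
      intro hxy
      exact Quotient.sound hxy
    have hg' : Function.Injective g' := by
      intro x y
      induction x using Quotient.inductionOn
      induction y using Quotient.inductionOn
      intro hxy
      exact Quotient.sound ((h.eq _ _).2 hxy)
    have hclose : Close ρ n f' g' := by
      refine ⟨fun x y => ⟨fun hh => by rw [hf' hh], fun hh => by rw [hg' hh]⟩, ?_⟩
      intro σ hσ x y w
      induction x using Quotient.inductionOn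
      induction y using Quotient.inductionOn
      induction w using Quotient.inductionOn
      exact h.rel σ hσ _ _ _
    have hc' : ∀ x, f' x ≠ c := by
      intro x
      induction x using Quotient.inductionOn
      exact hc _
    have : Small.{0} J' := small_of_surjective Quotient.mk_surjective
    obtain ⟨d, hd1, hd2⟩ := hS J' g' hg' (ext1 ρ n f' g' c) (isK_ext1 hK hf' hg' hc' hclose) rfl
    have key : Close ρ n (fun o : Option J' => o.elim c f') (fun o : Option J' => o.elim d g') := by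
      refine ⟨?_, ?_⟩
      · intro x y
        rcases x with _ | x <;> rcases y with _ | y <;> simp only [Option.elim]
        · exact ⟨fun hh => absurd hh.symm (hc' y), fun hh => absurd hh.symm (hd1 y)⟩
        · exact ⟨fun hh => absurd hh (hc' x), fun hh => absurd hh (hd1 x)⟩
        · exact hclose.eq x y
      · intro σ hσ x y w
        have h1 := congrFun (congrFun (congrFun (congrFun hd2 σ) x) y) w
        have h2 : ρ σ (x.elim d g') (y.elim d g') (w.elim d g') ↔ ext1 ρ n f' g' c σ x y w :=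
          iff_of_eq h1
        rw [h2, ext1_of_le hclose hσ]
    refine ⟨d, ?_⟩
    have h3 := key.mono le_rfl (fun o : Option J => o.map (Quotient.mk E))
    convert h3 using 1 <;> funext o <;> rcases o with _ | o <;> rfl

/-- Closeness of tuples determines the truth of a formula. -/
theorem realize_of_close (hK : IsK ρ) (hS : SEP.{0} ρ) {γ : Type 1} {k : ℕ}
    (φ : LD.BoundedFormula γ k) :
    ∃ (n : ℕ) (V : Finset γ), ∀ (v w : γ → U) (xs ys : Fin k → U),
      Close ρ n (fun i : ↥V ⊕ ULift.{1} (Fin k) => Sum.elim (fun j : ↥V => v j) (fun j => xs j.down) i)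
        (fun i => Sum.elim (fun j : ↥V => w j) (fun j => ys j.down) i) →
      (@BoundedFormula.Realize LD U (str ρ) _ _ φ v xs ↔
        @BoundedFormula.Realize LD U (str ρ) _ _ φ w ys) := by
  classical
  letI := str ρ
  -- terms are variables
  have hterm : ∀ {k : ℕ} (t : LD.Term (γ ⊕ Fin k)), ∃ V : Finset γ, ∀ V' : Finset γ, V ⊆ V' →
      ∃ i : ↥V' ⊕ ULift.{1} (Fin k), ∀ (v : γ → U) (xs : Fin k → U),
        t.realize (Sum.elim v xs) = Sum.elim (fun j : ↥V' => v j) (fun j => xs j.down) i := by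
    intro k t
    cases t with
    | var i =>
      rcases i with i | i
      · exact ⟨{i}, fun V' hV' => ⟨Sum.inl ⟨i, hV' (Finset.mem_singleton_self i)⟩, fun v xs => rfl⟩⟩
      · exact ⟨∅, fun V' _ => ⟨Sum.inr ⟨i⟩, fun v xs => rfl⟩⟩
    | func f _ => exact Empty.elim f
  -- restriction of closeness
  have hmono : ∀ {k n m : ℕ} {V V' : Finset γ} {v w : γ → U} {xs ys : Fin k → U}, m ≤ n →
      V ⊆ V' →
      Close ρ n (fun i : ↥V' ⊕ ULift.{1} (Fin k) =>
          Sum.elim (fun j : ↥V' => v j) (fun j => xs j.down) i)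
        (fun i => Sum.elim (fun j : ↥V' => w j) (fun j => ys j.down) i) →
      Close ρ m (fun i : ↥V ⊕ ULift.{1} (Fin k) =>
          Sum.elim (fun j : ↥V => v j) (fun j => xs j.down) i)
        (fun i => Sum.elim (fun j : ↥V => w j) (fun j => ys j.down) i) := by
    intro k n m V V' v w xs ys hmn hV hc
    have := hc.mono hmn (Sum.map (fun j : ↥V => (⟨j, hV j.2⟩ : ↥V')) id)
    convert this using 1 <;> funext i <;> rcases i with i | i <;> rfl
  induction φ with
  | falsum => exact ⟨0, ∅, fun v w xs ys _ => Iff.rfl⟩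
  | equal t₁ t₂ =>
    obtain ⟨V1, h1⟩ := hterm t₁
    obtain ⟨V2, h2⟩ := hterm t₂
    refine ⟨0, V1 ∪ V2, fun v w xs ys hc => ?_⟩
    obtain ⟨i, hi⟩ := h1 (V1 ∪ V2) Finset.subset_union_left
    obtain ⟨j, hj⟩ := h2 (V1 ∪ V2) Finset.subset_union_right
    have := hc.eq i j
    simp only [BoundedFormula.Realize, hi, hj]
    exact this
  | rel R ts =>
    cases R with
    | mk σ =>
      choose V hV using fun i => hterm (ts i)
      refine ⟨idx σ, Finset.univ.biUnion V, fun v w xs ys hc => ?_⟩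
      choose i hi using fun j => hV j (Finset.univ.biUnion V)
        (Finset.subset_biUnion_of_mem V (Finset.mem_univ j))
      have := hc.rel σ le_rfl (i 0) (i 1) (i 2)
      rw [← hi, ← hi, ← hi, ← hi, ← hi, ← hi] at this
      exact this
  | imp f₁ f₂ ih1 ih2 =>
    obtain ⟨n1, V1, h1⟩ := ih1
    obtain ⟨n2, V2, h2⟩ := ih2
    refine ⟨max n1 n2, V1 ∪ V2, fun v w xs ys hc => ?_⟩
    simp only [BoundedFormula.realize_imp]
    rw [h1 v w xs ys (hmono (le_max_left _ _) Finset.subset_union_left hc),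
      h2 v w xs ys (hmono (le_max_right _ _) Finset.subset_union_right hc)]
  | @all k f ih =>
    obtain ⟨n, V, h⟩ := ih
    refine ⟨n, V, fun v w xs ys hc => ?_⟩
    have hsmall : Small.{0} (↥V ⊕ ULift.{1} (Fin k)) := by
      have : Finite (↥V ⊕ ULift.{1} (Fin k)) := inferInstance
      infer_instance
    have hext : ∀ {v w : γ → U} {xs ys : Fin k → U} (c : U),
        Close ρ n (fun i : ↥V ⊕ ULift.{1} (Fin k) =>
          Sum.elim (fun j : ↥V => v j) (fun j => xs j.down) i)
        (fun i => Sum.elim (fun j : ↥V => w j) (fun j => ys j.down) i) →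
        ∃ d : U, Close ρ n (fun i : ↥V ⊕ ULift.{1} (Fin (k + 1)) =>
          Sum.elim (fun j : ↥V => v j) (fun j => (Fin.snoc xs c : Fin (k + 1) → U) j.down) i)
        (fun i => Sum.elim (fun j : ↥V => w j)
          (fun j => (Fin.snoc ys d : Fin (k + 1) → U) j.down) i) := by
      intro v w xs ys c hc
      obtain ⟨d, hd⟩ := hc.extend hK hS c
      refine ⟨d, ?_⟩
      let e : ↥V ⊕ ULift.{1} (Fin (k + 1)) → Option (↥V ⊕ ULift.{1} (Fin k)) :=
        Sum.elim (fun j => some (Sum.inl j))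
          (fun j => Fin.lastCases (motive := fun _ => Option (↥V ⊕ ULift.{1} (Fin k))) none
            (fun i => some (Sum.inr ⟨i⟩)) j.down)
      have := hd.mono le_rfl e
      convert this using 1
      · funext i
        rcases i with i | i
        · rfl
        · cases i with | up i => ?_
          refine Fin.lastCases ?_ (fun i => ?_) i
          · simp [e]
          · simp [e]
      · funext i
        rcases i with i | i
        · rfl
        · cases i with | up i => ?_
          refine Fin.lastCases ?_ (fun i => ?_) i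
          · simp [e]
          · simp [e]
    simp only [BoundedFormula.realize_all]
    constructor
    · intro hall d
      obtain ⟨c, hc'⟩ := hext d hc.symm
      exact (h v w _ _ hc'.symm).1 (hall c)
    · intro hall c
      obtain ⟨d, hd⟩ := hext c hc
      exact (h v w _ _ hd).2 (hall d)

end

end Pool.Agent.H78.Dom
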