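import Pool.Agent.H78.Dom.Amalg
import Pool.Agent.H78.Dom.GenTypes

/-!
# Pattern types
-/

namespace Pool.Agent.H78.Dom

open FirstOrder FirstOrder.Language Set

/-- The hypotheses on the generic structure. -/
structure Generic {U : Type 1} (ρ : Raw U) : Prop where
  K : IsK ρ
  S : SEP.{0} ρ
  E : Emb ρ
  H : Hom ρ
  big : ¬ Small.{0} U

section
variable {V W : Type*}

theorem IsK.pull {V : Type*} {W : Type*} {τ : Raw W} (h : IsK τ) {g : V → W}
    (hg : Function.Injective g) : IsK (Raw.comap g τ) := by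
  constructor
  · exact fun a b c hh => ⟨hg (h.y_diag _ _ _ hh).1, hg (h.y_diag _ _ _ hh).2⟩
  · exact fun a b c hh => ⟨hg (h.z_diag _ _ _ hh).1, hg (h.z_diag _ _ _ hh).2⟩
  · exact fun m a b c hh => ⟨hg (h.p_diag _ _ _ _ hh).1, hg (h.p_diag _ _ _ _ hh).2⟩
  · exact fun a => h.yz _
  · exact fun m a => h.py _ _
  · exact fun m a => h.pz _ _
  · exact fun m n a => h.pp _ _ _
  · exact fun a b c hh => hg (h.d_diag _ _ _ hh)
  · exact fun a b c hh hab => h.d_ne _ _ _ hh (by rw [hab])
  · exact fun a b => h.d_symm _ _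
  · exact fun a b c => h.d_y _ _ _
  · exact fun a b c => h.d_z _ _ _
  · exact fun a b c hh => hg (h.l_diag _ _ _ hh)
  · exact fun a b c => h.l_y _ _ _
  · exact fun a b c => h.l_y2 _ _ _
  · exact fun a b c => h.l_z2 _ _ _
  · exact fun a b c => h.t_y _ _ _
  · exact fun a b c => h.t_z _ _ _
  · exact fun a b c => h.t_z2 _ _ _
  · exact fun a b c => h.t_z3 _ _ _
  · exact fun m a b c => h.r_y _ _ _ _
  · exact fun m a b c => h.r_z2 _ _ _ _
  · exact fun m a b c => h.r_z3 _ _ _ _
  · exact fun a b c => h.c1 _ _ _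
  · exact fun m a b c e => h.c2 _ _ _ _ _

/-- Disjoint sum. -/
def sumRaw (ρ : Raw V) (τ : Raw W) : Raw (V ⊕ W) := fun σ x y z =>
  match x, y, z with
  | .inl x, .inl y, .inl z => ρ σ x y z
  | .inr x, .inr y, .inr z => τ σ x y z
  | _, _, _ => False

theorem isK_sumRaw {ρ : Raw V} {τ : Raw W} (h1 : IsK ρ) (h2 : IsK τ) : IsK (sumRaw ρ τ) := by
  constructor
  · intro a b c
    rcases a with a | a <;> rcases b with b | b <;> rcases c with c | c <;>
      simp only [sumRaw, false_imp_iff, Sum.inl.injEq, Sum.inr.injEq]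
    · exact h1.y_diag a b c
    · exact h2.y_diag a b c
  · intro a b c
    rcases a with a | a <;> rcases b with b | b <;> rcases c with c | c <;>
      simp only [sumRaw, false_imp_iff, Sum.inl.injEq, Sum.inr.injEq]
    · exact h1.z_diag a b c
    · exact h2.z_diag a b c
  · intro m a b c
    rcases a with a | a <;> rcases b with b | b <;> rcases c with c | c <;>
      simp only [sumRaw, false_imp_iff, Sum.inl.injEq, Sum.inr.injEq]
    · exact h1.p_diag m a b c
    · exact h2.p_diag m a b c
  · intro a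
    rcases a with a | a
    · exact h1.yz a
    · exact h2.yz a
  · intro m a
    rcases a with a | a
    · exact h1.py m a
    · exact h2.py m a
  · intro m a
    rcases a with a | a
    · exact h1.pz m a
    · exact h2.pz m a
  · intro m n a
    rcases a with a | a
    · exact h1.pp m n a
    · exact h2.pp m n a
  · intro a b c
    rcases a with a | a <;> rcases b with b | b <;> rcases c with c | c <;>
      simp only [sumRaw, false_imp_iff, Sum.inl.injEq, Sum.inr.injEq]
    · exact h1.d_diag a b c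
    · exact h2.d_diag a b c
  · intro a b c
    rcases a with a | a <;> rcases b with b | b <;> rcases c with c | c <;>
      simp only [sumRaw, false_imp_iff, ne_eq, Sum.inl.injEq, Sum.inr.injEq]
    · exact h1.d_ne a b c
    · exact h2.d_ne a b c
  · intro a b
    rcases a with a | a <;> rcases b with b | b <;>
      simp only [sumRaw, false_imp_iff]
    · exact h1.d_symm a b
    · exact h2.d_symm a b
  · intro a b c
    rcases a with a | a <;> rcases b with b | b <;> rcases c with c | c <;>
      simp only [sumRaw, false_imp_iff]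
    · exact h1.d_y a b c
    · exact h2.d_y a b c
  · intro a b c
    rcases a with a | a <;> rcases b with b | b <;> rcases c with c | c <;>
      simp only [sumRaw, false_imp_iff]
    · exact h1.d_z a b c
    · exact h2.d_z a b c
  · intro a b c
    rcases a with a | a <;> rcases b with b | b <;> rcases c with c | c <;>
      simp only [sumRaw, false_imp_iff, Sum.inl.injEq, Sum.inr.injEq]
    · exact h1.l_diag a b c
    · exact h2.l_diag a b c
  · intro a b c
    rcases a with a | a <;> rcases b with b | b <;> rcases c with c | c <;>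
      simp only [sumRaw, false_imp_iff]
    · exact h1.l_y a b c
    · exact h2.l_y a b c
  · intro a b c
    rcases a with a | a <;> rcases b with b | b <;> rcases c with c | c <;>
      simp only [sumRaw, false_imp_iff]
    · exact h1.l_y2 a b c
    · exact h2.l_y2 a b c
  · intro a b c
    rcases a with a | a <;> rcases b with b | b <;> rcases c with c | c <;>
      simp only [sumRaw, false_imp_iff]
    · exact h1.l_z2 a b c
    · exact h2.l_z2 a b c
  · intro a b c
    rcases a with a | a <;> rcases b with b | b <;> rcases c with c | c <;>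
      simp only [sumRaw, false_imp_iff]
    · exact h1.t_y a b c
    · exact h2.t_y a b c
  · intro a b c
    rcases a with a | a <;> rcases b with b | b <;> rcases c with c | c <;>
      simp only [sumRaw, false_imp_iff]
    · exact h1.t_z a b c
    · exact h2.t_z a b c
  · intro a b c
    rcases a with a | a <;> rcases b with b | b <;> rcases c with c | c <;>
      simp only [sumRaw, false_imp_iff]
    · exact h1.t_z2 a b c
    · exact h2.t_z2 a b c
  · intro a b c
    rcases a with a | a <;> rcases b with b | b <;> rcases c with c | c <;>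
      simp only [sumRaw, false_imp_iff]
    · exact h1.t_z3 a b c
    · exact h2.t_z3 a b c
  · intro m a b c
    rcases a with a | a <;> rcases b with b | b <;> rcases c with c | c <;>
      simp only [sumRaw, false_imp_iff]
    · exact h1.r_y m a b c
    · exact h2.r_y m a b c
  · intro m a b c
    rcases a with a | a <;> rcases b with b | b <;> rcases c with c | c <;>
      simp only [sumRaw, false_imp_iff]
    · exact h1.r_z2 m a b c
    · exact h2.r_z2 m a b c
  · intro m a b c
    rcases a with a | a <;> rcases b with b | b <;> rcases c with c | c <;>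
      simp only [sumRaw, false_imp_iff]
    · exact h1.r_z3 m a b c
    · exact h2.r_z3 m a b c
  · intro a b c
    rcases a with a | a <;> rcases b with b | b <;> rcases c with c | c <;>
      simp only [sumRaw, false_imp_iff, imp_true_iff, not_false_iff]
    · exact h1.c1 a b c
    · exact h2.c1 a b c
  · intro m a b c e
    rcases a with a | a <;> rcases b with b | b <;> rcases c with c | c <;>
      rcases e with e | e <;>
      simp only [sumRaw, false_imp_iff, imp_true_iff, not_false_iff]
    · exact h1.c2 m a b c e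
    · exact h2.c2 m a b c e

end

section
variable {U : Type 1} {ρ : Raw U} {γ : Type}

/-- `a` realises the scheme `S` over `A`. -/
def PatOn (ρ : Raw U) (S : Raw (U ⊕ γ)) (A : Set U) (a : γ → U) : Prop :=
  Function.Injective (Sum.elim (fun x : ↥A => (x : U)) a) ∧
    ∀ (σ : Sym) (x y z : ↥A ⊕ γ),
      ρ σ (Sum.elim (fun x : ↥A => (x : U)) a x) (Sum.elim (fun x : ↥A => (x : U)) a y)
        (Sum.elim (fun x : ↥A => (x : U)) a z) ↔
      S σ (Sum.map (fun x : ↥A => (x : U)) id x) (Sum.map (fun x : ↥A => (x : U)) id y)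
        (Sum.map (fun x : ↥A => (x : U)) id z)

/-- A scheme. -/
structure IsScheme (ρ : Raw U) (S : Raw (U ⊕ γ)) : Prop where
  K : IsK S
  base : ∀ σ a b c, S σ (.inl a) (.inl b) (.inl c) ↔ ρ σ a b c
  inv : ∀ e : U ≃ U, ρ.comap e = ρ → S.comap (Sum.map e id) = S

theorem PatOn.mono {S : Raw (U ⊕ γ)} {A B : Set U} {a : γ → U} (h : PatOn ρ S B a) (hAB : A ⊆ B) :
    PatOn ρ S A a := by
  let j : ↥A ⊕ γ → ↥B ⊕ γ := Sum.map (fun x => ⟨x, hAB x.2⟩) id
  have h1 : ∀ x, Sum.elim (fun x : ↥A => (x : U)) a x = Sum.elim (fun x : ↥B => (x : U)) a (j x) := by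
    intro x; rcases x with x | x <;> rfl
  have h2 : ∀ x, (Sum.map (fun x : ↥A => (x : U)) id x : U ⊕ γ) =
      Sum.map (fun x : ↥B => (x : U)) id (j x) := by
    intro x; rcases x with x | x <;> rfl
  have hj : Function.Injective j := by
    rintro (x | x) (y | y) hxy
    · simp only [j, Sum.map_inl, Sum.inl.injEq, Subtype.mk.injEq] at hxy
      rw [Subtype.ext hxy]
    · simp [j] at hxy
    · simp [j] at hxy
    · simpa [j] using hxy
  refine ⟨fun x y hxy => hj (h.1 (by rw [← h1, ← h1]; exact hxy)), fun σ x y z => ?_⟩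
  rw [h1, h1, h1, h2, h2, h2]
  exact h.2 σ _ _ _

theorem PatOn.notMem {S : Raw (U ⊕ γ)} {A : Set U} {a : γ → U} (h : PatOn ρ S A a) (i : γ) :
    a i ∉ A := by
  intro ha
  have := @h.1 (Sum.inr i) (Sum.inl ⟨a i, ha⟩) rfl
  exact Sum.inr_ne_inl this

theorem PatOn.inj {S : Raw (U ⊕ γ)} {A : Set U} {a : γ → U} (h : PatOn ρ S A a) :
    Function.Injective a := by
  intro i j hij
  have := @h.1 (Sum.inr i) (Sum.inr j) hij
  exact Sum.inr_injective this

theorem exists_pat (hG : Generic ρ) {S : Raw (U ⊕ γ)} (hS : IsScheme ρ S) {A : Set U}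
    (hA : Small.{0} A) : ∃ a, PatOn ρ S A a := by
  by_cases hU : Nonempty U
  swap
  · exact absurd (by
      have : IsEmpty U := not_nonempty_iff.1 hU
      infer_instance) hG.big
  have hsm : Small.{0} (↥A ⊕ γ) := small_sum
  have hinj : Function.Injective (Sum.map (fun x : ↥A => (x : U)) id : ↥A ⊕ γ → U ⊕ γ) :=
    Sum.map_injective.2 ⟨Subtype.val_injective, Function.injective_id⟩
  obtain ⟨g, hg1, hg2, hg3⟩ := hG.E (↥A ⊕ γ) (S.comap (Sum.map (fun x : ↥A => (x : U)) id))
    (hS.K.pull hinj) (range Sum.inl)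
    (Sum.elim (fun x : ↥A => (x : U)) (fun _ => Classical.choice hU))
    (by
      rintro _ ⟨a, rfl⟩ _ ⟨b, rfl⟩ hab
      congr 1
      exact Subtype.ext hab)
    (by
      rintro σ _ ⟨a, rfl⟩ _ ⟨b, rfl⟩ _ ⟨c, rfl⟩
      exact (hS.base σ a b c).symm)
  have hgl : ∀ a : ↥A, g (.inl a) = a := fun a => hg2 ⟨a, rfl⟩
  have hgg : ∀ x, Sum.elim (fun x : ↥A => (x : U)) (fun i => g (.inr i)) x = g x := by
    rintro (x | x)
    · exact (hgl x).symm
    · rfl
  refine ⟨fun i => g (.inr i), fun x y hxy => ?_, fun σ x y z => ?_⟩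
  · rw [hgg, hgg] at hxy
    exact hg1 hxy
  · rw [hgg, hgg, hgg]
    have := congrFun (congrFun (congrFun (congrFun hg3 σ) x) y) z
    exact iff_of_eq this

theorem pat_uniq (hG : Generic ρ) {S : Raw (U ⊕ γ)} {A : Set U}
    (hA : Small.{0} A) {a a' : γ → U} (h : PatOn ρ S A a) (h' : PatOn ρ S A a') :
    ∃ e : U ≃ U, ρ.comap e = ρ ∧ (∀ x ∈ A, e x = x) ∧ ∀ i, e (a i) = a' i := by
  have hsm : Small.{0} (↥A ⊕ γ) := small_sum
  obtain ⟨e, he1, he2⟩ := hG.H (↥A ⊕ γ) (Sum.elim (fun x : ↥A => (x : U)) a)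
    (Sum.elim (fun x : ↥A => (x : U)) a')
    (fun x y => ⟨fun hh => by rw [h.1 hh], fun hh => by rw [h'.1 hh]⟩)
    (by
      funext σ x y z
      exact propext ((h.2 σ x y z).trans (h'.2 σ x y z).symm))
  exact ⟨e, he2, fun x hx => he1 (.inl ⟨x, hx⟩), fun i => he1 (.inr i)⟩

theorem pat_aut {S : Raw (U ⊕ γ)} (hS : IsScheme ρ S) {A : Set U} {a : γ → U}
    (h : PatOn ρ S A a) (e : U ≃ U) (he : ρ.comap e = ρ) :
    PatOn ρ S (e '' A) (fun i => e (a i)) := by
  -- transport along `A ≃ e '' A`
  let j : ↥(e '' A) ⊕ γ → ↥A ⊕ γ := Sum.map (fun x => ⟨e.symm x, by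
    obtain ⟨y, hy, hxy⟩ := x.2
    rw [← hxy, e.symm_apply_apply]
    exact hy⟩) id
  have h1 : ∀ x, Sum.elim (fun x : ↥(e '' A) => (x : U)) (fun i => e (a i)) x =
      e (Sum.elim (fun x : ↥A => (x : U)) a (j x)) := by
    rintro (x | x)
    · simp [j]
    · rfl
  have h2 : ∀ x, (Sum.map (fun x : ↥(e '' A) => (x : U)) id x : U ⊕ γ) =
      Sum.map e id (Sum.map (fun x : ↥A => (x : U)) id (j x)) := by
    rintro (x | x)
    · simp [j]
    · rfl
  have hj : Function.Injective j := by
    rintro (x | x) (y | y) hxy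
    · simp only [j, Sum.map_inl, Sum.inl.injEq, Subtype.mk.injEq] at hxy
      rw [Subtype.ext (e.symm.injective hxy)]
    · simp [j] at hxy
    · simp [j] at hxy
    · simpa [j] using hxy
  have hrel : ∀ σ a b c, ρ σ (e a) (e b) (e c) ↔ ρ σ a b c := by
    intro σ a b c
    exact iff_of_eq (congrFun (congrFun (congrFun (congrFun he σ) a) b) c)
  have hrelS : ∀ σ a b c, S σ (Sum.map e id a) (Sum.map e id b) (Sum.map e id c) ↔ S σ a b c := by
    intro σ a b c
    exact iff_of_eq (congrFun (congrFun (congrFun (congrFun (hS.inv e he) σ) a) b) c)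
  refine ⟨fun x y hxy => ?_, fun σ x y z => ?_⟩
  · rw [h1, h1] at hxy
    exact hj (h.1 (e.injective hxy))
  · rw [h1, h1, h1, h2, h2, h2, hrel, hrelS]
    exact h.2 σ _ _ _

/-- The global type of a scheme. -/
def schType (ρ : Raw U) (S : Raw (U ⊕ γ)) : Set (Set (γ → U)) :=
  letI := str ρ
  {s | ∃ B : Set U, Small.{0} B ∧ B.Definable LD s ∧ ∃ a, PatOn ρ S B a ∧ a ∈ s}

theorem mem_schType_iff (hG : Generic ρ) {S : Raw (U ⊕ γ)}
    {s : Set (γ → U)} {B : Set U} (hB : Small.{0} B) (hs : letI := str ρ; B.Definable LD s)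
    {a : γ → U} (ha : PatOn ρ S B a) (hS : IsScheme ρ S) : s ∈ schType ρ S ↔ a ∈ s := by
  letI := str ρ
  constructor
  · rintro ⟨B', hB', hs', a', ha', has'⟩
    obtain ⟨a'', ha''⟩ := exists_pat hG hS (small_union' hB hB')
    obtain ⟨e, he1, he2, he3⟩ := pat_uniq hG hB' ha' (ha''.mono subset_union_right)
    obtain ⟨f, hf1, hf2, hf3⟩ := pat_uniq hG hB (ha''.mono subset_union_left) ha
    have h1 := (mem_iff_aut hs' (autOf e he1) he2 a').1 has'
    have h2 : a'' ∈ s := by
      convert h1 using 1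
      funext i
      exact (he3 i).symm
    have h3 := (mem_iff_aut hs (autOf f hf1) hf2 a'').1 h2
    convert h3 using 1
    funext i
    exact (hf3 i).symm
  · intro h
    exact ⟨B, hB, hs, a, ha, h⟩

theorem schType_isType (hG : Generic ρ) {S : Raw (U ⊕ γ)} (hS : IsScheme ρ S) :
    letI := str ρ; IsType LD univ (schType ρ S) := by
  classical
  letI := str ρ
  refine ⟨?_, ?_, ?_⟩
  · rintro s ⟨B, -, hs, -⟩
    exact hs.mono (subset_univ _)
  · intro F hF
    choose! B hB1 hB2 a ha1 ha2 using hF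
    have hsm : Small.{0} (⋃ s : ↥F, B s : Set U) := by
      have : ∀ s : ↥F, Small.{0} (B s) := fun s => hB1 s s.2
      exact small_iUnion _
    obtain ⟨c, hc⟩ := exists_pat hG hS hsm
    refine ⟨c, fun s hs => ?_⟩
    have hsub : B s ⊆ ⋃ s : ↥F, B s := fun x hx => mem_iUnion.2 ⟨⟨s, hs⟩, hx⟩
    exact (mem_schType_iff hG (hB1 s hs) (hB2 s hs) (hc.mono hsub) hS).1
      ⟨B s, hB1 s hs, hB2 s hs, a s hs, ha1 s hs, ha2 s hs⟩
  · intro s hs
    obtain ⟨B, hB1, hB2⟩ := exists_small_definable hs
    obtain ⟨c, hc⟩ := exists_pat hG hS hB1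
    by_cases h : c ∈ s
    · exact Or.inl ⟨B, hB1, hB2, c, hc, h⟩
    · exact Or.inr ⟨B, hB1, hB2.compl, c, hc, h⟩

theorem schType_inv {S : Raw (U ⊕ γ)} (hS : IsScheme ρ S) (A : Set U) :
    letI := str ρ; InvariantOver LD A (schType ρ S) := by
  letI := str ρ
  intro e _ s ⟨B, hB1, hB2, a, ha1, ha2⟩
  have hcomap : ρ.comap e.toEquiv = ρ := by
    funext σ x y z
    exact propext (rel_aut e σ x y z)
  have h1 := pat_aut hS ha1 e.toEquiv hcomap
  refine ⟨e.toEquiv '' B, small_image _ _, definable_image_aut hB2 e, _, h1, ?_⟩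
  simp only [mem_ofPred_eq]
  convert ha2 using 1
  funext i
  exact e.symm_apply_apply (a i)

theorem schType_invType (hG : Generic ρ) {S : Raw (U ⊕ γ)} (hS : IsScheme ρ S) :
    letI := str ρ; IsInvariantType LD (schType ρ S) :=
  ⟨schType_isType hG hS, ∅, by infer_instance, schType_inv hS ∅⟩

theorem realises_schType_iff (hG : Generic ρ) {S : Raw (U ⊕ γ)} (hS : IsScheme ρ S) {B : Set U}
    (hB : Small.{0} B) {a : γ → U} :
    (letI := str ρ; Realises a (restr LD (schType ρ S) B)) ↔ PatOn ρ S B a := by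
  letI := str ρ
  constructor
  · intro h
    obtain ⟨c, hc⟩ := exists_pat hG hS hB
    have hc' : Realises c (restr LD (schType ρ S) B) := fun s hs =>
      (mem_schType_iff hG hB hs.2 hc hS).1 hs.1
    obtain ⟨e, he1, he2⟩ := exists_aut (isMonster hG.K hG.S hG.E hG.H hG.big)
      (schType_isType hG hS) hB hc' h
    have hcomap : ρ.comap e.toEquiv = ρ := by
      funext σ x y z
      exact propext (rel_aut e σ x y z)
    have h1 := pat_aut hS hc e.toEquiv hcomap
    have h2 : e.toEquiv '' B = B := by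
      ext x
      constructor
      · rintro ⟨y, hy, rfl⟩
        have := he1 y hy
        rw [show e.toEquiv y = e y from rfl, this]
        exact hy
      · intro hx
        exact ⟨x, hx, he1 x hx⟩
    rw [h2] at h1
    convert h1 using 1
    funext i
    exact (he2 i).symm
  · intro h s hs
    exact (mem_schType_iff hG hB hs.2 h hS).1 hs.1

/-- Disjoint schemes. -/
theorem isScheme_sum (hK : IsK ρ) {τ : Raw γ} (hτ : IsK τ) : IsScheme ρ (sumRaw ρ τ) := by
  refine ⟨isK_sumRaw hK hτ, fun σ a b c => Iff.rfl, fun e he => ?_⟩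
  have hrel : ∀ σ a b c, ρ σ (e a) (e b) (e c) ↔ ρ σ a b c := by
    intro σ a b c
    exact iff_of_eq (congrFun (congrFun (congrFun (congrFun he σ) a) b) c)
  funext σ x y z
  rcases x with x | x <;> rcases y with y | y <;> rcases z with z | z <;> try rfl
  exact propext (hrel σ x y z)

end

end Pool.Agent.H78.Dom
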