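import Mathlib

/-!
# Invariant types, their product and domination (statement-level definitions)

`U : Type 1` is the monster model; `small` means equivalent to a type of `Type 0`, that is, of
cardinality less than the strongly inaccessible cardinal `univ.{0,1}`.
A complete type over `A ⊆ U` in the variables `α` is given by the family of the sets
`s ⊆ U^α` defined by its formulas, that is, by an ultrafilter of the Boolean algebra of the
`A`-definable subsets of `U^α`.
-/

namespace Pool.Agent.H78.Dom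

open FirstOrder Set

section
variable (L : FirstOrder.Language.{0, 0}) {U : Type 1} [L.Structure U] {α β : Type}

/-- `U` is a monster model of its theory: it is not small, it realises every finitely satisfiable
small-ly parametrised partial type in a small tuple of variables (saturation), and small tuples with
the same type over `∅` are conjugate under automorphisms (strong homogeneity). -/
structure IsMonster (U : Type 1) [L.Structure U] : Prop where
  notSmall : ¬ Small.{0} U
  saturated : ∀ (A : Set U), Small.{0} A → ∀ (α : Type) (Φ : Set (Set (α → U))),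
    (∀ s ∈ Φ, A.Definable L s) → (∀ F : Finset (Set (α → U)), (∀ s ∈ F, s ∈ Φ) →
      ∃ c : α → U, ∀ s ∈ F, c ∈ s) → ∃ c : α → U, ∀ s ∈ Φ, c ∈ s
  homogeneous : ∀ (α : Type) (a b : α → U),
    (∀ s : Set (α → U), (∅ : Set U).Definable L s → (a ∈ s ↔ b ∈ s)) →
      ∃ e : U ≃[L] U, ∀ i, e (a i) = b i

/-- `p` is a complete type over `A` in the variables `α`. -/
structure IsType (A : Set U) (p : Set (Set (α → U))) : Prop where
  definable : ∀ s ∈ p, A.Definable L s
  consistent : ∀ F : Finset (Set (α → U)), (∀ s ∈ F, s ∈ p) → ∃ c : α → U, ∀ s ∈ F, c ∈ s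
  complete : ∀ s : Set (α → U), A.Definable L s → s ∈ p ∨ sᶜ ∈ p

/-- The restriction `p|A`. -/
def restr (p : Set (Set (α → U))) (A : Set U) : Set (Set (α → U)) :=
  {s | s ∈ p ∧ A.Definable L s}

/-- The tuple `c` realises `p`. -/
def Realises (c : α → U) (p : Set (Set (α → U))) : Prop := ∀ s ∈ p, c ∈ s

/-- `p` is `Aut(U/A)`-invariant. -/
def InvariantOver (A : Set U) (p : Set (Set (α → U))) : Prop :=
  ∀ e : U ≃[L] U, (∀ a ∈ A, e a = a) → ∀ s ∈ p, {c : α → U | (fun i => e.symm (c i)) ∈ s} ∈ p

/-- `p` is a global invariant type. -/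
def IsInvariantType (p : Set (Set (α → U))) : Prop :=
  IsType L univ p ∧ ∃ A : Set U, Small.{0} A ∧ InvariantOver L A p

/-- The product `p ⊗ q`: `φ(x, y) ∈ p ⊗ q` iff `φ(x, b) ∈ p` for `b` realising `q|A`, where `A` is
a small set over which `p` is invariant and which contains the parameters of `φ`. -/
def prod (p : Set (Set (α → U))) (q : Set (Set (β → U))) : Set (Set (α ⊕ β → U)) :=
  {s | (univ : Set U).Definable L s ∧ ∀ A : Set U, Small.{0} A → InvariantOver L A p →
    A.Definable L s → ∀ b : β → U, Realises b (restr L q A) → {a | Sum.elim a b ∈ s} ∈ p}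

/-- Domination `p ≥_D q`: there are a small `A` over which `p` and `q` are invariant and
`r(x, y) ∈ S(A)` extending `(p|A)(x) ∪ (q|A)(y)` with `p(x) ∪ r(x, y) ⊢ q(y)`. -/
def Dominates (p : Set (Set (α → U))) (q : Set (Set (β → U))) : Prop :=
  ∃ A : Set U, Small.{0} A ∧ InvariantOver L A p ∧ InvariantOver L A q ∧
    ∃ r : Set (Set (α ⊕ β → U)), IsType L A r ∧
      (∀ s ∈ restr L p A, {c : α ⊕ β → U | c ∘ Sum.inl ∈ s} ∈ r) ∧
      (∀ s ∈ restr L q A, {c : α ⊕ β → U | c ∘ Sum.inr ∈ s} ∈ r) ∧
      ∀ s ∈ q, ∃ s₀ ∈ p, ∃ t ∈ r, ∀ c : α ⊕ β → U, c ∘ Sum.inl ∈ s₀ → c ∈ t → c ∘ Sum.inr ∈ s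

/-- `⊗` respects `≥_D` on the invariant types in variables from the class `C`. -/
def Respects (U : Type 1) [L.Structure U] (C : Type → Prop) : Prop :=
  ∀ (α₁ α₂ β₁ β₂ : Type), C α₁ → C α₂ → C β₁ → C β₂ →
    ∀ (p₁ : Set (Set (α₁ → U))) (p₂ : Set (Set (α₂ → U))) (q₁ : Set (Set (β₁ → U)))
      (q₂ : Set (Set (β₂ → U))), IsInvariantType L p₁ → IsInvariantType L p₂ →
      IsInvariantType L q₁ → IsInvariantType L q₂ → Dominates L p₁ q₁ → Dominates L p₂ q₂ →
      Dominates L (prod L p₁ p₂) (prod L q₁ q₂)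

end

end Pool.Agent.H78.Dom
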