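import Pool.Agent.H78.Dom.Logic
import Pool.Agent.H78.Dom.Types

/-!
# Saturation and homogeneity of the generic structure
-/

namespace Pool.Agent.H78.Dom

open FirstOrder FirstOrder.Language Set

/-- Strong homogeneity for small partial isomorphisms. -/
def Hom {U : Type 1} (ρ : Raw U) : Prop :=
  ∀ (I : Type 1) [Small.{0} I] (f g : I → U), (∀ i j, f i = f j ↔ g i = g j) →
    ρ.comap f = ρ.comap g → ∃ e : U ≃ U, (∀ i, e (f i) = g i) ∧ ρ.comap e = ρ

/-- Small structures in `K` embed over a partial embedding. -/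
def Emb {U : Type 1} (ρ : Raw U) : Prop :=
  ∀ (Q : Type 1) [Small.{0} Q] (τ : Raw Q) (_ : IsK τ) (B : Set Q) (g0 : Q → U)
    (_ : Set.InjOn g0 B)
    (_ : ∀ σ, ∀ a ∈ B, ∀ b ∈ B, ∀ c ∈ B, (ρ σ (g0 a) (g0 b) (g0 c) ↔ τ σ a b c)),
    ∃ g : Q → U, Function.Injective g ∧ Set.EqOn g g0 B ∧ ρ.comap g = τ

section
variable {U : Type 1} {ρ : Raw U}

theorem definable_rel (A : Set U) {α : Type} (σ : Sym) (f : Fin 3 → ↥A ⊕ α) :
    letI := str ρ
    A.Definable LD {c : α → U | ρ σ (Sum.elim (fun a : ↥A => (a : U)) c (f 0))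
      (Sum.elim (fun a : ↥A => (a : U)) c (f 1)) (Sum.elim (fun a : ↥A => (a : U)) c (f 2))} := by
  letI := str ρ
  rw [definable_iff_exists_formula_sum]
  let R : LD.Relations 3 := RelSym.mk σ
  refine ⟨R.formula (fun j => Term.var (f j)), ?_⟩
  ext c
  rw [mem_ofPred_eq, mem_ofPred_eq, Formula.realize_rel]
  rfl

theorem definable_eq (A : Set U) {α : Type} (i j : ↥A ⊕ α) :
    letI := str ρ
    A.Definable LD {c : α → U | Sum.elim (fun a : ↥A => (a : U)) c i =
      Sum.elim (fun a : ↥A => (a : U)) c j} := by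
  letI := str ρ
  rw [definable_iff_exists_formula_sum]
  refine ⟨(Term.var i).equal (Term.var j), ?_⟩
  ext c
  rw [mem_ofPred_eq, mem_ofPred_eq, Formula.realize_equal]
  rfl

/-- Membership in a definable set depends only on finitely many atomic facts. -/
theorem definable_close (hK : IsK ρ) (hS : SEP.{0} ρ) {A : Set U} {α : Type} {s : Set (α → U)}
    (hs : letI := str ρ; A.Definable LD s) :
    ∃ (n : ℕ) (V : Finset (↥A ⊕ α)), ∀ c c' : α → U,
      Close ρ n (fun i : ↥V => Sum.elim (fun a : ↥A => (a : U)) c i)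
        (fun i : ↥V => Sum.elim (fun a : ↥A => (a : U)) c' i) → (c ∈ s ↔ c' ∈ s) := by
  letI := str ρ
  rw [definable_iff_exists_formula_sum] at hs
  obtain ⟨φ, rfl⟩ := hs
  obtain ⟨n, V, h⟩ := realize_of_close hK hS φ
  refine ⟨n, V, fun c c' hc => ?_⟩
  have h2 := h (Sum.elim (fun a : ↥A => (a : U)) c) (Sum.elim (fun a : ↥A => (a : U)) c')
    default default
  apply h2
  have := hc.mono le_rfl (fun i : ↥V ⊕ ULift.{1} (Fin 0) =>
    (Sum.elim id (fun j => Fin.elim0 j.down) i : ↥V))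
  convert this using 1
  · funext i
    rcases i with i | i
    · rfl
    · exact Fin.elim0 i.down
  · funext i
    rcases i with i | i
    · rfl
    · exact Fin.elim0 i.down

theorem finite_idx (n : ℕ) : {σ : Sym | idx σ ≤ n}.Finite := by
  have h : {σ : Sym | idx σ ≤ n} ⊆ {Sym.y, Sym.z, Sym.d, Sym.l, Sym.t} ∪
      (Set.range (fun m : Fin (n + 1) => Sym.p m) ∪ Set.range (fun m : Fin (n + 1) => Sym.r m)) := by
    intro σ hσ
    have hσ' : idx σ ≤ n := hσ
    cases σ with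
    | y => simp
    | z => simp
    | d => simp
    | l => simp
    | t => simp
    | p m =>
      refine Or.inr (Or.inl ⟨⟨m, ?_⟩, rfl⟩)
      simp only [idx] at hσ'
      omega
    | r m =>
      refine Or.inr (Or.inr ⟨⟨m, ?_⟩, rfl⟩)
      simp only [idx] at hσ'
      omega
  refine Set.Finite.subset ?_ h
  refine Set.Finite.union ?_ ((Set.finite_range _).union (Set.finite_range _))
  exact Set.toFinite _

/-- Saturation. -/
theorem saturated (hK : IsK ρ) (hS : SEP.{0} ρ) (hE : Emb ρ) (A : Set U) (hA : Small.{0} A)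
    (α : Type) (Φ : Set (Set (α → U))) (hΦ : letI := str ρ; ∀ s ∈ Φ, A.Definable LD s)
    (hfip : ∀ F : Finset (Set (α → U)), (∀ s ∈ F, s ∈ Φ) → ∃ c : α → U, ∀ s ∈ F, c ∈ s) :
    ∃ c : α → U, ∀ s ∈ Φ, c ∈ s := by
  classical
  letI := str ρ
  have hch : ∀ F : Finset ↥Φ, ∃ c : α → U, ∀ s ∈ F, c ∈ (s : Set (α → U)) := by
    intro F
    obtain ⟨c, hc⟩ := hfip (F.image (fun s : ↥Φ => (s : Set (α → U)))) (by
      intro s hs
      obtain ⟨s', -, rfl⟩ := Finset.mem_image.1 hs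
      exact s'.2)
    exact ⟨c, fun s hs => hc _ (Finset.mem_image_of_mem _ hs)⟩
  choose cF hcF using hch
  let 𝓤 : Ultrafilter (Finset ↥Φ) := Ultrafilter.of Filter.atTop
  have h𝓤 : ∀ s : ↥Φ, ∀ᶠ F in (𝓤 : Filter (Finset ↥Φ)), cF F ∈ (s : Set (α → U)) := by
    intro s
    have h1 : ∀ᶠ F in (Filter.atTop : Filter (Finset ↥Φ)), {s} ≤ F := Filter.eventually_ge_atTop _
    have h2 := (Ultrafilter.of_le (Filter.atTop : Filter (Finset ↥Φ))) h1
    refine Filter.Eventually.mono h2 ?_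
    intro F hF
    exact hcF F s (by simpa using hF)
  -- the limit structure
  let v : Finset ↥Φ → (↥A ⊕ α) → U := fun F => Sum.elim (fun a : ↥A => (a : U)) (cF F)
  let E : Setoid (↥A ⊕ α) := ⟨fun x y => ∀ᶠ F in (𝓤 : Filter (Finset ↥Φ)), v F x = v F y,
    ⟨fun _ => Filter.Eventually.of_forall fun _ => rfl, fun h => h.mono fun _ h => h.symm,
      fun h h' => (h.and h').mono fun _ h => h.1.trans h.2⟩⟩
  let Q := Quotient E
  let τ : Raw Q := fun σ a b c => ∀ᶠ F in (𝓤 : Filter (Finset ↥Φ)),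
    ρ σ (v F a.out) (v F b.out) (v F c.out)
  have hτ : ∀ σ x y w, τ σ (Quotient.mk E x) (Quotient.mk E y) (Quotient.mk E w) ↔
      ∀ᶠ F in (𝓤 : Filter (Finset ↥Φ)), ρ σ (v F x) (v F y) (v F w) := by
    intro σ x y w
    have hx : ∀ᶠ F in (𝓤 : Filter (Finset ↥Φ)), v F (Quotient.mk E x).out = v F x :=
      Quotient.mk_out (s := E) x
    have hy : ∀ᶠ F in (𝓤 : Filter (Finset ↥Φ)), v F (Quotient.mk E y).out = v F y :=
      Quotient.mk_out (s := E) y
    have hw : ∀ᶠ F in (𝓤 : Filter (Finset ↥Φ)), v F (Quotient.mk E w).out = v F w :=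
      Quotient.mk_out (s := E) w
    constructor
    · intro h
      refine (((hx.and hy).and hw).and h).mono ?_
      rintro F ⟨⟨⟨h1, h2⟩, h3⟩, h4⟩
      rwa [h1, h2, h3] at h4
    · intro h
      refine (((hx.and hy).and hw).and h).mono ?_
      rintro F ⟨⟨⟨h1, h2⟩, h3⟩, h4⟩
      rwa [← h1, ← h2, ← h3] at h4
  have heq : ∀ a b : Q, (∀ᶠ F in (𝓤 : Filter (Finset ↥Φ)), v F a.out = v F b.out) → a = b := by
    intro a b h
    have h2 : Quotient.mk E a.out = Quotient.mk E b.out := Quotient.sound h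
    rwa [Quotient.out_eq, Quotient.out_eq] at h2
  have hKτ : IsK τ := by
    refine
      { y_diag := ?_, z_diag := ?_, p_diag := ?_, yz := ?_, py := ?_, pz := ?_, pp := ?_,
        d_diag := ?_, d_ne := ?_, d_symm := ?_, d_y := ?_, d_z := ?_, l_diag := ?_, l_y := ?_,
        l_y2 := ?_, l_z2 := ?_, t_y := ?_, t_z := ?_, t_z2 := ?_, t_z3 := ?_, r_y := ?_,
        r_z2 := ?_, r_z3 := ?_, c1 := ?_, c2 := ?_ }
    · exact fun a b c h => ⟨heq _ _ (h.mono fun F h => (hK.y_diag _ _ _ h).1),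
        heq _ _ (h.mono fun F h => (hK.y_diag _ _ _ h).2)⟩
    · exact fun a b c h => ⟨heq _ _ (h.mono fun F h => (hK.z_diag _ _ _ h).1),
        heq _ _ (h.mono fun F h => (hK.z_diag _ _ _ h).2)⟩
    · exact fun m a b c h => ⟨heq _ _ (h.mono fun F h => (hK.p_diag _ _ _ _ h).1),
        heq _ _ (h.mono fun F h => (hK.p_diag _ _ _ _ h).2)⟩
    · intro a h1 h2
      obtain ⟨F, h3, h4⟩ := (h1.and h2).exists
      exact hK.yz _ h3 h4
    · intro m a h1 h2
      obtain ⟨F, h3, h4⟩ := (h1.and h2).exists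
      exact hK.py _ _ h3 h4
    · intro m a h1 h2
      obtain ⟨F, h3, h4⟩ := (h1.and h2).exists
      exact hK.pz _ _ h3 h4
    · intro m n a h1 h2
      obtain ⟨F, h3, h4⟩ := (h1.and h2).exists
      exact hK.pp _ _ _ h3 h4
    · exact fun a b c h => heq _ _ (h.mono fun F h => hK.d_diag _ _ _ h)
    · intro a b c h hab
      obtain ⟨F, h3⟩ := h.exists
      exact hK.d_ne _ _ _ h3 (by rw [hab])
    · exact fun a b h => h.mono fun F h => hK.d_symm _ _ h
    · intro a b c h1 h2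
      obtain ⟨F, h3, h4⟩ := (h1.and h2).exists
      exact hK.d_y _ _ _ h3 h4
    · intro a b c h1 h2
      obtain ⟨F, h3, h4⟩ := (h1.and h2).exists
      exact hK.d_z _ _ _ h3 h4
    · exact fun a b c h => heq _ _ (h.mono fun F h => hK.l_diag _ _ _ h)
    · exact fun a b c h => h.mono fun F h => hK.l_y _ _ _ h
    · intro a b c h1 h2
      obtain ⟨F, h3, h4⟩ := (h1.and h2).exists
      exact hK.l_y2 _ _ _ h3 h4
    · intro a b c h1 h2
      obtain ⟨F, h3, h4⟩ := (h1.and h2).exists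
      exact hK.l_z2 _ _ _ h3 h4
    · intro a b c h1 h2
      obtain ⟨F, h3, h4⟩ := (h1.and h2).exists
      exact hK.t_y _ _ _ h3 h4
    · intro a b c h1 h2
      obtain ⟨F, h3, h4⟩ := (h1.and h2).exists
      exact hK.t_z _ _ _ h3 h4
    · exact fun a b c h => h.mono fun F h => hK.t_z2 _ _ _ h
    · exact fun a b c h => h.mono fun F h => hK.t_z3 _ _ _ h
    · exact fun m a b c h => h.mono fun F h => hK.r_y _ _ _ _ h
    · exact fun m a b c h => h.mono fun F h => hK.r_z2 _ _ _ _ h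
    · exact fun m a b c h => h.mono fun F h => hK.r_z3 _ _ _ _ h
    · intro a b c h1 h2 h3
      obtain ⟨F, ⟨h4, h5⟩, h6⟩ := ((h1.and h2).and h3).exists
      exact hK.c1 _ _ _ h4 h5 h6
    · intro m a b c e h1 h2 h3 h3'
      obtain ⟨F, ⟨⟨h4, h5⟩, h6⟩, h7⟩ := (((h1.and h2).and h3).and h3').exists
      exact hK.c2 _ _ _ _ _ h4 h5 h6 h7
  -- embed
  have hsm : Small.{0} Q := by
    have : Small.{0} (↥A ⊕ α) := small_sum
    exact small_of_surjective Quotient.mk_surjective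
  let B : Set Q := Set.range (fun a : ↥A => Quotient.mk E (Sum.inl a))
  have hinl : ∀ a b : ↥A, Quotient.mk E (Sum.inl a) = Quotient.mk E (Sum.inl b) → a = b := by
    intro a b hab
    have h1 : ∀ᶠ F in (𝓤 : Filter (Finset ↥Φ)), v F (Sum.inl a) = v F (Sum.inl b) :=
      Quotient.exact hab
    obtain ⟨F, h2⟩ := h1.exists
    exact Subtype.ext h2
  by_cases hAne : Nonempty U
  swap
  · -- degenerate case: `U` is empty
    obtain ⟨b, -, -⟩ := hS PEmpty.{2} (fun i => i.elim) (fun i => i.elim)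
      (fun _ _ _ _ => False) (by
        constructor <;> simp) (by funext σ a; exact a.elim)
    exact absurd ⟨b⟩ hAne
  let g0 : Q → U := fun q => if h : ∃ a : ↥A, Quotient.mk E (Sum.inl a) = q then (h.choose : U)
    else Classical.choice hAne
  have hg0 : ∀ a : ↥A, g0 (Quotient.mk E (Sum.inl a)) = a := by
    intro a
    have hex : ∃ a' : ↥A, Quotient.mk E (Sum.inl a') = Quotient.mk E (Sum.inl a) := ⟨a, rfl⟩
    have h1 : g0 (Quotient.mk E (Sum.inl a)) = (hex.choose : U) := dif_pos hex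
    rw [h1, hinl _ _ hex.choose_spec]
  obtain ⟨g, hg1, hg2, hg3⟩ := hE Q τ hKτ B g0
    (by
      rintro _ ⟨a, rfl⟩ _ ⟨b, rfl⟩ hab
      simp only at hab
      rw [hg0, hg0] at hab
      rw [Subtype.ext hab])
    (by
      rintro σ _ ⟨a, rfl⟩ _ ⟨b, rfl⟩ _ ⟨c, rfl⟩
      simp only
      rw [hg0, hg0, hg0, hτ]
      exact (Filter.eventually_const (f := (𝓤 : Filter (Finset ↥Φ)))).symm)
  refine ⟨fun i => g (Quotient.mk E (Sum.inr i)), fun s hs => ?_⟩
  have hgv : ∀ x : ↥A ⊕ α, Sum.elim (fun a : ↥A => (a : U))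
      (fun i => g (Quotient.mk E (Sum.inr i))) x = g (Quotient.mk E x) := by
    intro x
    rcases x with a | i
    · have : g (Quotient.mk E (Sum.inl a)) = g0 (Quotient.mk E (Sum.inl a)) := hg2 ⟨a, rfl⟩
      rw [this, hg0]
      rfl
    · rfl
  obtain ⟨n, V, hV⟩ := definable_close hK hS (hΦ s hs)
  have hev : ∀ᶠ F in (𝓤 : Filter (Finset ↥Φ)), Close ρ n
      (fun i : ↥V => Sum.elim (fun a : ↥A => (a : U)) (cF F) i)
      (fun i : ↥V => Sum.elim (fun a : ↥A => (a : U))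
        (fun i => g (Quotient.mk E (Sum.inr i))) i) := by
    have h1 : ∀ i j : ↥V, ∀ᶠ F in (𝓤 : Filter (Finset ↥Φ)),
        (v F i = v F j ↔ g (Quotient.mk E (i : ↥A ⊕ α)) = g (Quotient.mk E (j : ↥A ⊕ α))) := by
      intro i j
      by_cases hij : ∀ᶠ F in (𝓤 : Filter (Finset ↥Φ)), v F i = v F j
      · have : Quotient.mk E (i : ↥A ⊕ α) = Quotient.mk E (j : ↥A ⊕ α) := Quotient.sound hij
        rw [this]
        exact hij.mono fun F h => by simpa using h
      · have h2 : g (Quotient.mk E (i : ↥A ⊕ α)) ≠ g (Quotient.mk E (j : ↥A ⊕ α)) := by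
          intro h
          exact hij (Quotient.exact (hg1 h))
        have h3 := Ultrafilter.eventually_not.2 hij
        exact h3.mono fun F h => by simp [h, h2]
    have h2 : ∀ (σ : Sym) (i j k : ↥V), ∀ᶠ F in (𝓤 : Filter (Finset ↥Φ)),
        (ρ σ (v F i) (v F j) (v F k) ↔ ρ σ (g (Quotient.mk E (i : ↥A ⊕ α)))
          (g (Quotient.mk E (j : ↥A ⊕ α))) (g (Quotient.mk E (k : ↥A ⊕ α)))) := by
      intro σ i j k
      have h3 : ρ σ (g (Quotient.mk E (i : ↥A ⊕ α)))
          (g (Quotient.mk E (j : ↥A ⊕ α))) (g (Quotient.mk E (k : ↥A ⊕ α))) ↔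
          ∀ᶠ F in (𝓤 : Filter (Finset ↥Φ)), ρ σ (v F i) (v F j) (v F k) := by
        rw [← hτ, ← hg3]
        rfl
      by_cases hij : ∀ᶠ F in (𝓤 : Filter (Finset ↥Φ)), ρ σ (v F i) (v F j) (v F k)
      · exact hij.mono fun F h => ⟨fun _ => h3.2 hij, fun _ => h⟩
      · have h4 := Ultrafilter.eventually_not.2 hij
        exact h4.mono fun F h => ⟨fun h' => absurd h' h, fun h' => absurd (h3.1 h') hij⟩
    have h3 : ∀ᶠ F in (𝓤 : Filter (Finset ↥Φ)), ∀ i j : ↥V,
        (v F i = v F j ↔ g (Quotient.mk E (i : ↥A ⊕ α)) = g (Quotient.mk E (j : ↥A ⊕ α))) :=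
      Filter.eventually_all.2 fun i => Filter.eventually_all.2 fun j => h1 i j
    have h4 : ∀ᶠ F in (𝓤 : Filter (Finset ↥Φ)), ∀ σ ∈ {σ : Sym | idx σ ≤ n}, ∀ i j k : ↥V,
        (ρ σ (v F i) (v F j) (v F k) ↔ ρ σ (g (Quotient.mk E (i : ↥A ⊕ α)))
          (g (Quotient.mk E (j : ↥A ⊕ α))) (g (Quotient.mk E (k : ↥A ⊕ α)))) := by
      rw [Filter.eventually_all_finite (finite_idx n)]
      intro σ _
      exact Filter.eventually_all.2 fun i => Filter.eventually_all.2 fun j =>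
        Filter.eventually_all.2 fun k => h2 σ i j k
    refine (h3.and h4).mono ?_
    rintro F ⟨h5, h6⟩
    refine ⟨fun i j => ?_, fun σ hσ i j k => ?_⟩
    · rw [hgv, hgv]
      exact h5 i j
    · rw [hgv, hgv, hgv]
      exact h6 σ hσ i j k
  obtain ⟨F, h1, h2⟩ := (hev.and (h𝓤 ⟨s, hs⟩)).exists
  exact (hV _ _ h1).1 h2

/-- An automorphism from a bijection preserving the raw structure. -/
def autOf (e : U ≃ U) (he : ρ.comap e = ρ) : letI := str ρ; U ≃[LD] U :=
  letI := str ρ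
  { e with
    map_fun' := fun f => Empty.elim f
    map_rel' := fun {_} R x => by
      cases R with
      | mk σ =>
        have := congrFun (congrFun (congrFun (congrFun he σ) (x 0)) (x 1)) (x 2)
        exact iff_of_eq this }

theorem rel_aut (e : letI := str ρ; U ≃[LD] U) (σ : Sym) (a b c : U) :
    ρ σ (e a) (e b) (e c) ↔ ρ σ a b c := by
  letI := str ρ
  have := e.map_rel (RelSym.mk σ : LD.Relations 3) ![a, b, c]
  exact this

/-- The generic structure is a monster model. -/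
theorem isMonster (hK : IsK ρ) (hS : SEP.{0} ρ) (hE : Emb ρ) (hH : Hom ρ)
    (hU : ¬ Small.{0} U) : letI := str ρ; IsMonster LD U := by
  letI := str ρ
  refine ⟨hU, fun A hA α Φ h1 h2 => saturated hK hS hE A hA α Φ h1 h2, ?_⟩
  intro α a b hab
  have h1 : ∀ i j, a i = a j ↔ b i = b j := by
    intro i j
    have := hab _ (definable_eq (ρ := ρ) ∅ (Sum.inr i) (Sum.inr j))
    exact this
  have h2 : ∀ σ i j k, ρ σ (a i) (a j) (a k) ↔ ρ σ (b i) (b j) (b k) := by
    intro σ i j k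
    have := hab _ (definable_rel (ρ := ρ) ∅ σ ![Sum.inr i, Sum.inr j, Sum.inr k])
    exact this
  obtain ⟨e, he1, he2⟩ := hH (ULift.{1} α) (fun i => a i.down) (fun i => b i.down)
    (fun i j => h1 _ _) (by
      funext σ i j k
      exact propext (h2 σ _ _ _))
  exact ⟨autOf e he2, fun i => he1 ⟨i⟩⟩

end

end Pool.Agent.H78.Dom
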