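import Pool.Agent.H78.Dom.Finitary

/-!
# The star-type counterexample
-/

namespace Pool.Agent.H78.Dom

open FirstOrder FirstOrder.Language Set

/-- A single point of the sort `Y`. -/
def yRaw (γ : Type) : Raw γ := fun σ i j k => σ = .y ∧ i = j ∧ j = k

theorem isK_y (γ : Type) : IsK (yRaw γ) := by
  constructor <;> simp [yRaw] <;> tauto

/-- The scheme of the type `p(x_0, x_1, …)`. -/
def schP {U : Type 1} (ρ : Raw U) : Raw (U ⊕ ℕ) := fun σ x y z =>
  match x, y, z with
  | .inl x, .inl y, .inl z => ρ σ x y z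
  | .inr i, .inr j, .inr k => σ = .p i ∧ i = j ∧ j = k
  | .inr _, .inl u, .inl v => (σ = .d ∧ u = v ∧ ¬ ρ .y u u u ∧ ¬ ρ .z u u u) ∨
      (σ = .t ∧ ρ .z u u u ∧ ρ .z v v v)
  | .inl u, .inr i, .inr j => σ = .d ∧ i = j ∧ ¬ ρ .y u u u ∧ ¬ ρ .z u u u
  | _, _, _ => False

theorem isK_schP {U : Type 1} {ρ : Raw U} (h : IsK ρ) : IsK (schP ρ) := by
  constructor
  · intro a b c
    rcases a with a | a <;> rcases b with b | b <;> rcases c with c | c <;> simp [schP]
    exact h.y_diag a b c
  · intro a b c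
    rcases a with a | a <;> rcases b with b | b <;> rcases c with c | c <;> simp [schP]
    exact h.z_diag a b c
  · intro m a b c
    rcases a with a | a <;> rcases b with b | b <;> rcases c with c | c <;> simp [schP]
    · exact h.p_diag m a b c
  · intro a
    rcases a with a | a <;> simp [schP]
    exact h.yz a
  · intro m a
    rcases a with a | a <;> simp [schP]
    exact h.py m a
  · intro m a
    rcases a with a | a <;> simp [schP]
    exact h.pz m a
  · intro m n a
    rcases a with a | a <;> simp [schP]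
    · exact h.pp m n a
    · intro h1 h2; rw [h1, h2]
  · intro a b c
    rcases a with a | a <;> rcases b with b | b <;> rcases c with c | c <;> simp [schP]
    · exact h.d_diag a b c
    · intro h1 _ _; exact h1
    · intro h1 _ _; exact h1
  · intro a b c
    rcases a with a | a <;> rcases b with b | b <;> rcases c with c | c <;> simp [schP]
    exact h.d_ne a b c
  · intro a b
    rcases a with a | a <;> rcases b with b | b <;> simp [schP]
    · exact h.d_symm a b
  · intro a b c
    rcases a with a | a <;> rcases b with b | b <;> rcases c with c | c <;> simp [schP]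
    · exact h.d_y a b c
    · intro _ h1 _; exact h1
  · intro a b c
    rcases a with a | a <;> rcases b with b | b <;> rcases c with c | c <;> simp [schP]
    · exact h.d_z a b c
  · intro a b c
    rcases a with a | a <;> rcases b with b | b <;> rcases c with c | c <;> simp [schP]
    exact h.l_diag a b c
  · intro a b c
    rcases a with a | a <;> rcases b with b | b <;> rcases c with c | c <;> simp [schP]
    exact h.l_y a b c
  · intro a b c
    rcases a with a | a <;> rcases b with b | b <;> rcases c with c | c <;> simp [schP]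
    exact h.l_y2 a b c
  · intro a b c
    rcases a with a | a <;> rcases b with b | b <;> rcases c with c | c <;> simp [schP]
    exact h.l_z2 a b c
  · intro a b c
    rcases a with a | a <;> rcases b with b | b <;> rcases c with c | c <;> simp [schP]
    exact h.t_y a b c
  · intro a b c
    rcases a with a | a <;> rcases b with b | b <;> rcases c with c | c <;> simp [schP]
    exact h.t_z a b c
  · intro a b c
    rcases a with a | a <;> rcases b with b | b <;> rcases c with c | c <;> simp [schP]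
    · exact h.t_z2 a b c
    · intro h1 _; exact h1
  · intro a b c
    rcases a with a | a <;> rcases b with b | b <;> rcases c with c | c <;> simp [schP]
    · exact h.t_z3 a b c
  · intro m a b c
    rcases a with a | a <;> rcases b with b | b <;> rcases c with c | c <;> simp [schP]
    exact h.r_y m a b c
  · intro m a b c
    rcases a with a | a <;> rcases b with b | b <;> rcases c with c | c <;> simp [schP]
    exact h.r_z2 m a b c
  · intro m a b c
    rcases a with a | a <;> rcases b with b | b <;> rcases c with c | c <;> simp [schP]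
    exact h.r_z3 m a b c
  · intro a b c
    rcases a with a | a <;> rcases b with b | b <;> rcases c with c | c <;> simp [schP]
    exact h.c1 a b c
  · intro m a b c e
    rcases a with a | a <;> rcases b with b | b <;> rcases c with c | c <;>
      rcases e with e | e <;> simp [schP]
    exact h.c2 m a b c e

theorem isScheme_P {U : Type 1} {ρ : Raw U} (hK : IsK ρ) : IsScheme ρ (schP ρ) := by
  refine ⟨isK_schP hK, fun σ a b c => Iff.rfl, fun e he => ?_⟩
  have hrel : ∀ σ a b c, ρ σ (e a) (e b) (e c) ↔ ρ σ a b c := by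
    intro σ a b c
    exact iff_of_eq (congrFun (congrFun (congrFun (congrFun he σ) a) b) c)
  funext σ x y z
  apply propext
  rcases x with x | x <;> rcases y with y | y <;> rcases z with z | z <;>
    simp [Raw.comap, schP, hrel]

/-- The type `r`: `x_k` in `P_k`, `y` in `Y`, `y` is linked to every `x_k`. -/
def rRaw : Raw (ℕ ⊕ Unit) := fun σ x y z =>
  match x, y, z with
  | .inl i, .inl j, .inl k => σ = .p i ∧ i = j ∧ j = k
  | .inr _, .inr _, .inr _ => σ = .y
  | .inr _, .inl j, .inl k => σ = .l ∧ j = k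
  | _, _, _ => False

theorem isK_rRaw : IsK rRaw := by
  constructor
  · intro a b c
    rcases a with a | a <;> rcases b with b | b <;> rcases c with c | c <;> simp [rRaw]
  · intro a b c
    rcases a with a | a <;> rcases b with b | b <;> rcases c with c | c <;> simp [rRaw]
  · intro m a b c
    rcases a with a | a <;> rcases b with b | b <;> rcases c with c | c <;> simp [rRaw]
  · intro a
    rcases a with a | a <;> simp [rRaw]
  · intro m a
    rcases a with a | a <;> simp [rRaw]
  · intro m a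
    rcases a with a | a <;> simp [rRaw]
  · intro m n a
    rcases a with a | a <;> simp [rRaw]
    intro h1 h2; rw [h1, h2]
  · intro a b c
    rcases a with a | a <;> rcases b with b | b <;> rcases c with c | c <;> simp [rRaw]
  · intro a b c
    rcases a with a | a <;> rcases b with b | b <;> rcases c with c | c <;> simp [rRaw]
  · intro a b
    rcases a with a | a <;> rcases b with b | b <;> simp [rRaw]
  · intro a b c
    rcases a with a | a <;> rcases b with b | b <;> rcases c with c | c <;> simp [rRaw]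
  · intro a b c
    rcases a with a | a <;> rcases b with b | b <;> rcases c with c | c <;> simp [rRaw]
  · intro a b c
    rcases a with a | a <;> rcases b with b | b <;> rcases c with c | c <;> simp [rRaw]
  · intro a b c
    rcases a with a | a <;> rcases b with b | b <;> rcases c with c | c <;> simp [rRaw]
  · intro a b c
    rcases a with a | a <;> rcases b with b | b <;> rcases c with c | c <;> simp [rRaw]
  · intro a b c
    rcases a with a | a <;> rcases b with b | b <;> rcases c with c | c <;> simp [rRaw]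
  · intro a b c
    rcases a with a | a <;> rcases b with b | b <;> rcases c with c | c <;> simp [rRaw]
  · intro a b c
    rcases a with a | a <;> rcases b with b | b <;> rcases c with c | c <;> simp [rRaw]
  · intro a b c
    rcases a with a | a <;> rcases b with b | b <;> rcases c with c | c <;> simp [rRaw]
  · intro a b c
    rcases a with a | a <;> rcases b with b | b <;> rcases c with c | c <;> simp [rRaw]
  · intro m a b c
    rcases a with a | a <;> rcases b with b | b <;> rcases c with c | c <;> simp [rRaw]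
  · intro m a b c
    rcases a with a | a <;> rcases b with b | b <;> rcases c with c | c <;> simp [rRaw]
  · intro m a b c
    rcases a with a | a <;> rcases b with b | b <;> rcases c with c | c <;> simp [rRaw]
  · intro a b c
    rcases a with a | a <;> rcases b with b | b <;> rcases c with c | c <;> simp [rRaw]
  · intro m a b c e
    rcases a with a | a <;> rcases b with b | b <;> rcases c with c | c <;>
      rcases e with e | e <;> simp [rRaw]

section
variable {U : Type 1} {ρ : Raw U}

/-- The type `p`. -/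
def tyP (ρ : Raw U) : Set (Set (ℕ → U)) := schType ρ (schP ρ)
/-- The type `q`. -/
def tyQ (ρ : Raw U) : Set (Set (Unit → U)) := schType ρ (sumRaw ρ (yRaw Unit))
/-- The type `s`. -/
def tyS (ρ : Raw U) : Set (Set (Unit → U)) := schType ρ (sumRaw ρ (zRaw Unit))

theorem exists_raw (hG : Generic ρ) {γ : Type} {τ : Raw γ} (hτ : IsK τ) :
    ∃ a : γ → U, Function.Injective a ∧ ∀ σ x y z, ρ σ (a x) (a y) (a z) ↔ τ σ x y z := by
  obtain ⟨a, ha⟩ := exists_pat hG (isScheme_sum hG.K hτ) (A := ∅) (by infer_instance)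
  exact ⟨a, ha.inj, fun σ x y z => ha.2 σ (.inr x) (.inr y) (.inr z)⟩

theorem dominates_pq (hG : Generic ρ) : letI := str ρ; Dominates LD (tyP ρ) (tyQ ρ) := by
  classical
  let _ := str ρ
  have hM := isMonster hG.K hG.S hG.E hG.H hG.big
  have hSP := isScheme_P (ρ := ρ) hG.K
  have hSQ := isScheme_sum (ρ := ρ) hG.K (isK_y Unit)
  obtain ⟨c0, hc0i, hc0⟩ := exists_raw hG isK_rRaw
  have hes : Small.{0} (∅ : Set U) := by infer_instance
  have hpatP : PatOn ρ (schP ρ) ∅ (c0 ∘ Sum.inl) := by
    refine ⟨?_, ?_⟩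
    · rintro (x | x) (y | y) hxy
      · exact x.2.elim
      · exact x.2.elim
      · exact y.2.elim
      · rw [Sum.inl_injective (hc0i hxy)]
    · rintro σ (x | x) (y | y) (z | z)
      · exact x.2.elim
      · exact x.2.elim
      · exact x.2.elim
      · exact x.2.elim
      · exact y.2.elim
      · exact y.2.elim
      · exact z.2.elim
      · exact hc0 σ (.inl x) (.inl y) (.inl z)
  have hpatQ : PatOn ρ (sumRaw ρ (yRaw Unit)) ∅ (c0 ∘ Sum.inr) := by
    refine ⟨?_, ?_⟩
    · rintro (x | x) (y | y) hxy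
      · exact x.2.elim
      · exact x.2.elim
      · exact y.2.elim
      · rfl
    · rintro σ (x | x) (y | y) (z | z)
      · exact x.2.elim
      · exact x.2.elim
      · exact x.2.elim
      · exact x.2.elim
      · exact y.2.elim
      · exact y.2.elim
      · exact z.2.elim
      · refine (hc0 σ (.inr x) (.inr y) (.inr z)).trans ?_
        simp [rRaw, sumRaw, yRaw]
  refine ⟨∅, hes, schType_inv hSP ∅, schType_inv hSQ ∅,
    {s | (∅ : Set U).Definable LD s ∧ c0 ∈ s}, ⟨fun s hs => hs.1, ?_, ?_⟩, ?_, ?_, ?_⟩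
  · intro F hF
    exact ⟨c0, fun s hs => (hF s hs).2⟩
  · intro s hs
    by_cases h : c0 ∈ s
    · exact Or.inl ⟨hs, h⟩
    · exact Or.inr ⟨hs.compl, h⟩
  · intro s hs
    exact ⟨hs.2.preimage_comp Sum.inl, (mem_schType_iff hG hes hs.2 hpatP hSP).1 hs.1⟩
  · intro s hs
    exact ⟨hs.2.preimage_comp Sum.inr, (mem_schType_iff hG hes hs.2 hpatQ hSQ).1 hs.1⟩
  · -- entailment
    intro s hs
    have hpt := schType_isType hG hSP
    have hqt := schType_isType hG hSQ
    obtain ⟨B, hB, hsB⟩ := exists_small_definable (hqt.definable s hs)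
    by_contra hcon
    push Not at hcon
    -- realise everything
    let Φ : Set (Set (ℕ ⊕ Unit → U)) := {t | (∃ s₀ ∈ restr LD (tyP ρ) B, t = {c | c ∘ Sum.inl ∈ s₀}) ∨
      ((∅ : Set U).Definable LD t ∧ c0 ∈ t) ∨ t = {c | c ∘ Sum.inr ∉ s}}
    have hclaim : ∀ F : Finset (Set (ℕ ⊕ Unit → U)), (∀ t ∈ F, t ∈ Φ) →
        ∃ s₀ ∈ tyP ρ, ∃ t₀ : Set (ℕ ⊕ Unit → U), ((∅ : Set U).Definable LD t₀ ∧ c0 ∈ t₀) ∧
          ∀ c : ℕ ⊕ Unit → U, c ∘ Sum.inl ∈ s₀ → c ∈ t₀ → c ∘ Sum.inr ∉ s → ∀ t ∈ F, c ∈ t := by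
      intro F
      induction F using Finset.induction_on with
      | empty =>
        intro _
        exact ⟨univ, hpt.univ_mem, univ, ⟨definable_univ, mem_univ _⟩, by simp⟩
      | insert t F _ ih =>
        intro hF
        obtain ⟨s₀, hs₀, t₀, ⟨ht₀, ht₀'⟩, h⟩ := ih fun t ht => hF t (Finset.mem_insert_of_mem ht)
        rcases hF t (Finset.mem_insert_self _ _) with ⟨s₁, hs₁, rfl⟩ | ⟨h1, h2⟩ | rfl
        · refine ⟨s₀ ∩ s₁, hpt.inter_mem hs₀ hs₁.1, t₀, ⟨ht₀, ht₀'⟩, ?_⟩
          intro c hc1 hc2 hc3 t ht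
          rcases Finset.mem_insert.1 ht with rfl | ht
          · exact hc1.2
          · exact h c hc1.1 hc2 hc3 t ht
        · refine ⟨s₀, hs₀, t₀ ∩ t, ⟨ht₀.inter h1, ht₀', h2⟩, ?_⟩
          intro c hc1 hc2 hc3 t' ht'
          rcases Finset.mem_insert.1 ht' with rfl | ht'
          · exact hc2.2
          · exact h c hc1 hc2.1 hc3 t' ht'
        · refine ⟨s₀, hs₀, t₀, ⟨ht₀, ht₀'⟩, ?_⟩
          intro c hc1 hc2 hc3 t ht
          rcases Finset.mem_insert.1 ht with rfl | ht
          · exact hc3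
          · exact h c hc1 hc2 hc3 t ht
    obtain ⟨c, hc⟩ := hM.saturated B hB (ℕ ⊕ Unit) Φ (by
      rintro t (⟨s₀, hs₀, rfl⟩ | ⟨h1, -⟩ | rfl)
      · exact hs₀.2.preimage_comp Sum.inl
      · exact h1.mono (empty_subset _)
      · exact (hsB.preimage_comp Sum.inr).compl) (by
      intro F hF
      obtain ⟨s₀, hs₀, t₀, ht₀, h⟩ := hclaim F hF
      obtain ⟨c, h1, h2, h3⟩ := hcon s₀ hs₀ t₀ ht₀
      exact ⟨c, h c h1 h2 h3⟩)
    have hcP : PatOn ρ (schP ρ) B (c ∘ Sum.inl) := by
      rw [← realises_schType_iff hG hSP hB]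
      intro s₀ hs₀
      exact hc _ (Or.inl ⟨s₀, hs₀, rfl⟩)
    have hcr : ∀ σ x y z, ρ σ (c x) (c y) (c z) ↔ rRaw σ x y z := by
      intro σ x y z
      have hd : (∅ : Set U).Definable LD {c : ℕ ⊕ Unit → U | ρ σ (c x) (c y) (c z)} :=
        definable_rel (ρ := ρ) ∅ σ ![Sum.inr x, Sum.inr y, Sum.inr z]
      rw [← hc0]
      by_cases h : ρ σ (c0 x) (c0 y) (c0 z)
      · exact iff_of_true (hc _ (Or.inr (Or.inl ⟨hd, h⟩))) h
      · exact iff_of_false (hc _ (Or.inr (Or.inl ⟨hd.compl, h⟩))) h
    -- facts on `c (inr ())`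
    let b : U := c (Sum.inr ())
    have hby : ρ .y b b b := (hcr .y (.inr ()) (.inr ()) (.inr ())).2 rfl
    have hbl : ∀ k : ℕ, ρ .l b (c (.inl k)) (c (.inl k)) := fun k =>
      (hcr .l (.inr ()) (.inl k) (.inl k)).2 ⟨rfl, rfl⟩
    have hap : ∀ k : ℕ, ρ (.p k) (c (.inl k)) (c (.inl k)) (c (.inl k)) := fun k =>
      (hcr (.p k) (.inl k) (.inl k) (.inl k)).2 ⟨rfl, rfl, rfl⟩
    have had : ∀ u ∈ B, ¬ ρ .y u u u → ¬ ρ .z u u u → ∀ k : ℕ, ρ .d (c (.inl k)) u u := by
      intro u hu h1 h2 k
      exact (hcP.2 .d (.inr k) (.inl ⟨u, hu⟩) (.inl ⟨u, hu⟩)).2 (Or.inl ⟨rfl, rfl, h1, h2⟩)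
    have hat : ∀ u ∈ B, ∀ v ∈ B, ρ .z u u u → ρ .z v v v → ∀ k : ℕ, ρ .t (c (.inl k)) u v := by
      intro u hu v hv h1 h2 k
      exact (hcP.2 .t (.inr k) (.inl ⟨u, hu⟩) (.inl ⟨v, hv⟩)).2 (Or.inr ⟨rfl, h1, h2⟩)
    have hal : ∀ u ∈ B, ∀ k : ℕ, ¬ ρ .l u (c (.inl k)) (c (.inl k)) := by
      intro u hu k h
      have := (hcP.2 .l (.inl ⟨u, hu⟩) (.inr k) (.inr k)).1 h
      simp [schP] at this
    have hbB : b ∉ B := fun h => hal b h 0 (hbl 0)
    have hK := hG.K
    have hcQ : PatOn ρ (sumRaw ρ (yRaw Unit)) B (c ∘ Sum.inr) := by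
      have hne : ∀ x : ↥B, (x : U) ≠ b := fun x h => hbB (h ▸ x.2)
      refine ⟨?_, ?_⟩
      · rintro (x | x) (y | y) hxy
        · congr 1; exact Subtype.ext hxy
        · exact absurd hxy (hne x)
        · exact absurd hxy.symm (hne y)
        · rfl
      · -- all relations of `b` with `B`
        have key : ∀ σ (x y z : U), (x ∈ B ∨ x = b) → (y ∈ B ∨ y = b) → (z ∈ B ∨ z = b) →
            (x = b ∨ y = b ∨ z = b) → (ρ σ x y z ↔ σ = .y ∧ x = b ∧ y = b ∧ z = b) := by
          intro σ x y z hx hy hz hb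
          constructor
          swap
          · rintro ⟨rfl, rfl, rfl, rfl⟩
            exact hby
          intro h
          cases σ with
          | y =>
            obtain ⟨rfl, rfl⟩ := hK.y_diag _ _ _ h
            rcases hb with rfl | rfl | rfl <;> exact ⟨rfl, rfl, rfl, rfl⟩
          | z =>
            exfalso
            obtain ⟨rfl, rfl⟩ := hK.z_diag _ _ _ h
            have : x = b := by tauto
            subst this
            exact hK.yz _ hby h
          | p m =>
            exfalso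
            obtain ⟨rfl, rfl⟩ := hK.p_diag _ _ _ _ h
            have : x = b := by tauto
            subst this
            exact hK.py _ _ h hby
          | d =>
            exfalso
            have h1 := hK.d_diag _ _ _ h
            subst h1
            have hxb : x ≠ b := fun h2 => hK.d_y _ _ _ h (h2 ▸ hby)
            have hyb : y ≠ b := fun h2 => hK.d_y _ _ _ (hK.d_symm _ _ h) (h2 ▸ hby)
            tauto
          | l =>
            exfalso
            have h1 := hK.l_diag _ _ _ h
            subst h1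
            have hyb : y ≠ b := fun h2 => hK.l_y2 _ _ _ h (h2 ▸ hby)
            have hxb : x = b := by tauto
            subst hxb
            have hyB : y ∈ B := by tauto
            exact hK.c1 _ _ _ (hbl 0) h (had y hyB (hK.l_y2 _ _ _ h) (hK.l_z2 _ _ _ h) 0)
          | t =>
            exfalso
            have hxb : x ≠ b := fun h2 => hK.t_y _ _ _ h (h2 ▸ hby)
            have hyb : y ≠ b := fun h2 => hK.yz _ hby (h2 ▸ hK.t_z2 _ _ _ h)
            have hzb : z ≠ b := fun h2 => hK.yz _ hby (h2 ▸ hK.t_z3 _ _ _ h)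
            tauto
          | r m =>
            exfalso
            have hyb : y ≠ b := fun h2 => hK.yz _ hby (h2 ▸ hK.r_z2 _ _ _ _ h)
            have hzb : z ≠ b := fun h2 => hK.yz _ hby (h2 ▸ hK.r_z3 _ _ _ _ h)
            have hxb : x = b := by tauto
            subst hxb
            have hyB : y ∈ B := by tauto
            have hzB : z ∈ B := by tauto
            exact hK.c2 _ _ _ _ _ (hbl m) (hap m) h
              (hat y hyB z hzB (hK.r_z2 _ _ _ _ h) (hK.r_z3 _ _ _ _ h) m)
        rintro σ (x | x) (y | y) (z | z)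
        · exact Iff.rfl
        · refine (key σ x y b (Or.inl x.2) (Or.inl y.2) (Or.inr rfl) (by tauto)).trans ?_
          exact iff_of_false (fun h => hne x h.2.1) (fun h => h)
        · refine (key σ x b z (Or.inl x.2) (Or.inr rfl) (Or.inl z.2) (by tauto)).trans ?_
          exact iff_of_false (fun h => hne x h.2.1) (fun h => h)
        · refine (key σ x b b (Or.inl x.2) (Or.inr rfl) (Or.inr rfl) (by tauto)).trans ?_
          exact iff_of_false (fun h => hne x h.2.1) (fun h => h)
        · refine (key σ b y z (Or.inr rfl) (Or.inl y.2) (Or.inl z.2) (by tauto)).trans ?_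
          exact iff_of_false (fun h => hne y h.2.2.1) (fun h => h)
        · refine (key σ b y b (Or.inr rfl) (Or.inl y.2) (Or.inr rfl) (by tauto)).trans ?_
          exact iff_of_false (fun h => hne y h.2.2.1) (fun h => h)
        · refine (key σ b b z (Or.inr rfl) (Or.inr rfl) (Or.inl z.2) (by tauto)).trans ?_
          exact iff_of_false (fun h => hne z h.2.2.2) (fun h => h)
        · refine (key σ b b b (Or.inr rfl) (Or.inr rfl) (Or.inr rfl) (by tauto)).trans ?_
          simp [sumRaw, yRaw]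
    have h1 := (mem_schType_iff hG hB hsB hcQ hSQ).1 hs
    exact hc _ (Or.inr (Or.inr rfl)) h1

theorem not_dominates (hG : Generic ρ) : letI := str ρ;
    ¬ Dominates LD (prod LD (tyS ρ) (tyP ρ)) (prod LD (tyS ρ) (tyQ ρ)) := by
  classical
  let _ := str ρ
  have hM := isMonster hG.K hG.S hG.E hG.H hG.big
  have hSP := isScheme_P (ρ := ρ) hG.K
  have hSQ := isScheme_sum (ρ := ρ) hG.K (isK_y Unit)
  have hSS := isScheme_sum (ρ := ρ) hG.K (isK_z Unit)
  have hpt : IsType LD univ (tyP ρ) := schType_isType hG hSP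
  have hqt : IsType LD univ (tyQ ρ) := schType_isType hG hSQ
  have hst : IsType LD univ (tyS ρ) := schType_isType hG hSS
  have hes : Small.{0} (∅ : Set U) := by infer_instance
  have hspt : IsType LD univ (prod LD (tyS ρ) (tyP ρ)) :=
    prod_isType hM hst hpt hes (schType_inv hSS ∅)
  have hsqt : IsType LD univ (prod LD (tyS ρ) (tyQ ρ)) :=
    prod_isType hM hst hqt hes (schType_inv hSS ∅)
  rintro ⟨A, hA, -, -, r, hr, hpr, hqr, hent⟩
  -- `u` in `Z` outside `A`
  obtain ⟨z, hz⟩ := exists_pat hG (isScheme_sum hG.K (isK_z Unit)) hA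
  let u : U := z ()
  have huz : ρ .z u u u := (hz.2 .z (.inr ()) (.inr ()) (.inr ())).2 ⟨rfl, rfl, rfl⟩
  have huA : u ∉ A := hz.notMem ()
  let W : Set (Unit ⊕ Unit → U) := {c | ρ (.r 0) (c (.inr ())) (c (.inl ())) u}
  -- realising products
  have hreal : ∀ {γ : Type} (p : Set (Set (γ → U))), IsType LD univ p → ∀ (B : Set U),
      Small.{0} B → ∀ a : γ → U, Realises a (restr LD p B) → ∀ w : Unit → U,
      Realises w (restr LD (tyS ρ) (B ∪ range a)) →
      Realises (Sum.elim w a) (restr LD (prod LD (tyS ρ) p) B) := by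
    intro γ p hp B hB a ha w hw t ht
    have h1 := (mem_prod_iff hM hp hB (schType_inv hSS B) ht.2 ha (p := tyS ρ)).1 ht.1
    have h2 : (B ∪ range a).Definable LD {w' : Unit → U | Sum.elim w' a ∈ t} := by
      have h3 := definable_push (A := B ∪ range a) (B := B) ht.2 subset_union_left
        (fun i : Unit ⊕ γ => Sum.elim (fun x => Sum.inr x)
          (fun y => Sum.inl ⟨a y, Or.inr ⟨y, rfl⟩⟩) i : Unit ⊕ γ → ↥(B ∪ range a) ⊕ Unit)
      convert h3 using 1
      ext w'
      simp only [mem_ofPred_eq]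
      apply iff_of_eq
      congr 1
      funext i
      rcases i with i | i <;> rfl
    exact hw _ ⟨h1, h2⟩
  -- `W ∉ s ⊗ q`
  have hWd : (univ : Set U).Definable LD W :=
    definable_rel (ρ := ρ) univ (.r 0) ![Sum.inr (Sum.inr ()), Sum.inr (Sum.inl ()),
      Sum.inl ⟨u, mem_univ _⟩]
  have hWn : Wᶜ ∈ prod LD (tyS ρ) (tyQ ρ) := by
    rw [hsqt.compl_iff hWd]
    intro hW
    have hB : Small.{0} ({u} : Set U) := by infer_instance
    obtain ⟨b, hb⟩ := exists_pat hG hSQ hB
    have hb' := (realises_schType_iff hG hSQ hB).2 hb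
    have hBb : Small.{0} ({u} ∪ range b : Set U) := small_union' hB (small_range b)
    obtain ⟨w, hw⟩ := exists_pat hG hSS hBb
    have hw' := (realises_schType_iff hG hSS hBb).2 hw
    have h1 := hreal (tyQ ρ) hqt {u} hB b hb' w hw'
    have hWd' : ({u} : Set U).Definable LD W :=
      definable_rel (ρ := ρ) {u} (.r 0) ![Sum.inr (Sum.inr ()), Sum.inr (Sum.inl ()),
        Sum.inl ⟨u, rfl⟩]
    have h2 : ρ (.r 0) (b ()) (w ()) u := h1 W ⟨hW, hWd'⟩
    have h3 := (hw.2 (.r 0) (.inl ⟨b (), Or.inr ⟨(), rfl⟩⟩) (.inr ()) (.inl ⟨u, Or.inl rfl⟩)).1 h2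
    exact h3
  obtain ⟨s₀, hs₀, t, ht, hent⟩ := hent _ hWn
  obtain ⟨B0, hB0, hs₀B⟩ := exists_small_definable (hspt.definable s₀ hs₀)
  let B : Set U := A ∪ {u} ∪ B0
  have hB : Small.{0} B := small_union' (small_union' hA (by infer_instance)) hB0
  have hAB : A ⊆ B := subset_union_left.trans subset_union_left
  have huB : u ∈ B := Or.inl (Or.inr rfl)
  obtain ⟨a, ha⟩ := exists_pat hG hSP hB
  have ha' := (realises_schType_iff hG hSP hB).2 ha
  have hBa : Small.{0} (B ∪ range a : Set U) := small_union' hB (small_range a)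
  obtain ⟨w, hw⟩ := exists_pat hG hSS hBa
  have hw' := (realises_schType_iff hG hSS hBa).2 hw
  have hwa := hreal (tyP ρ) hpt B hB a ha' w hw'
  -- realise `r` over `(w, a)`
  obtain ⟨c0, hc0⟩ := exists_realises' hM hr hA
  have h1 : Realises (c0 ∘ Sum.inl) (restr LD (prod LD (tyS ρ) (tyP ρ)) A) :=
    fun s hs => hc0 _ (hpr s hs)
  obtain ⟨e, he1, he2⟩ := exists_aut hM hspt hA h1 (hwa.mono hAB)
  let b1 : Unit ⊕ Unit → U := fun j => e (c0 (Sum.inr j))
  have hab : Realises (Sum.elim (Sum.elim w a) b1) r := by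
    intro s hs
    have h3 := (mem_iff_aut (hr.definable s hs) e he1 c0).1 (hc0 s hs)
    convert h3 using 1
    funext i
    rcases i with i | i
    · exact (he2 i).symm
    · rfl
  have hb1 : Realises b1 (restr LD (prod LD (tyS ρ) (tyQ ρ)) A) := by
    intro s hs
    exact hab _ (hqr s hs)
  -- facts on `b1`
  have hmemA : ∀ (s : Set (Unit ⊕ Unit → U)), A.Definable LD s →
      (∀ (b w : Unit → U), PatOn ρ (sumRaw ρ (yRaw Unit)) A b →
        PatOn ρ (sumRaw ρ (zRaw Unit)) (A ∪ range b) w → Sum.elim w b ∈ s) → b1 ∈ s := by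
    intro s hs h
    obtain ⟨b, hb⟩ := exists_pat hG hSQ hA
    have hb' := (realises_schType_iff hG hSQ hA).2 hb
    have hAb : Small.{0} (A ∪ range b : Set U) := small_union' hA (small_range b)
    obtain ⟨w, hw⟩ := exists_pat hG hSS hAb
    have hw' := (realises_schType_iff hG hSS hAb).2 hw
    have h3 := hreal (tyQ ρ) hqt A hA b hb' w hw'
    have h4 : s ∈ prod LD (tyS ρ) (tyQ ρ) := (hsqt.mem_iff h3 hs).2 (h b w hb hw)
    exact hb1 s ⟨h4, hs⟩
  have hb1y : ρ .y (b1 (.inr ())) (b1 (.inr ())) (b1 (.inr ())) := by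
    refine hmemA {c | ρ .y (c (.inr ())) (c (.inr ())) (c (.inr ()))}
      (definable_rel (ρ := ρ) A .y (fun _ => Sum.inr (Sum.inr ()))) ?_
    intro b w hb _
    exact (hb.2 .y (.inr ()) (.inr ()) (.inr ())).2 ⟨rfl, rfl, rfl⟩
  have hb1z : ρ .z (b1 (.inl ())) (b1 (.inl ())) (b1 (.inl ())) := by
    refine hmemA {c | ρ .z (c (.inl ())) (c (.inl ())) (c (.inl ()))}
      (definable_rel (ρ := ρ) A .z (fun _ => Sum.inr (Sum.inl ()))) ?_
    intro b w _ hw
    exact (hw.2 .z (.inr ()) (.inr ()) (.inr ())).2 ⟨rfl, rfl, rfl⟩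
  have hb1A : b1 (.inr ()) ∉ A := by
    intro hmem
    have := hmemA {c | c (.inr ()) = b1 (.inr ())}ᶜ
      (definable_eq (ρ := ρ) A (Sum.inr (Sum.inr ())) (Sum.inl ⟨_, hmem⟩)).compl
      (fun b w hb _ hbb => hb.notMem () (by
        have h5 : b () = b1 (.inr ()) := hbb
        rw [h5]
        exact hmem))
    exact this rfl
  have hb1A' : b1 (.inl ()) ∉ A := by
    intro hmem
    have := hmemA {c | c (.inl ()) = b1 (.inl ())}ᶜ
      (definable_eq (ρ := ρ) A (Sum.inr (Sum.inl ())) (Sum.inl ⟨_, hmem⟩)).compl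
      (fun b w _ hw hbb => hw.notMem () (by
        have h5 : w () = b1 (.inl ()) := hbb
        rw [h5]
        exact Or.inl hmem))
    exact this rfl
  -- the amalgam
  let C : Set U := B ∪ range (Sum.elim w a : Unit ⊕ ℕ → U)
  let C0 : Set U := A ∪ range (Sum.elim w a : Unit ⊕ ℕ → U)
  have hC : Small.{0} C := small_union' hB (small_range _)
  have hwB : w () ∉ B ∪ range a := hw.notMem ()
  have hwz : ρ .z (w ()) (w ()) (w ()) :=
    (hw.2 .z (.inr ()) (.inr ()) (.inr ())).2 ⟨rfl, rfl, rfl⟩
  have hap : ∀ k, ρ (.p k) (a k) (a k) (a k) := fun k =>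
    (ha.2 (.p k) (.inr k) (.inr k) (.inr k)).2 ⟨rfl, rfl, rfl⟩
  have hK := hG.K
  have huC0 : u ∉ C0 := by
    rintro (h | ⟨i, hi⟩)
    · exact huA h
    · rcases i with i | i
      · exact hwB (Or.inl (by
          have : w () = u := hi
          rw [this]
          exact huB))
      · exact ha.notMem i (by
          have : a i = u := hi
          rw [this]
          exact huB)
  have hyC0 : b1 (.inr ()) ∉ C0 := by
    rintro (h | ⟨i, hi⟩)
    · exact hb1A h
    · rcases i with i | i
      · have : w () = b1 (.inr ()) := hi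
        rw [← this] at hb1y
        exact hK.yz _ hb1y hwz
      · have : a i = b1 (.inr ()) := hi
        rw [← this] at hb1y
        exact hK.py _ _ (hap i) hb1y
  have hzC0 : b1 (.inl ()) ∈ C0 → b1 (.inl ()) = w () := by
    rintro (h | ⟨i, hi⟩)
    · exact absurd h hb1A'
    · rcases i with i | i
      · exact hi.symm
      · have : a i = b1 (.inl ()) := hi
        rw [← this] at hb1z
        exact absurd hb1z (hK.pz _ _ (hap i))
  let N : Set U := {x | x ∈ range b1 ∧ x ∉ C0}
  have hyN : b1 (.inr ()) ∈ N := ⟨⟨_, rfl⟩, hyC0⟩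
  have hC0C : C0 ⊆ C := union_subset_union_left _ hAB
  have hwt : ∀ x ∈ C, ¬ ρ .t x (w ()) u := by
    rintro x (hx | ⟨i, rfl⟩) h
    · exact (hw.2 .t (.inl ⟨x, Or.inl hx⟩) (.inr ()) (.inl ⟨u, Or.inl huB⟩)).1 h
    · rcases i with i | i
      · exact hK.t_z _ _ _ h hwz
      · exact (hw.2 .t (.inl ⟨a i, Or.inr ⟨i, rfl⟩⟩) (.inr ()) (.inl ⟨u, Or.inl huB⟩)).1 h
  have hKam := isK_am0 hK C C0 N fun n hn => hn.2
  -- the point playing the role of `w'`
  obtain ⟨w', hw'1, hw'2, hw'3⟩ : ∃ w' : ↥C ⊕ ↥N, proj w' = b1 (.inl ()) ∧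
      (O1 w' → b1 (.inl ()) = w ()) ∧ (∀ (b2 : Unit ⊕ Unit → U) (g : ↥C ⊕ ↥N → U),
        (∀ c, g (.inl c) = c) → (∀ j, b1 j ∈ C0 → b2 j = b1 j) →
        (∀ j (hj : b1 j ∈ N), b2 j = g (.inr ⟨b1 j, hj⟩)) → b2 (.inl ()) = g w') := by
    by_cases h : b1 (.inl ()) ∈ C0
    · refine ⟨.inl ⟨_, hC0C h⟩, rfl, fun _ => hzC0 h, ?_⟩
      intro b2 g h1 h2 _
      rw [h2 _ h, h1]
    · refine ⟨.inr ⟨_, ⟨⟨_, rfl⟩, h⟩⟩, rfl, fun h2 => by simp [O1] at h2, ?_⟩
      intro b2 g _ _ h3
      exact h3 _ ⟨⟨_, rfl⟩, h⟩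
  have hself : ∀ {σ} {x : ↥C ⊕ ↥N}, ρ σ (proj x) (proj x) (proj x) → am0 ρ C C0 N σ x x x := by
    intro σ x h
    refine ⟨h, ?_⟩
    by_cases h2 : O2 C0 x
    · exact Or.inr ⟨h2, h2, h2⟩
    · exact Or.inl ⟨o12 C0 x h2, o12 C0 x h2, o12 C0 x h2⟩
  obtain ⟨b2, g, g1, g2, g3, g4, g5, g6⟩ := realise_amalg hG hC (Sum.elim w a) b1 hr hab
    (C0 := C0) (N := N) subset_union_left (fun i => Or.inr ⟨i, rfl⟩) hC0C (fun n => Iff.rfl)
    (addTriple (am0 ρ C C0 N) (.r 0) (.inr ⟨b1 (.inr ()), hyN⟩) w' (.inl ⟨u, Or.inl huB⟩))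
    (by
      refine isK_addR hKam _ _ _ _ ?_ ?_ ?_ ?_
      · exact (am0_inr _ _).2 hb1y
      · apply hself
        rw [hw'1]
        exact hb1z
      · exact (am0_inl _ _ _ _ _ _ _).2 huz
      · intro x _ _ h9
        have h10 : O1 x ∧ O1 w' := by
          rcases h9.2 with ⟨h10, h11, -⟩ | ⟨-, -, h10⟩
          · exact ⟨h10, h11⟩
          · exact absurd (h10 rfl) huC0
        have h11 := hw'2 h10.2
        have h12 := h9.1
        rw [hw'1, h11] at h12
        rcases x with x | x
        · exact hwt x x.2 h12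
        · have := h10.1
          simp [O1] at this)
    (by
      intro σ x y z
      simp [addTriple, am0_inl])
    (by
      intro σ x y v hx hy hv
      simp only [addTriple]
      rw [am0_O2 hx hy hv]
      constructor
      · rintro (h7 | ⟨-, -, -, rfl⟩)
        · exact h7
        · exact absurd (hv rfl) huC0
      · exact Or.inl)
  have h5 := hent (Sum.elim (Sum.elim w a) b2) (by
    have : Sum.elim (Sum.elim w a) b2 ∘ Sum.inl = Sum.elim w a := rfl
    rw [this]
    exact hwa s₀ ⟨hs₀, hs₀B.mono subset_union_right⟩) (g1 t ht)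
  apply h5
  show ρ (.r 0) (b2 (.inr ())) (b2 (.inl ())) u
  have h6 : ρ (.r 0) (g (.inr ⟨b1 (.inr ()), hyN⟩)) (g w') (g (.inl ⟨u, Or.inl huB⟩)) :=
    (g4 _ _ _ _).2 (Or.inr ⟨rfl, rfl, rfl, rfl⟩)
  rw [g3, ← g6 _ hyN, ← hw'3 b2 g g3 g5 g6] at h6
  exact h6

/-- The product does not respect domination on types in countably many variables. -/
theorem not_respects_star (hG : Generic ρ) :
    letI := str ρ; ¬ Respects LD U (fun α => Countable α) := by
  let _ := str ρ
  intro h
  have hSP := isScheme_P (ρ := ρ) hG.K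
  have hSQ := isScheme_sum (ρ := ρ) hG.K (isK_y Unit)
  have hSS := isScheme_sum (ρ := ρ) hG.K (isK_z Unit)
  have hsd : Dominates LD (tyS ρ) (tyS ρ) := by
    refine dominates_of_push (schType_isType hG hSS) (A := ∅) (by infer_instance)
      (schType_inv hSS ∅) (schType_inv hSS ∅) (fun j => Sum.inr j) ?_
    intro s
    constructor
    · intro hs
      exact ⟨(schType_isType hG hSS).definable s hs, hs⟩
    · exact fun hs => hs.2
  exact not_dominates hG (h Unit ℕ Unit Unit inferInstance inferInstance inferInstance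
    inferInstance (tyS ρ) (tyP ρ)
    (tyS ρ) (tyQ ρ) (schType_invType hG hSS) (schType_invType hG hSP) (schType_invType hG hSS)
    (schType_invType hG hSQ) hsd (dominates_pq hG))

end

end Pool.Agent.H78.Dom
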